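import Pool.Agent.H362R2.QT.Stubs

/-! BV: Bombieri-Vinogradov up to `X ^ θ`, `θ < 1 / 2` (port of `MB7`). -/

set_option autoImplicit false

open Finset Filter Topology
open scoped ContDiff

namespace Pool.Agent.H362R2.QT

open Pool.Agent.H378R2 Pool.Agent.H387R2 Pool.Agent.H387R2.MB

/-- one ramp -/
theorem DAP_sum' (θ : ℝ) (hθ0 : 0 < θ) (hθ : θ < 1 / 2) (K0 A : ℕ) (s : ℝ) (hs0 : 0 ≤ s) :
    ∀ᶠ X : ℝ in atTop, ∀ W : ℕ, Squarefree W →
    (W : ℝ) ≤ (Real.log X) ^ 3 → ∀ Bc : ℕ → ℕ, (∀ q, 1 ≤ q → (Bc q).Coprime (W * q)) →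
    ∑ q ∈ (Icc 1 ⌊X ^ θ⌋₊).filter (fun q => Squarefree q ∧ q.Coprime W),
      (q.divisors.card : ℝ) ^ (2 * K0) * |DAP (Real.exp s * X) (W * q) (Bc q)| ≤
      (Real.exp s * X) / (Real.log (Real.exp s * X)) ^ A := by
  set ε : ℝ := (1 / 2 - θ) / 2 with hε
  have hε0 : 0 < ε := by rw [hε]; linarith
  obtain ⟨X0, h0⟩ := Pool.Agent.H410R2.bvap 1 le_rfl ((2 : ℝ) ^ (2 * K0)) (one_le_pow₀ (by norm_num)) ε hε0 A
  have e1 : (fun X : ℝ => Real.log X) =o[atTop] (fun X : ℝ => X ^ (ε / 3)) :=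
    isLittleO_log_rpow_atTop (by positivity)
  filter_upwards [eventually_ge_atTop X0, eventually_ge_atTop 4, e1.def (by norm_num : (0 : ℝ) < 1)] with X h1 h4 hlog
  intro W hWsq hW Bc hBc
  rw [one_mul, Real.norm_of_nonneg (Real.log_nonneg (by linarith)), Real.norm_of_nonneg (Real.rpow_nonneg (by linarith) _)] at hlog
  have hX0 : 0 < X := by linarith
  have hes : 1 ≤ Real.exp s := Real.one_le_exp hs0
  have hYX : X ≤ Real.exp s * X := by nlinarith
  have hW0 : 0 < W := Nat.pos_of_ne_zero hWsq.ne_zero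
  have hW' : (W : ℝ) ≤ X ^ ε := by
    calc (W : ℝ) ≤ (Real.log X) ^ 3 := hW
      _ ≤ (X ^ (ε / 3)) ^ 3 := pow_le_pow_left₀ (Real.log_nonneg (by linarith)) hlog 3
      _ = X ^ ε := by
          rw [← Real.rpow_natCast, ← Real.rpow_mul hX0.le]
          congr 1
          push_cast
          ring
  have k := h0 (Real.exp s * X) (h1.trans hYX) (fun Q => if W ∣ Q ∧ 0 < Q then Bc (Q / W) else 1)
  refine le_trans ?_ k
  refine le_trans ?_ (sum_le_sum_of_subset_of_nonneg (s := ((Icc 1 ⌊X ^ θ⌋₊).filter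
    (fun q => Squarefree q ∧ q.Coprime W)).image (fun q => W * q)) ?_ ?_)
  rotate_left
  · intro Q hQ
    rw [mem_image] at hQ
    obtain ⟨q, hq, rfl⟩ := hQ
    rw [mem_filter, mem_Icc] at hq
    obtain ⟨⟨hq1, hq2⟩, hq3, hq4⟩ := hq
    rw [mem_filter, mem_Icc]
    have hWq : 0 < W * q := Nat.mul_pos hW0 hq1
    refine ⟨⟨hWq, ?_⟩, ?_, ?_⟩
    · apply Nat.le_floor
      have h5 : (q : ℝ) ≤ X ^ θ := (Nat.le_floor_iff (by positivity)).1 hq2
      push_cast
      calc (W : ℝ) * q ≤ X ^ ε * X ^ θ := by gcongr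
        _ = X ^ (1 / 2 - ε) := by
            rw [← Real.rpow_add hX0]
            congr 1
            rw [hε]
            ring
        _ ≤ (Real.exp s * X) ^ (1 / 2 - ε) := by
            apply Real.rpow_le_rpow hX0.le hYX
            rw [hε]
            linarith
    · exact Nat.squarefree_mul_iff.2 ⟨hq4.symm, hWsq, hq3⟩
    · rw [if_pos ⟨Dvd.intro _ rfl, hWq⟩, one_mul, Nat.mul_div_cancel_left _ hW0]
      exact hBc q hq1
  · intro Q _ _
    positivity
  · rw [sum_image]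
    · apply sum_le_sum
      intro q hq
      rw [mem_filter, mem_Icc] at hq
      obtain ⟨⟨hq1, hq2⟩, hq3, hq4⟩ := hq
      have hWq : 0 < W * q := Nat.mul_pos hW0 hq1
      rw [if_pos ⟨Dvd.intro _ rfl, hWq⟩, one_mul, Nat.mul_div_cancel_left _ hW0]
      unfold DAP
      apply mul_le_mul_of_nonneg_right _ (abs_nonneg _)
      rw [card_div_sqf hq3]
      push_cast
      rw [← pow_mul, ← pow_mul]
      apply pow_le_pow_right₀ (by norm_num)
      rw [mul_comm]
      apply Nat.mul_le_mul_left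
      apply card_le_card
      apply Nat.primeFactors_mono _ hWq.ne'
      exact Dvd.intro_left _ rfl
    · intro a _ b _ hab
      exact Nat.eq_of_mul_eq_mul_left hW0 hab

/-- Bombieri-Vinogradov up to `X ^ θ`, `θ < 1 / 2` -/
theorem BV : St_BV := by
  intro θ hθ0 hθ K0 A
  filter_upwards [DAP_sum' θ hθ0 hθ K0 (A + 1) 1 (by norm_num),
    DAP_sum' θ hθ0 hθ K0 (A + 1) (1 / 2) (by norm_num),
    DAP_sum' θ hθ0 hθ K0 (A + 1) 0 le_rfl, eventually_ge_atTop 4,
    Real.tendsto_log_atTop.eventually_ge_atTop 12] with X h1 h2 h3 h4 h5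
  intro W hWsq hW Bc hBc
  have hX0 : 0 < X := by linarith
  have hl0 : 0 < Real.log X := by linarith
  have key : ∀ s : ℝ, 0 ≤ s → s ≤ 1 → (Real.exp s * X) / (Real.log (Real.exp s * X)) ^ (A + 1) ≤ 3 * X / (Real.log X) ^ (A + 1) := by
    intro s hs0 hs1
    have he : Real.exp s ≤ 3 := (Real.exp_le_exp.2 hs1).trans exp_one_lt_three'.le
    have hes : 1 ≤ Real.exp s := Real.one_le_exp hs0
    apply div_le_div₀ (by positivity) (by gcongr) (by positivity)
    apply pow_le_pow_left₀ hl0.le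
    apply Real.log_le_log hX0
    nlinarith
  have k1 := (h1 W hWsq hW Bc hBc).trans (key 1 (by norm_num) le_rfl)
  have k2 := (h2 W hWsq hW Bc hBc).trans (key (1/2) (by norm_num) (by norm_num))
  have k3 := (h3 W hWsq hW Bc hBc).trans (key 0 le_rfl (by norm_num))
  have k4 : BVt θ K0 X W Bc ≤ ∑ q ∈ (Icc 1 ⌊X ^ θ⌋₊).filter (fun q => Squarefree q ∧ q.Coprime W),
      (q.divisors.card : ℝ) ^ (2 * K0) * |DAP (Real.exp 1 * X) (W * q) (Bc q)| +
      2 * ∑ q ∈ (Icc 1 ⌊X ^ θ⌋₊).filter (fun q => Squarefree q ∧ q.Coprime W),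
      (q.divisors.card : ℝ) ^ (2 * K0) * |DAP (Real.exp (1 / 2) * X) (W * q) (Bc q)| +
      ∑ q ∈ (Icc 1 ⌊X ^ θ⌋₊).filter (fun q => Squarefree q ∧ q.Coprime W),
      (q.divisors.card : ℝ) ^ (2 * K0) * |DAP (Real.exp 0 * X) (W * q) (Bc q)| := by
    unfold BVt
    rw [mul_sum, ← sum_add_distrib, ← sum_add_distrib]
    apply sum_le_sum
    intro q _
    rw [EPhi_DAP X h4]
    have hτ : 0 ≤ (q.divisors.card : ℝ) ^ (2 * K0) := by positivity
    have habs : |DAP (Real.exp 1 * X) (W * q) (Bc q) - 2 * DAP (Real.exp (1 / 2) * X) (W * q) (Bc q) +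
        DAP (Real.exp 0 * X) (W * q) (Bc q)| ≤ |DAP (Real.exp 1 * X) (W * q) (Bc q)| +
        2 * |DAP (Real.exp (1 / 2) * X) (W * q) (Bc q)| + |DAP (Real.exp 0 * X) (W * q) (Bc q)| := by
      refine (abs_add_le _ _).trans ?_
      have := abs_sub (DAP (Real.exp 1 * X) (W * q) (Bc q)) (2 * DAP (Real.exp (1 / 2) * X) (W * q) (Bc q))
      rw [abs_mul, abs_of_pos (by norm_num : (0:ℝ) < 2)] at this
      linarith
    have := mul_le_mul_of_nonneg_left habs hτ
    linarith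
  have k5 : 12 * X / (Real.log X) ^ (A + 1) ≤ X / (Real.log X) ^ A := by
    rw [div_le_div_iff₀ (by positivity) (by positivity), pow_succ]
    have : 0 < (Real.log X) ^ A := by positivity
    have : 12 * (X * (Real.log X) ^ A) ≤ Real.log X * (X * (Real.log X) ^ A) := by
      apply mul_le_mul_of_nonneg_right h5 (by positivity)
    linarith
  have k6 : 12 * X / (Real.log X) ^ (A + 1) = 4 * (3 * X / (Real.log X) ^ (A + 1)) := by ring
  linarith

end Pool.Agent.H362R2.QT
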