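import Pool.Agent.H362R2.QT.Stubs
import Pool.Agent.H387R2.MB9

set_option autoImplicit false
set_option maxHeartbeats 4000000

open Finset Filter Topology

namespace Pool.Agent.H362R2.QT
namespace COLAux

theorem pt_ineq {G : Type} [Fintype G] {K' : ℕ} (P : G → Fin K' → Prop) [∀ g j, Decidable (P g j)]
    [DecidablePred (fun g => ∃ j, P g j)] {m : ℕ}
    (hm : ((univ : Finset G).filter (fun g => ∃ j, P g j)).card < m) :
    (∑ g, ∑ j, (if P g j then (1 : ℝ) else 0)) ^ 2 ≤ ((m : ℝ) - 1) *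
      (∑ g, ∑ j, (if P g j then (1 : ℝ) else 0) +
        ∑ g, ∑ j, ∑ j' ∈ univ.erase j,
          (if P g j then (1 : ℝ) else 0) * (if P g j' then (1 : ℝ) else 0)) := by
  set Z : G → ℝ := fun g => ∑ j, (if P g j then (1 : ℝ) else 0) with hZ
  set F := (univ : Finset G).filter (fun g => ∃ j, P g j) with hF
  have h1 : ∑ g, Z g = ∑ g ∈ F, Z g := by
    symm
    apply Finset.sum_subset (filter_subset _ _)
    intro g _ hg
    apply Finset.sum_eq_zero
    intro j _
    rw [if_neg]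
    intro hP
    exact hg (mem_filter.2 ⟨mem_univ _, j, hP⟩)
  have h2 : (∑ g ∈ F, Z g) ^ 2 ≤ F.card * ∑ g ∈ F, Z g ^ 2 := sq_sum_le_card_mul_sum_sq
  have h3 : ∑ g ∈ F, Z g ^ 2 ≤ ∑ g, Z g ^ 2 :=
    sum_le_sum_of_subset_of_nonneg (subset_univ _) (fun g _ _ => sq_nonneg _)
  have h4 : (F.card : ℝ) ≤ (m : ℝ) - 1 := by
    have h5 : F.card + 1 ≤ m := hm
    have h6 : ((F.card : ℝ)) + 1 ≤ m := by exact_mod_cast h5
    linarith
  have h5 : ∑ g, Z g ^ 2 = ∑ g, ∑ j, (if P g j then (1 : ℝ) else 0) +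
        ∑ g, ∑ j, ∑ j' ∈ univ.erase j,
          (if P g j then (1 : ℝ) else 0) * (if P g j' then (1 : ℝ) else 0) := by
    rw [← sum_add_distrib]
    apply sum_congr rfl
    intro g _
    rw [hZ, sq, ← sum_add_distrib]
    beta_reduce
    rw [sum_mul_sum]
    apply sum_congr rfl
    intro j _
    rw [← add_sum_erase univ _ (mem_univ j)]
    congr 1
    split_ifs <;> norm_num
  have h0 : 0 ≤ ∑ g, Z g ^ 2 := sum_nonneg fun g _ => sq_nonneg _
  calc (∑ g, Z g) ^ 2 = (∑ g ∈ F, Z g) ^ 2 := by rw [h1]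
    _ ≤ F.card * ∑ g ∈ F, Z g ^ 2 := h2
    _ ≤ F.card * ∑ g, Z g ^ 2 := mul_le_mul_of_nonneg_left h3 (Nat.cast_nonneg _)
    _ ≤ ((m : ℝ) - 1) * ∑ g, Z g ^ 2 := mul_le_mul_of_nonneg_right h4 h0
    _ = _ := by rw [h5]

theorem cs_core {G : Type} [Fintype G] {K' : ℕ} (I : Finset ℕ) (μ : ℕ → ℝ) (hμ : ∀ n ∈ I, 0 ≤ μ n)
    (P : ℕ → G → Fin K' → Prop) [∀ n g j, Decidable (P n g j)]
    [∀ n, DecidablePred (fun g => ∃ j, P n g j)] {m : ℕ} (hm : 1 ≤ m) :
    (∑ n ∈ I, μ n * (if ((univ : Finset G).filter (fun g => ∃ j, P n g j)).card < m then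
        ∑ g, ∑ j, (if P n g j then (1 : ℝ) else 0) else 0)) ^ 2 ≤
      (∑ n ∈ I, μ n) * (((m : ℝ) - 1) *
        (∑ n ∈ I, μ n * ∑ g, ∑ j, (if P n g j then (1 : ℝ) else 0) +
          ∑ n ∈ I, μ n * ∑ g, ∑ j, ∑ j' ∈ univ.erase j,
            (if P n g j then (1 : ℝ) else 0) * (if P n g j' then (1 : ℝ) else 0))) := by
  have hm1 : (0 : ℝ) ≤ (m : ℝ) - 1 := by
    have : (1 : ℝ) ≤ m := by exact_mod_cast hm
    linarith
  set S : ℕ → ℝ := fun n => ∑ g, ∑ j, (if P n g j then (1 : ℝ) else 0) with hS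
  set R : ℕ → ℝ := fun n => ∑ g, ∑ j, ∑ j' ∈ univ.erase j,
            (if P n g j then (1 : ℝ) else 0) * (if P n g j' then (1 : ℝ) else 0) with hR
  have hS0 : ∀ n, 0 ≤ S n := fun n => sum_nonneg fun g _ => sum_nonneg fun j _ => by
    split_ifs <;> norm_num
  have hR0 : ∀ n, 0 ≤ R n := fun n => sum_nonneg fun g _ => sum_nonneg fun j _ =>
    sum_nonneg fun j' _ => by split_ifs <;> norm_num
  have h1 : (∑ n ∈ I, μ n * (if ((univ : Finset G).filter (fun g => ∃ j, P n g j)).card < m then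
      S n else 0)) ^ 2 ≤ (∑ n ∈ I, μ n) * ∑ n ∈ I, μ n *
        (if ((univ : Finset G).filter (fun g => ∃ j, P n g j)).card < m then S n else 0) ^ 2 := by
    apply Finset.sum_sq_le_sum_mul_sum_of_sq_le_mul
    · exact hμ
    · intro n hn
      exact mul_nonneg (hμ n hn) (sq_nonneg _)
    · intro n _
      exact le_of_eq (by ring)
  refine h1.trans (mul_le_mul_of_nonneg_left ?_ (sum_nonneg hμ))
  rw [← sum_add_distrib, mul_sum]
  apply sum_le_sum
  intro n hn
  have h2 : (if ((univ : Finset G).filter (fun g => ∃ j, P n g j)).card < m then S n else 0) ^ 2 ≤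
      ((m : ℝ) - 1) * (S n + R n) := by
    split_ifs with h
    · exact pt_ineq (P n) h
    · have := hS0 n
      have := hR0 n
      rw [sq, mul_zero]
      positivity
  calc μ n * (if ((univ : Finset G).filter (fun g => ∃ j, P n g j)).card < m then S n else 0) ^ 2 ≤
      μ n * (((m : ℝ) - 1) * (S n + R n)) := mul_le_mul_of_nonneg_left h2 (hμ n hn)
    _ = _ := by ring

theorem alg_core {m Q x y A Pp L Au Pu κ : ℝ} (hm : 1 ≤ m) (hQ : 0 ≤ Q) (hL : 0 < L) (hAu : 0 ≤ Au)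
    (hPu : 0 ≤ Pu) (hκ : 0 < κ) (hκ1 : κ < 1) (hx : L * Q ≤ x) (hy : 0 ≤ y)
    (hA : A ≤ Au * Q) (hP0 : 0 ≤ Pp) (hP : Pp ≤ Pu * Q)
    (h : y ^ 2 ≤ A * ((m - 1) * (x + Pp)))
    (hc : (m - 1) * Au * (L + Pu) ≤ (1 - κ) ^ 2 * L ^ 2) : κ * L * Q ≤ x - y := by
  have hLQ : 0 ≤ L * Q := by positivity
  have hx0 : 0 ≤ x := hLQ.trans hx
  have hm1 : 0 ≤ m - 1 := by linarith
  have h1 : y ^ 2 ≤ (Au * Q) * ((m - 1) * (x + Pu * Q)) := by
    refine h.trans ?_
    apply mul_le_mul hA _ _ (by positivity)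
    · apply mul_le_mul_of_nonneg_left _ hm1
      linarith
    · positivity
  have h2 : L ^ 2 * y ^ 2 ≤ L ^ 2 * ((1 - κ) * x) ^ 2 := by
    calc L ^ 2 * y ^ 2 ≤ L ^ 2 * ((Au * Q) * ((m - 1) * (x + Pu * Q))) :=
          mul_le_mul_of_nonneg_left h1 (sq_nonneg _)
      _ = (m - 1) * Au * ((L * Q) * (L * x) + Pu * ((L * Q) * (L * Q))) := by ring
      _ ≤ (m - 1) * Au * (x * (L * x) + Pu * (x * x)) := by
          apply mul_le_mul_of_nonneg_left _ (by positivity)
          apply add_le_add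
          · exact mul_le_mul_of_nonneg_right hx (by positivity)
          · apply mul_le_mul_of_nonneg_left _ hPu
            exact mul_le_mul hx hx hLQ hx0
      _ = ((m - 1) * Au * (L + Pu)) * x ^ 2 := by ring
      _ ≤ ((1 - κ) ^ 2 * L ^ 2) * x ^ 2 := mul_le_mul_of_nonneg_right hc (sq_nonneg _)
      _ = L ^ 2 * ((1 - κ) * x) ^ 2 := by ring
  have h3 : y ^ 2 ≤ ((1 - κ) * x) ^ 2 := le_of_mul_le_mul_left h2 (by positivity)
  have h4 : y ≤ (1 - κ) * x := by
    have h5 : 0 ≤ (1 - κ) * x := mul_nonneg (by linarith) hx0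
    exact (pow_le_pow_iff_left₀ hy h5 (by norm_num)).1 h3
  have h6 : κ * (L * Q) ≤ κ * x := mul_le_mul_of_nonneg_left hx hκ.le
  linarith

/-- numerical inequality, pure numbers -/
theorem num_pure {m : ℝ} (hm : 1 ≤ m) :
    (m - 1) * ((1 - 1 / (100 * m)) / (2500 * m) + 1 / (50 * (1 - 1 / (100 * m)))) <
      (1 - 1 / (4 * m)) ^ 2 * (m / 50) * (1 - 1 / (100 * m)) ^ 2 := by
  set x : ℝ := 1 / m with hx
  have hm0 : 0 < m := by linarith
  have hx0 : 0 < x := by positivity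
  have hx1 : x ≤ 1 := by
    rw [hx, div_le_one hm0]
    exact hm
  have e1 : 1 / (100 * m) = x / 100 := by rw [hx]; field_simp
  have e2 : 1 / (4 * m) = x / 4 := by rw [hx]; field_simp
  have e3 : m = 1 / x := by rw [hx]; field_simp
  have hd : 0 < 1 - x / 100 := by linarith
  have h1 : 1 / (1 - x / 100) ≤ 1 + x / 99 := by
    rw [div_le_iff₀ hd]
    nlinarith
  have h2 : (1 - x) * ((1 - x / 100) * x / 50 + 1 / (1 - x / 100)) <
      (1 - x / 4) ^ 2 * (1 - x / 100) ^ 2 := by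
    have h3 : (1 - x) * ((1 - x / 100) * x / 50 + 1 / (1 - x / 100)) ≤ 1 - x + x / 30 := by
      have h4 : (1 - x / 100) * x / 50 + 1 / (1 - x / 100) ≤ 1 + x / 30 := by
        have : (1 - x / 100) * x / 50 ≤ x / 50 := by
          have : (1 - x / 100) * x ≤ 1 * x := mul_le_mul_of_nonneg_right (by linarith) hx0.le
          linarith
        linarith
      calc (1 - x) * ((1 - x / 100) * x / 50 + 1 / (1 - x / 100)) ≤ (1 - x) * (1 + x / 30) :=
            mul_le_mul_of_nonneg_left h4 (by linarith)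
        _ ≤ 1 - x + x / 30 := by nlinarith
    have h5 : 1 - x / 2 - x / 50 ≤ (1 - x / 4) ^ 2 * (1 - x / 100) ^ 2 := by
      have h6 : 1 - x / 2 ≤ (1 - x / 4) ^ 2 := by nlinarith [sq_nonneg x]
      have h7 : 1 - x / 50 ≤ (1 - x / 100) ^ 2 := by nlinarith [sq_nonneg x]
      calc 1 - x / 2 - x / 50 ≤ (1 - x / 2) * (1 - x / 50) := by nlinarith [sq_nonneg x]
        _ ≤ (1 - x / 4) ^ 2 * (1 - x / 100) ^ 2 := by
            apply mul_le_mul h6 h7 (by linarith) (by positivity)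
    linarith
  rw [e1, e2, e3]
  have e4 : (1 / x - 1) * ((1 - x / 100) / (2500 * (1 / x)) + 1 / (50 * (1 - x / 100))) =
      ((1 - x) * ((1 - x / 100) * x / 50 + 1 / (1 - x / 100))) * (1 / (50 * x)) := by
    field_simp
    ring
  have e5 : (1 - x / 4) ^ 2 * (1 / x / 50) * (1 - x / 100) ^ 2 =
      ((1 - x / 4) ^ 2 * (1 - x / 100) ^ 2) * (1 / (50 * x)) := by
    field_simp
  rw [e4, e5]
  exact mul_lt_mul_of_pos_right h2 (by positivity)

/-- the strict inequality for the constants of the family -/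
theorem num_fam {m s b K' S η V M0 κ J J2 : ℝ} (hm : 1 ≤ m) (hs : 0 < s) (hb : 0 < b) (hK : 0 < K')
    (hS : 0 < S) (hη : η = 1 / (100 * m)) (hV : V = 50 * (1 - 1 / (100 * m))) (hM : M0 = 2500 * m)
    (hκ : κ = 1 / (4 * m)) (hJ : J = (1 - η) * b ^ 2 * S) (hJ2 : J2 = b ^ 4 * S / s)
    (h : M0 * s ≤ K' * b ^ 2) :
    (m - 1) * (S * s) * (4 * m * K' * (J / 200) + 4 * m * K' ^ 2 * (J2 / V / 200)) <
      (1 - κ) ^ 2 * (4 * m * K' * (J / 200)) ^ 2 := by
  have hm0 : 0 < m := by linarith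
  have hM0 : 0 < M0 := by rw [hM]; positivity
  have h100 : 1 / (100 * m) ≤ 1 / 100 := by
    apply one_div_le_one_div_of_le (by norm_num)
    linarith
  have hη1 : 0 < 1 - η := by rw [hη]; linarith
  have hV0 : 0 < V := by rw [hV]; linarith
  have hu : 0 < K' * b ^ 2 := by positivity
  have h1 : s ≤ K' * b ^ 2 / M0 := by
    rw [le_div_iff₀ hM0]
    linarith
  have h2 : (m - 1) * (s * (1 - η) + K' * b ^ 2 / V) <
      (1 - κ) ^ 2 * (4 * m * K' / 200) * (1 - η) ^ 2 * b ^ 2 := by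
    have h3 : s * (1 - η) + K' * b ^ 2 / V ≤ (K' * b ^ 2) * ((1 - η) / M0 + 1 / V) := by
      calc s * (1 - η) + K' * b ^ 2 / V ≤ (K' * b ^ 2 / M0) * (1 - η) + K' * b ^ 2 / V := by
            have := mul_le_mul_of_nonneg_right h1 hη1.le
            linarith
        _ = _ := by ring
    have h4 := num_pure hm
    have h5 : (m - 1) * (s * (1 - η) + K' * b ^ 2 / V) ≤
        (K' * b ^ 2) * ((m - 1) * ((1 - η) / M0 + 1 / V)) := by
      calc (m - 1) * (s * (1 - η) + K' * b ^ 2 / V) ≤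
          (m - 1) * ((K' * b ^ 2) * ((1 - η) / M0 + 1 / V)) :=
            mul_le_mul_of_nonneg_left h3 (by linarith)
        _ = _ := by ring
    have h6 : (K' * b ^ 2) * ((m - 1) * ((1 - η) / M0 + 1 / V)) <
        (K' * b ^ 2) * ((1 - κ) ^ 2 * (m / 50) * (1 - η) ^ 2) := by
      apply mul_lt_mul_of_pos_left _ hu
      rw [hη, hM, hV, hκ]
      exact h4
    calc (m - 1) * (s * (1 - η) + K' * b ^ 2 / V) ≤ _ := h5
      _ < _ := h6
      _ = _ := by ring
  have hfac : 0 < (4 * m * K' / 200) * S ^ 2 * b ^ 2 := by positivity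
  have h7 := mul_lt_mul_of_pos_left h2 hfac
  have e1 : (m - 1) * (S * s) * (4 * m * K' * (J / 200) + 4 * m * K' ^ 2 * (J2 / V / 200)) =
      (4 * m * K' / 200) * S ^ 2 * b ^ 2 * ((m - 1) * (s * (1 - η) + K' * b ^ 2 / V)) := by
    rw [hJ, hJ2]
    field_simp
  have e2 : (1 - κ) ^ 2 * (4 * m * K' * (J / 200)) ^ 2 = (4 * m * K' / 200) * S ^ 2 * b ^ 2 *
      ((1 - κ) ^ 2 * (4 * m * K' / 200) * (1 - η) ^ 2 * b ^ 2) := by
    rw [hJ]
    ring
  rw [e1, e2]
  exact h7

/-- room for a small error -/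
theorem num_eps {m s b K' S η V M0 κ J J2 : ℝ} (hm : 1 ≤ m) (hs : 0 < s) (hb : 0 < b) (hK : 0 < K')
    (hS : 0 < S) (hη : η = 1 / (100 * m)) (hV : V = 50 * (1 - 1 / (100 * m))) (hM : M0 = 2500 * m)
    (hκ : κ = 1 / (4 * m)) (hJ : J = (1 - η) * b ^ 2 * S) (hJ2 : J2 = b ^ 4 * S / s)
    (h : M0 * s ≤ K' * b ^ 2) :
    ∃ ε : ℝ, 0 < ε ∧ ε < J ∧
    (m - 1) * (S * s + ε) * (4 * m * K' * ((J - ε) / 200) + 4 * m * K' ^ 2 * ((J2 / V + ε) / 200)) ≤
      (1 - κ) ^ 2 * (4 * m * K' * ((J - ε) / 200)) ^ 2 := by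
  have hm0 : 0 < m := by linarith
  have h100 : 1 / (100 * m) ≤ 1 / 100 := by
    apply one_div_le_one_div_of_le (by norm_num)
    linarith
  have hJ0 : 0 < J := by
    have : 0 < 1 - η := by rw [hη]; linarith
    rw [hJ]
    positivity
  have h1 := num_fam hm hs hb hK hS hη hV hM hκ hJ hJ2 h
  have hc1 : Continuous fun ε : ℝ => (m - 1) * (S * s + ε) *
      (4 * m * K' * ((J - ε) / 200) + 4 * m * K' ^ 2 * ((J2 / V + ε) / 200)) := by fun_prop
  have hc2 : Continuous fun ε : ℝ => (1 - κ) ^ 2 * (4 * m * K' * ((J - ε) / 200)) ^ 2 := by fun_prop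
  have hev : ∀ᶠ ε : ℝ in 𝓝 0, (m - 1) * (S * s + ε) *
      (4 * m * K' * ((J - ε) / 200) + 4 * m * K' ^ 2 * ((J2 / V + ε) / 200)) <
      (1 - κ) ^ 2 * (4 * m * K' * ((J - ε) / 200)) ^ 2 := by
    apply (hc1.tendsto 0).eventually_lt (hc2.tendsto 0)
    simpa using h1
  have hev2 : ∀ᶠ ε : ℝ in 𝓝 0, ε < J := gt_mem_nhds hJ0
  have hall := ((hev.and hev2).filter_mono
    (nhdsWithin_le_nhds (s := Set.Ioi (0 : ℝ)))).and (self_mem_nhdsWithin (s := Set.Ioi (0 : ℝ)))
  obtain ⟨ε, ⟨h2, h3⟩, h4⟩ := hall.exists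
  exact ⟨ε, h4, h3, h2.le⟩

end COLAux

open scoped ContDiff

open Pool.Agent.H378R2 Pool.Agent.H387R2 Pool.Agent.H387R2.MB

theorem COL (hFAM : St_FAM) (hTOT : St_TOT) (hONE : St_ONE) (hPAIR : St_PAIR) : St_COL := by
  classical
  intro m hm
  have hmR : (1 : ℝ) ≤ m := by exact_mod_cast hm
  have hm0 : (0 : ℝ) < m := by linarith
  have h100 : 1 / (100 * (m : ℝ)) ≤ 1 / 100 := by
    apply one_div_le_one_div_of_le (by norm_num)
    linarith
  have h1000 : 0 < 1 / (100 * (m : ℝ)) := by positivity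
  set η : ℝ := 1 / (100 * (m : ℝ)) with hη
  set V : ℝ := 50 * (1 - 1 / (100 * (m : ℝ))) with hV
  set M0 : ℝ := 2500 * (m : ℝ) with hM0
  set κ : ℝ := 1 / (4 * (m : ℝ)) with hκ
  have hκ0 : 0 < κ := by rw [hκ]; positivity
  have hκ1 : κ < 1 := by
    rw [hκ, div_lt_one (by positivity)]
    linarith
  have hV0 : 0 < V := by rw [hV]; linarith
  obtain ⟨K', K0, B, f, c, A, s, b, hTK, hK0, hs, hb, hsm, hcs, hf0, hc, hA, hf1, hII0, hII, hJJ, hJJ2, hM⟩ :=
    hFAM (4 * m) η M0 (1 / (4 * m)) (by omega) h1000 (by linarith) (by positivity)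
      (by rw [div_le_one (by positivity)]; linarith)
  have hA1 : ∀ a ∈ A, ∑ j, c (a j) ≤ 1 := by
    intro a ha
    refine (hA a ha).trans ?_
    rw [div_le_one (by positivity)]
    linarith
  have hK'1 : 1 ≤ K' := by
    rcases Nat.eq_zero_or_pos K' with h | h
    · rw [h, mul_zero] at hTK
      omega
    · exact h
  have hK'0 : (0 : ℝ) < K' := by exact_mod_cast hK'1
  set S : ℝ := s ^ K0 with hS
  have hS0 : 0 < S := by rw [hS]; positivity
  set J : ℝ := (1 - η) * b ^ 2 * S with hJ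
  set J2 : ℝ := b ^ 4 * S / s with hJ2
  obtain ⟨ε, hε, hεJ, hnum⟩ := COLAux.num_eps hmR hs hb hK'0 hS0 hη hV hM0 hκ hJ hJ2 hM
  set L : ℝ := 4 * m * K' * ((J - ε) / 200) with hL
  set Pu : ℝ := 4 * m * (K' : ℝ) ^ 2 * ((J2 / V + ε) / 200) with hPu
  have hL0 : 0 < L := by
    have : 0 < J - ε := by linarith
    rw [hL]; positivity
  have hJ20 : 0 < J2 := by rw [hJ2]; positivity
  have hPu0 : 0 < Pu := by rw [hPu]; positivity
  set KK : ℝ := (K0 : ℝ) + 1 with hKK
  have hKK0 : 0 < KK := by positivity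
  -- lemmas used
  obtain ⟨C, hC0, z3, hnr⟩ := nonrough f c A hsm hcs hf0 hc hA1 hf1 hII0.le
  set c1 : ℝ := κ * L / (2 * KK) with hc1
  have hc10 : 0 < c1 := by rw [hc1]; positivity
  set δ : ℝ := min (1 / 10) (c1 / (C + 1)) with hδ
  have hδ0 : 0 < δ := lt_min (by norm_num) (by positivity)
  have hδ1 : δ ≤ 1 / 10 := min_le_left _ _
  have hδC : C * δ ≤ c1 := by
    have h1 : δ ≤ c1 / (C + 1) := min_le_right _ _
    calc C * δ ≤ (C + 1) * (c1 / (C + 1)) := by
          apply mul_le_mul (by linarith) h1 hδ0.le (by linarith)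
      _ = c1 := by field_simp
  obtain ⟨θ1, hθ1, z1, hone⟩ := hONE f c A hsm hcs hf0 hc hA1 hf1 ε hε
  obtain ⟨θ2, hθ2, z2, hpair⟩ := hPAIR f c A V (1 / (4 * m)) hsm hcs hf0 hc hA hf1 hV0 (by positivity)
    (by rw [div_le_one (by positivity)]; linarith)
    (by
      have e1 : 1 / (4 * (m : ℝ)) = 25 * (1 / (100 * (m : ℝ))) := by field_simp; norm_num
      rw [hV, e1]
      linarith) ε hε
  obtain ⟨z4, htot⟩ := hTOT f c A hsm hcs hf0 hc hA1 hf1 ε hε
  set θ : ℝ := min δ (min θ1 θ2) with hθ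
  have hθ0 : 0 < θ := lt_min hδ0 (lt_min hθ1 hθ2)
  set D : ℝ := ((A.card : ℝ) * (2 ^ ⌈400 / δ⌉₊) ^ (K0 + 1)) ^ 2 + 1 with hD
  have hD0 : 0 < D := by positivity
  set z : ℕ := max z1 (max z2 (max z3 z4)) with hz
  have hz1 : z1 ≤ z := le_max_left _ _
  have hz2 : z2 ≤ z := (le_max_left _ _).trans (le_max_right _ _)
  have hz3 : z3 ≤ z := (le_max_left _ _).trans ((le_max_right _ _).trans (le_max_right _ _))
  have hz4 : z4 ≤ z := (le_max_right _ _).trans ((le_max_right _ _).trans (le_max_right _ _))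
  obtain ⟨e⟩ : Nonempty (Fin (4 * m) × Fin K' ≃ Fin (K0 + 1)) :=
    ⟨finProdFinEquiv.trans (finCongr hTK)⟩
  refine ⟨K', K0, e, δ, hK'1, hδ0, hδ1, θ, hθ0, c1 / D, by positivity, z, ?_⟩
  filter_upwards [hone, hpair, htot, hnr δ hδ0 hδ1, eventually_ge_atTop 4,
    LL_tendsto.eventually_ge_atTop 1] with X h1 h2 h3 h4 h5 h6
  intro W E a0 t hC
  have hcnd : ∀ (θ' : ℝ) (z' : ℕ), θ ≤ θ' → z' ≤ z → Cnd θ' X z' W E a0 t := by
    intro θ' z' hθ' hz'
    refine ⟨⟨hC.cs.gs.mono hz', hC.cs.pos, hC.cs.le, hC.cs.dv⟩, hC.sq, hC.dt, hC.cp, hC.tl,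
      hC.sm.trans hθ', hC.b1, ?_⟩
    refine le_trans ?_ hC.b2
    apply mul_le_mul_of_nonneg_right _ (Nat.cast_nonneg _)
    linarith
  have hθδ : θ ≤ δ := min_le_left _ _
  have hθθ1 : θ ≤ θ1 := (min_le_right _ _).trans (min_le_left _ _)
  have hθθ2 : θ ≤ θ2 := (min_le_right _ _).trans (min_le_right _ _)
  have s1 := h1 W E a0 t (hcnd θ1 z1 hθθ1 hz1)
  have s2 := h2 W E a0 t (hcnd θ2 z2 hθθ2 hz2)
  have s3 := h3 θ W E a0 t (hcnd θ z4 le_rfl hz4)
  have s5 := h4 W E a0 t (hcnd θ z3 le_rfl hz3).cs hC.dt hC.cp (hC.sm.trans hθδ)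
  have hBE : 0 < BE E := BE_pos hC.cs.gs.pr
  have hL1 : 0 < LL X := by linarith
  have hMP : 0 ≤ MPhi X := MPhi_nonneg X
  set Q := QQ (K0 + 1) X W E with hQ
  have hQ0 : 0 ≤ Q := by rw [hQ]; unfold QQ; positivity
  set w : ℕ → ℝ := fun n => sqw E X f A (fun j => (n : ℤ) + t j) ^ 2 with hw
  have hw0 : ∀ n, 0 ≤ w n := fun n => sq_nonneg _
  set μ : ℕ → ℝ := fun n => nu X W a0 n * w n with hμ
  have hμ0 : ∀ n, 0 ≤ μ n := fun n => mul_nonneg (nu_nonneg _ _ _ _) (hw0 n)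
  set I := Icc 1 ⌊3 * X⌋₊ with hI
  set P : ℕ → Fin (4 * m) → Fin K' → Prop := fun n g j => (n + t (e (g, j))).Prime with hP
  set hh : ℕ → ℕ := fun n => ((univ : Finset (Fin (4 * m))).filter (fun g => ∃ j, P n g j)).card with hhh
  set Sn : ℕ → ℝ := fun n => ∑ g, ∑ j, (if P n g j then (1 : ℝ) else 0) with hSn
  have hSn0 : ∀ n, 0 ≤ Sn n := fun n => sum_nonneg fun g _ => sum_nonneg fun j _ => by
    split_ifs <;> norm_num
  have hSnle : ∀ n, Sn n ≤ KK := by
    intro n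
    calc Sn n ≤ ∑ _g : Fin (4 * m), ∑ _j : Fin K', (1 : ℝ) :=
          sum_le_sum fun g _ => sum_le_sum fun j _ => by split_ifs <;> norm_num
      _ = ((4 * m * K' : ℕ) : ℝ) := by
          simp
      _ = KK := by rw [hTK, hKK]; push_cast; ring
  set x : ℝ := ∑ n ∈ I, μ n * Sn n with hx
  set y : ℝ := ∑ n ∈ I, μ n * (if hh n < m then Sn n else 0) with hy
  set Pp : ℝ := ∑ n ∈ I, μ n * ∑ g, ∑ j, ∑ j' ∈ univ.erase j,
            (if P n g j then (1 : ℝ) else 0) * (if P n g j' then (1 : ℝ) else 0) with hPp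
  have hcs' : y ^ 2 ≤ (∑ n ∈ I, μ n) * (((m : ℝ) - 1) * (x + Pp)) :=
    COLAux.cs_core I μ (fun n _ => hμ0 n) P hm
  have hxL : L * Q ≤ x := by
    have e1 : x = ∑ g, ∑ j, ∑ n ∈ I, μ n * (if P n g j then (1 : ℝ) else 0) := by
      rw [hx]
      simp only [hSn, mul_sum]
      rw [sum_comm]
      apply sum_congr rfl
      intro g _
      rw [sum_comm]
    have e2 : ∀ g j, (J - ε) / 200 * Q ≤ ∑ n ∈ I, μ n * (if P n g j then (1 : ℝ) else 0) := by
      intro g j
      have h7 := s1 (e (g, j))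
      have h8 : (J - ε) / 200 * Q ≤ (JJ f A (e (g, j)) - ε) / 200 * Q := by
        apply mul_le_mul_of_nonneg_right _ hQ0
        have := hJJ (e (g, j))
        linarith
      refine h8.trans (h7.trans (le_of_eq ?_))
      apply sum_congr rfl
      intro n _
      by_cases h9 : (n + t (e (g, j))).Prime
      · rw [if_pos h9, if_pos (show P n g j from h9), mul_one]
      · rw [if_neg h9, if_neg (show ¬ P n g j from h9), mul_zero, mul_zero]
    rw [e1]
    calc L * Q = ∑ _g : Fin (4 * m), ∑ _j : Fin K', (J - ε) / 200 * Q := by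
          rw [sum_const, sum_const, card_univ, card_univ, Fintype.card_fin, Fintype.card_fin,
            nsmul_eq_mul, nsmul_eq_mul, hL]
          push_cast
          ring
      _ ≤ _ := sum_le_sum fun g _ => sum_le_sum fun j _ => e2 g j
  have hPpQ : Pp ≤ Pu * Q := by
    have e1 : Pp = ∑ g, ∑ j, ∑ j' ∈ univ.erase j, ∑ n ∈ I, μ n *
        ((if P n g j then (1 : ℝ) else 0) * (if P n g j' then (1 : ℝ) else 0)) := by
      rw [hPp]
      simp only [mul_sum]
      rw [sum_comm]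
      apply sum_congr rfl
      intro g _
      rw [sum_comm]
      apply sum_congr rfl
      intro j _
      rw [sum_comm]
    have e2 : ∀ g j, ∀ j' ∈ (univ : Finset (Fin K')).erase j, ∑ n ∈ I, μ n *
        ((if P n g j then (1 : ℝ) else 0) * (if P n g j' then (1 : ℝ) else 0)) ≤
        (J2 / V + ε) / 200 * Q := by
      intro g j j' hj'
      have hne : e (g, j') ≠ e (g, j) := by
        intro h
        have := e.injective h
        simp only [Prod.mk.injEq, true_and] at this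
        exact (ne_of_mem_erase hj') this
      obtain ⟨j0, hj0⟩ := Fin.exists_succAbove_eq hne
      have h7 := s2 (e (g, j)) j0
      have h8 : (JJ2 f A (e (g, j)) j0 / V + ε) / 200 * Q ≤ (J2 / V + ε) / 200 * Q := by
        apply mul_le_mul_of_nonneg_right _ hQ0
        have h9 : JJ2 f A (e (g, j)) j0 ≤ J2 := by
          rw [hJ2, le_div_iff₀ hs]
          exact hJJ2 _ _
        have h10 : JJ2 f A (e (g, j)) j0 / V ≤ J2 / V := div_le_div_of_nonneg_right h9 hV0.le
        linarith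
      refine le_trans (le_of_eq ?_) (h7.trans h8)
      rw [hj0]
      apply sum_congr rfl
      intro n _
      by_cases h9 : (n + t (e (g, j))).Prime
      · by_cases h10 : (n + t (e (g, j'))).Prime
        · rw [if_pos (show P n g j from h9), if_pos (show P n g j' from h10),
            if_pos (show (n + t (e (g, j))).Prime ∧ (n + t (e (g, j'))).Prime from ⟨h9, h10⟩),
            mul_one, mul_one]
        · rw [if_neg (show ¬ P n g j' from h10),
            if_neg (show ¬ ((n + t (e (g, j))).Prime ∧ (n + t (e (g, j'))).Prime) from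
              fun h => h10 h.2), mul_zero, mul_zero, mul_zero]
      · rw [if_neg (show ¬ P n g j from h9),
          if_neg (show ¬ ((n + t (e (g, j))).Prime ∧ (n + t (e (g, j'))).Prime) from
            fun h => h9 h.1), zero_mul, mul_zero, mul_zero]
    have hpos : 0 ≤ (J2 / V + ε) / 200 * Q := by positivity
    rw [e1]
    calc _ ≤ ∑ _g : Fin (4 * m), ∑ j : Fin K', ∑ _j' ∈ (univ : Finset (Fin K')).erase j,
          (J2 / V + ε) / 200 * Q :=
          sum_le_sum fun g _ => sum_le_sum fun j _ => sum_le_sum fun j' hj' => e2 g j j' hj'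
      _ ≤ ∑ _g : Fin (4 * m), ∑ _j : Fin K', (K' : ℝ) * ((J2 / V + ε) / 200 * Q) := by
          apply sum_le_sum
          intro g _
          apply sum_le_sum
          intro j _
          rw [sum_const, nsmul_eq_mul]
          apply mul_le_mul_of_nonneg_right _ hpos
          have : ((univ : Finset (Fin K')).erase j).card ≤ K' := by
            refine (card_le_card (erase_subset _ _)).trans ?_
            rw [card_univ, Fintype.card_fin]
          exact_mod_cast this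
      _ = Pu * Q := by
          rw [sum_const, sum_const, card_univ, card_univ, Fintype.card_fin, Fintype.card_fin,
            nsmul_eq_mul, nsmul_eq_mul, hPu]
          push_cast
          ring
  have hPp0 : 0 ≤ Pp := by
    rw [hPp]
    apply sum_nonneg
    intro n _
    apply mul_nonneg (hμ0 n)
    exact sum_nonneg fun g _ => sum_nonneg fun j _ => sum_nonneg fun j' _ => by
      split_ifs <;> norm_num
  have hy0 : 0 ≤ y := by
    rw [hy]
    apply sum_nonneg
    intro n _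
    apply mul_nonneg (hμ0 n)
    split_ifs
    · exact hSn0 n
    · exact le_rfl
  have hAu : ∑ n ∈ I, μ n ≤ (S * s + ε) * Q := by
    refine s3.trans ?_
    apply mul_le_mul_of_nonneg_right _ hQ0
    have : s ^ (K0 + 1) = S * s := by rw [hS, pow_succ]
    rw [this] at hII
    linarith
  have hkey : κ * L * Q ≤ x - y :=
    COLAux.alg_core (m := (m : ℝ)) hmR hQ0 hL0 (by positivity) hPu0.le hκ0 hκ1 hxL hy0 hAu hPp0 hPpQ
      hcs' hnum
  -- the sum over the good n
  set Sg : ℝ := ∑ n ∈ I, nu X W a0 n * (if m ≤ hh n then w n else 0) with hSg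
  have hxy : x - y ≤ KK * Sg := by
    rw [hx, hy, ← sum_sub_distrib, hSg, mul_sum]
    apply sum_le_sum
    intro n _
    by_cases h7 : hh n < m
    · rw [if_pos h7, if_neg (not_le.2 h7)]
      simp
    · rw [if_neg h7, if_pos (not_lt.1 h7), mul_zero, sub_zero]
      calc μ n * Sn n ≤ μ n * KK := mul_le_mul_of_nonneg_left (hSnle n) (hμ0 n)
        _ = KK * (nu X W a0 n * w n) := by rw [hμ]; ring
  have hSg1 : 2 * c1 * Q ≤ Sg := by
    have h7 : KK * (2 * c1 * Q) ≤ KK * Sg := by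
      refine le_trans (le_of_eq ?_) (hkey.trans hxy)
      rw [hc1]
      field_simp
    exact le_of_mul_le_mul_left h7 hKK0
  -- remove the non rough part
  have s12 : Sg ≤ ∑ n ∈ I, nu X W a0 n *
        (if m ≤ hh n ∧ (∀ j, Rg δ X (n + t j)) then w n else 0) +
      ∑ n ∈ I, ∑ j : Fin (K0 + 1), ∑ p ∈ PS δ X,
        nu X W a0 n * (if (p : ℤ) ∣ (n : ℤ) + t j then w n else 0) := by
    rw [hSg, ← sum_add_distrib]
    apply sum_le_sum
    intro n _
    have hnu := nu_nonneg X W a0 n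
    have hnn : 0 ≤ ∑ j : Fin (K0 + 1), ∑ p ∈ PS δ X,
        nu X W a0 n * (if (p : ℤ) ∣ (n : ℤ) + t j then w n else 0) := by
      apply sum_nonneg; intro j _
      apply sum_nonneg; intro p _
      apply mul_nonneg hnu
      split_ifs
      · exact hw0 n
      · exact le_rfl
    by_cases h10 : m ≤ hh n
    · by_cases h11 : ∀ j, Rg δ X (n + t j)
      · rw [if_pos h10, if_pos ⟨h10, h11⟩]
        linarith
      · rw [if_pos h10, if_neg (fun h => h11 h.2), mul_zero, zero_add]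
        unfold Rg at h11
        push Not at h11
        obtain ⟨j, p, hp, hpd⟩ := h11
        have e1 : nu X W a0 n * w n =
            nu X W a0 n * (if (p : ℤ) ∣ (n : ℤ) + t j then w n else 0) := by
          rw [if_pos]
          have e : ((n + t j : ℕ) : ℤ) = (n : ℤ) + t j := by push_cast; ring
          rw [← e]
          exact Int.natCast_dvd_natCast.2 hpd
        rw [e1]
        have hterm : ∀ (j : Fin (K0 + 1)) (p : ℕ),
            0 ≤ nu X W a0 n * (if (p : ℤ) ∣ (n : ℤ) + t j then w n else 0) := by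
          intro j p
          apply mul_nonneg hnu
          split_ifs
          · exact hw0 n
          · exact le_rfl
        refine le_trans (single_le_sum
          (f := fun p : ℕ => nu X W a0 n * (if (p : ℤ) ∣ (n : ℤ) + t j then w n else 0))
          (fun p _ => hterm j p) hp) ?_
        exact single_le_sum (f := fun j => ∑ p ∈ PS δ X,
          nu X W a0 n * (if (p : ℤ) ∣ (n : ℤ) + t j then w n else 0))
          (fun j _ => sum_nonneg fun p _ => hterm j p) (mem_univ j)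
    · rw [if_neg h10, if_neg (fun h => h10 h.1), mul_zero, zero_add]
      exact hnn
  have s5' : ∑ n ∈ I, ∑ j : Fin (K0 + 1), ∑ p ∈ PS δ X,
        nu X W a0 n * (if (p : ℤ) ∣ (n : ℤ) + t j then w n else 0) ≤ C * δ * Q := s5
  have s13 : C * δ * Q ≤ c1 * Q := mul_le_mul_of_nonneg_right hδC hQ0
  have s14 : c1 * Q ≤ ∑ n ∈ I, nu X W a0 n *
        (if m ≤ hh n ∧ (∀ j, Rg δ X (n + t j)) then w n else 0) := by linarith
  rw [div_mul_eq_mul_div, div_le_iff₀ hD0, sum_mul]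
  refine s14.trans ?_
  apply sum_le_sum
  intro n hn
  rw [hI, mem_Icc] at hn
  have hn3 : (n : ℝ) ≤ 3 * X := (Nat.le_floor_iff (by linarith)).1 hn.2
  have hnu := nu_nonneg X W a0 n
  rw [mul_assoc]
  apply mul_le_mul_of_nonneg_left _ hnu
  by_cases hc' : m ≤ hh n ∧ (∀ j, Rg δ X (n + t j))
  · rw [if_pos hc', if_pos hc', one_mul]
    have hsq : Real.sqrt X ≤ X := by
      rw [Real.sqrt_le_left (by linarith)]
      nlinarith
    have hVb : ∀ (j : Fin (K0 + 1)) (l : Fin B),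
        |VVm E (RR X) (LL X) (f l) ((n : ℤ) + t j)| ≤ 2 ^ ⌈400 / δ⌉₊ := by
      intro j l
      have e : (n : ℤ) + t j = ((n + t j : ℕ) : ℤ) := by push_cast; ring
      rw [e]
      apply VV_rg_le hδ0 h5 h6 (by omega) _ (hc'.2 j) E _ _ (hf1 l)
      push_cast
      have := hC.tl j
      linarith
    have habs : |sqw E X f A (fun j => (n : ℤ) + t j)| ≤
        (A.card : ℝ) * (2 ^ ⌈400 / δ⌉₊) ^ (K0 + 1) := by
      unfold sqw
      refine (abs_sum_le_sum_abs _ _).trans ?_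
      rw [← nsmul_eq_mul]
      apply sum_le_card_nsmul
      intro a _
      rw [abs_prod]
      calc ∏ j : Fin (K0 + 1), |VVm E (RR X) (LL X) (f (a j)) ((n : ℤ) + t j)| ≤
          ∏ _j : Fin (K0 + 1), (2:ℝ) ^ ⌈400 / δ⌉₊ :=
            Finset.prod_le_prod (fun j _ => abs_nonneg _) (fun j _ => hVb j (a j))
        _ = _ := by rw [prod_const, card_univ, Fintype.card_fin]
    have hsqw : sqw E X f A (fun j => (n : ℤ) + t j) ^ 2 ≤
        ((A.card : ℝ) * (2 ^ ⌈400 / δ⌉₊) ^ (K0 + 1)) ^ 2 := by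
      rw [← sq_abs]
      exact pow_le_pow_left₀ (abs_nonneg _) habs 2
    rw [hD]
    have e3 : w n = sqw E X f A (fun j => (n : ℤ) + t j) ^ 2 := rfl
    linarith
  · rw [if_neg hc', if_neg hc', zero_mul]

end Pool.Agent.H362R2.QT
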