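import Pool.Agent.H362R2.QT.Stubs

set_option autoImplicit false

open Finset Filter Topology

namespace Pool.Agent.H362R2.QT

open Pool.Agent.H378R2 Pool.Agent.H387R2 Pool.Agent.H387R2.MB Pool.Agent.H387R2.Uni Pool.Agent.H386R2.HL

/-- sharp lower bound of the singular series by a count of residues -/
theorem cts_ge (T : Finset ℕ) (y : ℕ) (hy : 1 ≤ y) (hTy : T.card ^ 2 ≤ y) :
    (1 - (T.card : ℝ) ^ 2 / y) *
      (((Uni.WW y : ℝ) / Nat.totient (Uni.WW y)) ^ T.card * (gT (Uni.WW y) T / Uni.WW y)) ≤ CT T := by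
  classical
  rw [← sy_en]
  have hprod := CT_hasProd T
  rw [HasProd] at hprod
  set F0 : Finset Nat.Primes := ((y + 1).primesBelow).attach.image (mkP y) with hF0
  have hmem : ∀ p : Nat.Primes, p ∈ F0 ↔ (p : ℕ) ∈ (y + 1).primesBelow := by
    intro p
    rw [hF0, mem_image]
    constructor
    · rintro ⟨a, _, rfl⟩
      exact a.2
    · intro h
      exact ⟨⟨p, h⟩, mem_attach _ _, rfl⟩
  have hy0 : (0:ℝ) < y := by exact_mod_cast hy
  have hF0' : ∏ p ∈ F0, locT T p = sy (en T) y := by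
    unfold sy
    rw [hF0, prod_image]
    · rw [← prod_attach ((y + 1).primesBelow)]
      apply prod_congr rfl
      intro p _
      rw [loc_en]
      rfl
    · intro a _ b _ hab
      have h9 : (a : ℕ) = b := congrArg (fun p : Nat.Primes => (p : ℕ)) hab
      exact Subtype.ext h9
  refine ge_of_tendsto hprod ?_
  filter_upwards [eventually_ge_atTop F0] with F hF
  have hF' : F0 ⊆ F := hF
  rw [← prod_sdiff hF']
  have h1 : 1 - (T.card : ℝ) ^ 2 / y ≤ ∏ p ∈ F \ F0, locT T p := by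
    have hbig : ∀ p ∈ F \ F0, y < (p : ℕ) := by
      intro p hp
      rw [Finset.mem_sdiff, hmem, Nat.mem_primesBelow] at hp
      by_contra h
      exact hp.2 ⟨by omega, p.2⟩
    have hr : ∀ p ∈ F \ F0, T.card ≤ (p : ℕ) := by
      intro p hp
      have := hbig p hp
      have : T.card ≤ T.card ^ 2 := Nat.le_self_pow (by norm_num) _
      omega
    have hsum : ∑ p ∈ F \ F0, (T.card : ℝ) ^ 2 * (((p : ℕ) : ℝ) ^ 2)⁻¹ ≤ (T.card : ℝ) ^ 2 / y := by
      rw [← mul_sum]
      have h2 : ∑ p ∈ F \ F0, (((p : ℕ) : ℝ) ^ 2)⁻¹ ≤ 1 / y := by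
        have h3 := sum_inv_sq_gt hy ((F \ F0).image toN) (by
          intro p hp
          rw [mem_image] at hp
          obtain ⟨p', hp', rfl⟩ := hp
          exact hbig p' hp')
        rw [sum_image (fun a _ b _ hab => toN_inj hab)] at h3
        exact h3
      calc (T.card : ℝ) ^ 2 * ∑ p ∈ F \ F0, (((p : ℕ) : ℝ) ^ 2)⁻¹ ≤ (T.card : ℝ) ^ 2 * (1 / y) := by gcongr
        _ = (T.card : ℝ) ^ 2 / y := by rw [mul_one_div]
    have h2 := MB.one_sub_sum_le (F \ F0) (fun p => (T.card : ℝ) ^ 2 * (((p : ℕ) : ℝ) ^ 2)⁻¹)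
      (fun p _ => by positivity) (fun p hp => by
        have h3 : (T.card : ℝ) ≤ ((p : ℕ) : ℝ) := by exact_mod_cast hr p hp
        have h4 : (0:ℝ) < ((p : ℕ) : ℝ) := by exact_mod_cast p.2.pos
        rw [← div_eq_mul_inv, div_le_one (by positivity)]
        exact pow_le_pow_left₀ (Nat.cast_nonneg _) h3 2)
    have h3 : ∏ p ∈ F \ F0, (1 - (T.card : ℝ) ^ 2 * (((p : ℕ) : ℝ) ^ 2)⁻¹) ≤ ∏ p ∈ F \ F0, locT T p := by
      apply Finset.prod_le_prod
      · intro p hp
        have h3 : (T.card : ℝ) ≤ ((p : ℕ) : ℝ) := by exact_mod_cast hr p hp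
        have h4 : (0:ℝ) < ((p : ℕ) : ℝ) := by exact_mod_cast p.2.pos
        rw [sub_nonneg, ← div_eq_mul_inv, div_le_one (by positivity)]
        exact pow_le_pow_left₀ (Nat.cast_nonneg _) h3 2
      · intro p hp
        exact locT_ge T p.2.two_le (hr p hp)
    linarith
  have h2 := sy_nonneg (en T) y
  rw [hF0']
  exact mul_le_mul_of_nonneg_right h1 h2

lemma cts_one_div_rho (y : ℕ) : 1 / rho y = (Uni.WW y : ℝ) / (Uni.WW y).totient := by
  unfold rho
  rw [one_div_div]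

theorem CTS : St_CTS := by
  intro k ε C hε
  have hlog : 0 < Real.log (1 + ε) := Real.log_pos (by linarith)
  set n : ℕ := (k + 1) * (k + 1) with hn
  have hn0 : (0:ℝ) < n := by rw [hn]; positivity
  set δ : ℝ := min (1 / 2) (Real.log (1 + ε) / n) with hδdef
  have hδ : 0 < δ := lt_min (by norm_num) (by positivity)
  have hδ1 : δ ≤ 1 / 2 := min_le_left _ _
  have hδn : (1 + δ) ^ n ≤ 1 + ε := by
    have h1 : 1 + δ ≤ Real.exp δ := by linarith [Real.add_one_le_exp δ]
    have h2 : δ * n ≤ Real.log (1 + ε) := by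
      have := min_le_right (1 / 2) (Real.log (1 + ε) / n)
      rw [← hδdef, le_div_iff₀ hn0] at this
      exact this
    calc (1 + δ) ^ n ≤ (Real.exp δ) ^ n := pow_le_pow_left₀ (by linarith) h1 n
      _ = Real.exp (n * δ) := by rw [Real.exp_nat_mul]
      _ ≤ Real.exp (Real.log (1 + ε)) := Real.exp_le_exp.2 (by linarith)
      _ = 1 + ε := Real.exp_log (by linarith)
  have tN : Tendsto (fun N : ℕ => (N : ℝ)) atTop atTop := tendsto_natCast_atTop_atTop
  have ty : Tendsto (fun N : ℕ => ⌊Real.log (Real.log (N : ℝ))⌋₊) atTop atTop :=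
    tendsto_nat_floor_atTop.comp (Real.tendsto_log_atTop.comp (Real.tendsto_log_atTop.comp tN))
  filter_upwards [Uni.par_eventually k C hδ hδ1 0,
    ty.eventually (eventually_ge_atTop (max (max 1 ((k + 1) ^ 2)) ⌈((k : ℝ) + 1) ^ 2 / ε⌉₊))] with N hN hy
  intro T hT hTM
  set y := ⌊Real.log (Real.log (N : ℝ))⌋₊ with hydef
  have hy1 : 1 ≤ y := ((le_max_left _ _).trans (le_max_left _ _)).trans hy
  have hy2 : (k + 1) ^ 2 ≤ y := ((le_max_right _ _).trans (le_max_left _ _)).trans hy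
  have hy3 : ((k : ℝ) + 1) ^ 2 / ε ≤ y := by
    have h1 : ⌈((k : ℝ) + 1) ^ 2 / ε⌉₊ ≤ y := (le_max_right _ _).trans hy
    exact (Nat.le_ceil _).trans (by exact_mod_cast h1)
  have hy0 : (0:ℝ) < y := by exact_mod_cast hy1
  rw [cts_one_div_rho]
  have hnn : 0 ≤ (((Uni.WW y : ℝ) / Nat.totient (Uni.WW y)) ^ (k + 1) *
      ((gT (Uni.WW y) T : ℝ) / Uni.WW y)) := by positivity
  constructor
  · have h1 := cts_ge T y hy1 (by rw [hT]; exact hy2)
    rw [hT] at h1
    refine le_trans (mul_le_mul_of_nonneg_right ?_ hnn) h1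
    have : (((k + 1 : ℕ) : ℝ)) ^ 2 / y ≤ ε := by
      rw [div_le_iff₀ hy0]
      rw [div_le_iff₀ hε] at hy3
      push_cast
      linarith
    linarith
  · have h1 := Uni.CT_le T y (K := 1 + δ) (by linarith) hTM hN.htt
    rw [hT] at h1
    exact h1.trans (mul_le_mul_of_nonneg_right hδn hnn)

end Pool.Agent.H362R2.QT
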