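import Pool.Agent.H362R2.QT.Stubs

/-!
# FAM: the family of test functions, with all constants under control
-/

set_option autoImplicit false

open Finset Filter Topology
open scoped ContDiff

namespace Pool.Agent.H362R2.QT

open Pool.Agent.H378R2 Pool.Agent.H387R2 Pool.Agent.H387R2.MB

/-- combinatorial part, with a parameter -/
theorem fam_comb (K0 B : ℕ) (c rho : Fin B → ℝ) (g s η r : ℝ)
    (hg : 0 < g) (hc : ∀ l, 0 < c l) (hcr : ∀ l, c l * rho l = g)
    (hs : s = ∑ l, rho l) (hs1 : 0 < s) (hr : 0 < r) (hη : 0 < η) (hη1 : η < 1)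
    (hbig : K0 * B * g ≤ η * r * s) :
    (1 - η) * s ^ K0 ≤ ∑ a ∈ (univ : Finset (Fin K0 → Fin B)).filter (fun a => ∑ j, c (a j) ≤ r),
      ∏ j, rho (a j) := by
  classical
  have hrho : ∀ l, 0 < rho l := fun l => by
    have := hcr l
    by_contra h
    push Not at h
    have : c l * rho l ≤ 0 := mul_nonpos_of_nonneg_of_nonpos (hc l).le h
    linarith
  have htot : ∑ a : Fin K0 → Fin B, ∏ j, rho (a j) = s ^ K0 := by
    rw [sum_prod_fun (fun _ l => rho l), Finset.prod_const, Finset.card_univ, Fintype.card_fin, hs]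
  have hsplit := Finset.sum_filter_add_sum_filter_not (univ : Finset (Fin K0 → Fin B))
    (fun a => ∑ j, c (a j) ≤ r) (fun a => ∏ j, rho (a j))
  rw [htot] at hsplit
  have hbad : (∑ a ∈ (univ : Finset (Fin K0 → Fin B)).filter (fun a => ¬ ∑ j, c (a j) ≤ r),
      ∏ j, rho (a j)) * r ≤ ∑ a : Fin K0 → Fin B, (∑ j, c (a j)) * ∏ j, rho (a j) := by
    rw [Finset.sum_mul]
    calc _ ≤ ∑ a ∈ (univ : Finset (Fin K0 → Fin B)).filter (fun a => ¬ ∑ j, c (a j) ≤ r),
          ((∑ j, c (a j)) * ∏ j, rho (a j)) := by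
            refine Finset.sum_le_sum fun a ha => ?_
            rw [Finset.mem_filter, not_le] at ha
            have hp : 0 ≤ ∏ j, rho (a j) := Finset.prod_nonneg fun j _ => (hrho _).le
            nlinarith [ha.2]
      _ ≤ _ := by
            apply Finset.sum_le_sum_of_subset_of_nonneg (Finset.filter_subset _ _)
            intro a _ _
            have hp : 0 ≤ ∏ j, rho (a j) := Finset.prod_nonneg fun j _ => (hrho _).le
            have hq : 0 ≤ ∑ j, c (a j) := Finset.sum_nonneg fun j _ => (hc _).le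
            positivity
  have hone : ∀ j : Fin K0, (∑ a : Fin K0 → Fin B, c (a j) * ∏ k, rho (a k)) * s =
      (B * g) * s ^ K0 := by
    intro j
    have hK : 0 < K0 := lt_of_le_of_lt (Nat.zero_le _) j.2
    have h1 : ∀ a : Fin K0 → Fin B, c (a j) * ∏ k, rho (a k) =
        ∏ k, (fun (k : Fin K0) (l : Fin B) => if k = j then g else rho l) k (a k) := by
      intro a
      rw [← Finset.mul_prod_erase univ _ (Finset.mem_univ j), ← mul_assoc, hcr,
        ← Finset.mul_prod_erase univ (fun k => (fun (k : Fin K0) (l : Fin B) => if k = j then g else rho l) k (a k))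
          (Finset.mem_univ j)]
      simp only [if_true]
      congr 1
      refine Finset.prod_congr rfl fun k hk => ?_
      rw [if_neg (Finset.ne_of_mem_erase hk)]
    rw [Finset.sum_congr rfl (fun a _ => h1 a),
      sum_prod_fun (fun (k : Fin K0) (l : Fin B) => if k = j then g else rho l),
      ← Finset.mul_prod_erase univ _ (Finset.mem_univ j)]
    simp only [if_true]
    rw [Finset.sum_const, Finset.card_univ, Fintype.card_fin, nsmul_eq_mul]
    have h2 : ∏ k ∈ univ.erase j, (∑ l : Fin B, if k = j then g else rho l) = s ^ (K0 - 1) := by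
      rw [Finset.prod_congr rfl (g := fun _ => s)]
      · rw [Finset.prod_const, Finset.card_erase_of_mem (Finset.mem_univ j), Finset.card_univ, Fintype.card_fin]
      · intro k hk
        simp only [if_neg (Finset.ne_of_mem_erase hk)]
        exact hs.symm
    rw [h2, mul_assoc, ← pow_succ, Nat.sub_add_cancel hK]
  have hexch : (∑ a : Fin K0 → Fin B, (∑ j, c (a j)) * ∏ j, rho (a j)) * s =
      K0 * ((B * g) * s ^ K0) := by
    have : (∑ a : Fin K0 → Fin B, (∑ j, c (a j)) * ∏ j, rho (a j)) * s =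
        ∑ j : Fin K0, (∑ a : Fin K0 → Fin B, c (a j) * ∏ k, rho (a k)) * s := by
      rw [← Finset.sum_mul, Finset.sum_comm]
      congr 1
      refine Finset.sum_congr rfl fun a _ => ?_
      rw [Finset.sum_mul]
    rw [this, Finset.sum_congr rfl (fun j _ => hone j), Finset.sum_const, Finset.card_univ,
      Fintype.card_fin, nsmul_eq_mul]
  set U := ∑ a : Fin K0 → Fin B, (∑ j, c (a j)) * ∏ j, rho (a j) with hU
  set bad := ∑ a ∈ (univ : Finset (Fin K0 → Fin B)).filter (fun a => ¬ ∑ j, c (a j) ≤ r),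
      ∏ j, rho (a j) with hbaddef
  set good := ∑ a ∈ (univ : Finset (Fin K0 → Fin B)).filter (fun a => ∑ j, c (a j) ≤ r),
      ∏ j, rho (a j) with hgood
  have hbad2 : bad ≤ η * s ^ K0 := by
    have hsK : 0 < s ^ K0 := pow_pos hs1 _
    have h1 : bad * (r * s) ≤ (η * s ^ K0) * (r * s) := by
      calc bad * (r * s) = (bad * r) * s := by ring
        _ ≤ U * s := mul_le_mul_of_nonneg_right hbad hs1.le
        _ = (K0 * B * g) * s ^ K0 := by rw [hexch]; ring
        _ ≤ (η * r * s) * s ^ K0 := mul_le_mul_of_nonneg_right hbig hsK.le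
        _ = _ := by ring
    exact le_of_mul_le_mul_right h1 (mul_pos hr hs1)
  linarith

/-- FAM -/
theorem FAM : St_FAM := by
  intro T η M0 ρ hT hη hη1 hρ hρ1
  classical
  have hTr : (1 : ℝ) ≤ T := by exact_mod_cast hT
  have hT0 : (0 : ℝ) < T := by linarith
  set B : ℕ := max 1 ⌈4 * gam * T * M0 / (η * ρ)⌉₊ with hBdef
  have hB1 : 1 ≤ B := le_max_left _ _
  have hBM : 4 * gam * T * M0 / (η * ρ) ≤ B :=
    (Nat.le_ceil _).trans (by exact_mod_cast le_max_right _ _)
  have hBr : (1 : ℝ) ≤ B := by exact_mod_cast hB1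
  have hB0 : (0 : ℝ) < B := by linarith
  set K' : ℕ := 2 * 2 ^ B with hK'
  have hK'r : (K' : ℝ) = 2 * 2 ^ B := by rw [hK']; push_cast; ring
  have hK'2 : 2 ≤ K' := by
    have := Nat.one_le_two_pow (n := B)
    omega
  have hK'0 : (0 : ℝ) < K' := by exact_mod_cast (by omega : 0 < K')
  have hTK : 2 ≤ T * K' := le_trans hK'2 (Nat.le_mul_of_pos_left _ hT)
  obtain ⟨K0, hK0⟩ : ∃ K0, T * K' = K0 + 1 := ⟨T * K' - 1, by omega⟩
  have hK01 : 1 ≤ K0 := by omega
  have hK0r : (K0 : ℝ) + 1 = T * K' := by exact_mod_cast hK0.symm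
  have hK0n : (0 : ℝ) ≤ K0 := Nat.cast_nonneg _
  have hηρ : 0 < η * ρ := mul_pos hη hρ
  have hηρ1 : η * ρ ≤ ρ := by nlinarith
  set u : ℝ := η * ρ / (4 * B * T * K') with hu
  have hupos : 0 < u := by rw [hu]; positivity
  have hu1 : u * (4 * B * T * K') = η * ρ := by rw [hu]; field_simp
  set c : Fin B → ℝ := fun l => 2 ^ ((l : ℕ) + 1) * u with hc
  have hcpos : ∀ l, 0 < c l := fun l => by simp only [hc]; positivity
  have hcle : ∀ l, c l ≤ ρ / 8 := by
    intro l
    have h1 : (2 : ℝ) ^ ((l : ℕ) + 1) ≤ 2 ^ B := pow_le_pow_right₀ (by norm_num) (by have := l.2; omega)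
    have h2 : 2 ^ B * u * (8 * (B * T)) = η * ρ := by
      rw [← hu1, hK'r]; ring
    have h3 : (1 : ℝ) ≤ B * T := by nlinarith
    have h4 : 0 < 2 ^ B * u := by positivity
    have h5 : 2 ^ B * u * 8 ≤ 2 ^ B * u * (8 * (B * T)) := by
      apply mul_le_mul_of_nonneg_left _ h4.le
      linarith
    calc c l ≤ 2 ^ B * u := mul_le_mul_of_nonneg_right h1 hupos.le
      _ ≤ ρ / 8 := by linarith
  set rho : Fin B → ℝ := fun l => gam / c l with hrho
  have hrhopos : ∀ l, 0 < rho l := fun l => div_pos gam_pos (hcpos l)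
  have hcr : ∀ l, c l * rho l = gam := by
    intro l
    simp only [hrho]
    have := (hcpos l).ne'
    field_simp
  set s : ℝ := ∑ l, rho l with hsdef
  set f : Fin B → ℝ → ℝ := fun l => hs (c l) with hf
  have hDD : ∀ l l', DD (f l) (f l') = if l = l' then rho l else 0 := by
    intro l l'
    have key : ∀ l l' : Fin B, l < l' → DD (f l) (f l') = 0 := by
      intro l l' h
      apply DD_hs_ne (hcpos l)
      simp only [hc]
      have h1 : (2 : ℝ) ^ ((l : ℕ) + 1) ≤ 2 ^ (l' : ℕ) := pow_le_pow_right₀ (by norm_num) h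
      have h2 : (2 : ℝ) ^ ((l' : ℕ) + 1) = 2 ^ (l' : ℕ) * 2 := pow_succ _ _
      rw [h2]
      nlinarith
    split_ifs with h
    · subst h
      exact DD_hs_self (hcpos l)
    · rcases lt_or_gt_of_ne h with h1 | h1
      · exact key _ _ h1
      · rw [DD_comm]; exact key _ _ h1
  have hprodDD : ∀ {n : ℕ} (a b : Fin n → Fin B), ∏ j, DD (f (a j)) (f (b j)) =
      if a = b then ∏ j, rho (a j) else 0 := by
    intro n a b
    split_ifs with h
    · subst h
      refine Finset.prod_congr rfl fun j _ => ?_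
      rw [hDD, if_pos rfl]
    · obtain ⟨j, hj⟩ := Function.ne_iff.1 h
      apply Finset.prod_eq_zero (Finset.mem_univ j)
      rw [hDD, if_neg hj]
  have hDDnn : ∀ l l', 0 ≤ DD (f l) (f l') := by
    intro l l'
    rw [hDD]
    split_ifs
    · exact (hrhopos _).le
    · exact le_rfl
  set A : Finset (Fin (K0 + 1) → Fin B) := univ.filter (fun a => ∑ j, c (a j) ≤ ρ) with hA
  have hprodnn : ∀ {n : ℕ} (a : Fin n → Fin B), 0 ≤ ∏ j, rho (a j) := fun a =>
    Finset.prod_nonneg fun j _ => (hrhopos _).le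
  have hII : II f A = ∑ a ∈ A, ∏ j, rho (a j) := by
    unfold II
    refine Finset.sum_congr rfl fun a ha => ?_
    simp_rw [hprodDD]
    rw [Finset.sum_ite_eq A a, if_pos ha]
  have hIIle : II f A ≤ s ^ (K0 + 1) := by
    rw [hII]
    calc _ ≤ ∑ a : Fin (K0 + 1) → Fin B, ∏ j, rho (a j) :=
          Finset.sum_le_sum_of_subset_of_nonneg (Finset.filter_subset _ _) (fun a _ _ => hprodnn a)
      _ = s ^ (K0 + 1) := by
          rw [sum_prod_fun (fun _ l => rho l), Finset.prod_const, Finset.card_univ, Fintype.card_fin]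
  have hc0 : c ⟨0, hB1⟩ = 2 * u := by simp only [hc]; norm_num
  have hIIpos : 0 < II f A := by
    rw [hII]
    apply Finset.sum_pos (fun a _ => Finset.prod_pos fun j _ => hrhopos _)
    refine ⟨fun _ => ⟨0, hB1⟩, ?_⟩
    rw [hA, Finset.mem_filter]
    refine ⟨Finset.mem_univ _, ?_⟩
    rw [Finset.sum_const, Finset.card_univ, Fintype.card_fin, nsmul_eq_mul, hc0]
    push_cast
    rw [hK0r]
    have h1 : (T * K' : ℝ) * (2 * u) * (2 * B) = η * ρ := by rw [← hu1]; ring
    have h2 : 0 < (T * K' : ℝ) * (2 * u) := by positivity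
    nlinarith
  have hs0 : gam / (2 * u) ≤ s := by
    have h1 : rho ⟨0, hB1⟩ ≤ s := Finset.single_le_sum (f := rho) (fun l _ => (hrhopos l).le) (Finset.mem_univ _)
    simp only [hrho] at h1
    rwa [hc0] at h1
  have hspos : 0 < s := lt_of_lt_of_le (div_pos gam_pos (by positivity)) hs0
  have hsge : K0 * B * gam ≤ η * (ρ / 2) * s := by
    have h1 : η * (ρ / 2) * (gam / (2 * u)) ≤ η * (ρ / 2) * s :=
      mul_le_mul_of_nonneg_left hs0 (by positivity)
    have h2 : η * (ρ / 2) * (gam / (2 * u)) = (T * K') * B * gam := by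
      have h3 : η * ρ = u * (4 * B * T * K') := hu1.symm
      calc η * (ρ / 2) * (gam / (2 * u)) = (η * ρ) * (gam / (4 * u)) := by
            field_simp; ring
        _ = (T * K') * B * gam := by
            rw [h3]; field_simp
    have hg := gam_pos
    have h3 : (K0 : ℝ) * B * gam ≤ (T * K') * B * gam := by
      rw [← hK0r]
      have : 0 < B * gam := by positivity
      nlinarith
    linarith
  have hsle : s ≤ gam / u := by
    have h1 : s = (gam / u) * ∑ l : Fin B, (1 / 2 : ℝ) ^ ((l : ℕ) + 1) := by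
      rw [hsdef, Finset.mul_sum]
      refine Finset.sum_congr rfl fun l _ => ?_
      simp only [hrho, hc]
      rw [one_div, inv_pow]
      field_simp
    have h2 : ∑ l : Fin B, (1 / 2 : ℝ) ^ ((l : ℕ) + 1) ≤ 1 := by
      rw [Fin.sum_univ_eq_sum_range (fun l => (1 / 2 : ℝ) ^ (l + 1)) B]
      have : ∀ n : ℕ, ∑ l ∈ range n, (1 / 2 : ℝ) ^ (l + 1) = 1 - (1 / 2) ^ n := by
        intro n
        induction n with
        | zero => simp
        | succ n ih => rw [Finset.sum_range_succ, ih]; ring
      rw [this]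
      have : (0 : ℝ) ≤ (1 / 2) ^ B := by positivity
      linarith
    rw [h1]
    have hg := gam_pos
    calc (gam / u) * ∑ l : Fin B, (1 / 2 : ℝ) ^ ((l : ℕ) + 1) ≤ (gam / u) * 1 := by
          apply mul_le_mul_of_nonneg_left h2 (by positivity)
      _ = gam / u := mul_one _
  have hcomb := fam_comb K0 B c rho gam s η (ρ / 2) gam_pos hcpos hcr hsdef hspos
    (by positivity) hη hη1 hsge
  have hf0 : ∀ l, f l 0 = 1 := fun l => hs_at_zero _
  have hJJ : ∀ i, (1 - η) * (B : ℝ) ^ 2 * s ^ K0 ≤ JJ f A i := by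
    intro i
    unfold JJ
    set good := (univ : Finset (Fin K0 → Fin B)).filter (fun a => ∑ j, c (a j) ≤ ρ / 2) with hgood
    simp_rw [hf0, one_mul]
    rw [← Finset.sum_product']
    -- the injection
    set φ : (Fin B × Fin B) × (Fin K0 → Fin B) → (Fin (K0 + 1) → Fin B) × (Fin (K0 + 1) → Fin B) :=
      fun x => (i.insertNth (α := fun _ => Fin B) x.1.1 x.2, i.insertNth (α := fun _ => Fin B) x.1.2 x.2) with hφ
    have hmem : ∀ a' ∈ good, ∀ l : Fin B, (i.insertNth (α := fun _ => Fin B) l a') ∈ A := by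
      intro a' ha' l
      rw [hA, Finset.mem_filter]
      refine ⟨Finset.mem_univ _, ?_⟩
      rw [Fin.sum_univ_succAbove _ i]
      simp only [Fin.insertNth_apply_same, Fin.insertNth_apply_succAbove]
      have := (Finset.mem_filter.1 ha').2
      have := hcle l
      linarith
    have himg : ((univ : Finset (Fin B × Fin B)) ×ˢ good).image φ ⊆ A ×ˢ A := by
      intro x hx
      rw [Finset.mem_image] at hx
      obtain ⟨y, hy, rfl⟩ := hx
      rw [Finset.mem_product] at hy
      rw [Finset.mem_product]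
      exact ⟨hmem _ hy.2 _, hmem _ hy.2 _⟩
    have hnn : ∀ x ∈ A ×ˢ A, x ∉ ((univ : Finset (Fin B × Fin B)) ×ˢ good).image φ →
        0 ≤ ∏ j : Fin K0, DD (f (x.1 (i.succAbove j))) (f (x.2 (i.succAbove j))) := by
      intro x _ _
      exact Finset.prod_nonneg fun j _ => hDDnn _ _
    refine le_trans ?_ (Finset.sum_le_sum_of_subset_of_nonneg himg hnn)
    rw [Finset.sum_image]
    · rw [Finset.sum_product]
      have h1 : ∀ x : Fin B × Fin B, ∑ y ∈ good, ∏ j : Fin K0, DD (f ((φ (x, y)).1 (i.succAbove j)))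
          (f ((φ (x, y)).2 (i.succAbove j))) = ∑ y ∈ good, ∏ j, rho (y j) := by
        intro x
        refine Finset.sum_congr rfl fun y _ => ?_
        simp only [hφ, Fin.insertNth_apply_succAbove]
        rw [hprodDD y y, if_pos rfl]
      simp_rw [h1]
      rw [Finset.sum_const, Finset.card_univ, Fintype.card_prod, Fintype.card_fin, nsmul_eq_mul]
      push_cast
      have hBB : (0 : ℝ) ≤ (B : ℝ) * B := by positivity
      calc (1 - η) * (B : ℝ) ^ 2 * s ^ K0 = (B : ℝ) * B * ((1 - η) * s ^ K0) := by ring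
        _ ≤ _ := mul_le_mul_of_nonneg_left hcomb hBB
    · intro x _ y _ hxy
      simp only [hφ, Prod.mk.injEq] at hxy
      have h1 := congrFun hxy.1 i
      have h2 := congrFun hxy.2 i
      simp only [Fin.insertNth_apply_same] at h1 h2
      have h3 : x.2 = y.2 := by
        funext j
        have := congrFun hxy.1 (i.succAbove j)
        simpa only [Fin.insertNth_apply_succAbove] using this
      exact Prod.ext (Prod.ext h1 h2) h3
  have hJJ2 : ∀ i j0, JJ2 f A i j0 * s ≤ (B : ℝ) ^ 4 * s ^ K0 := by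
    intro i j0
    unfold JJ2
    simp_rw [hf0, one_mul]
    have h1 : ∑ a ∈ A, ∑ b ∈ A, ∏ j ∈ (univ : Finset (Fin K0)).erase j0,
        DD (f (a (i.succAbove j))) (f (b (i.succAbove j))) ≤
        ∑ a : Fin (K0 + 1) → Fin B, ∑ b : Fin (K0 + 1) → Fin B,
          ∏ j ∈ (univ : Finset (Fin K0)).erase j0,
            DD (f (a (i.succAbove j))) (f (b (i.succAbove j))) := by
      have hnn : ∀ a b : Fin (K0 + 1) → Fin B, 0 ≤ ∏ j ∈ (univ : Finset (Fin K0)).erase j0,
            DD (f (a (i.succAbove j))) (f (b (i.succAbove j))) := fun a b =>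
        Finset.prod_nonneg fun j _ => hDDnn _ _
      calc _ ≤ ∑ a ∈ A, ∑ b : Fin (K0 + 1) → Fin B, ∏ j ∈ (univ : Finset (Fin K0)).erase j0,
            DD (f (a (i.succAbove j))) (f (b (i.succAbove j))) :=
            Finset.sum_le_sum fun a _ =>
              Finset.sum_le_sum_of_subset_of_nonneg (Finset.filter_subset _ _) fun b _ _ => hnn a b
        _ ≤ _ := Finset.sum_le_sum_of_subset_of_nonneg (Finset.filter_subset _ _)
              fun a _ _ => Finset.sum_nonneg fun b _ => hnn a b
    have h2 : ∀ a b : Fin (K0 + 1) → Fin B, ∏ j ∈ (univ : Finset (Fin K0)).erase j0,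
            DD (f (a (i.succAbove j))) (f (b (i.succAbove j))) =
        ∏ j : Fin (K0 + 1), (fun (j : Fin (K0 + 1)) (l l' : Fin B) =>
          if j = i then 1 else if j = i.succAbove j0 then 1 else DD (f l) (f l')) j (a j) (b j) := by
      intro a b
      rw [Fin.prod_univ_succAbove _ i]
      simp only [if_true, one_mul]
      rw [← Finset.mul_prod_erase univ _ (Finset.mem_univ j0)]
      simp only [if_true, Fin.succAbove_ne, if_false, one_mul]
      refine Finset.prod_congr rfl fun j hj => ?_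
      rw [if_neg]
      intro h
      exact (Finset.ne_of_mem_erase hj) (Fin.succAbove_right_injective h)
    have h3 : ∑ a : Fin (K0 + 1) → Fin B, ∑ b : Fin (K0 + 1) → Fin B,
          ∏ j ∈ (univ : Finset (Fin K0)).erase j0,
            DD (f (a (i.succAbove j))) (f (b (i.succAbove j))) =
        ∏ j : Fin (K0 + 1), ∑ l : Fin B, ∑ l' : Fin B,
          (if j = i then 1 else if j = i.succAbove j0 then 1 else DD (f l) (f l')) := by
      rw [← sum_prod_fun (fun (j : Fin (K0 + 1)) (l : Fin B) => ∑ l' : Fin B,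
          (if j = i then (1 : ℝ) else if j = i.succAbove j0 then 1 else DD (f l) (f l')))]
      refine Finset.sum_congr rfl fun a _ => ?_
      rw [← sum_prod_fun (fun (j : Fin (K0 + 1)) (l' : Fin B) =>
          (if j = i then (1 : ℝ) else if j = i.succAbove j0 then 1 else DD (f (a j)) (f l')))]
      refine Finset.sum_congr rfl fun b _ => ?_
      rw [h2]
    have h4 : ∏ j : Fin (K0 + 1), ∑ l : Fin B, ∑ l' : Fin B,
          (if j = i then 1 else if j = i.succAbove j0 then 1 else DD (f l) (f l')) =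
        ((B : ℝ) * B) * (((B : ℝ) * B) * s ^ (K0 - 1)) := by
      rw [Fin.prod_univ_succAbove _ i]
      simp only [if_true, Fin.succAbove_ne, if_false]
      rw [← Finset.mul_prod_erase univ _ (Finset.mem_univ j0)]
      simp only [if_true]
      have h5 : ∑ l : Fin B, ∑ l' : Fin B, (1 : ℝ) = (B : ℝ) * B := by
        simp
      have h6 : ∏ x ∈ (univ : Finset (Fin K0)).erase j0, ∑ l : Fin B, ∑ l' : Fin B,
          (if i.succAbove x = i.succAbove j0 then (1 : ℝ) else DD (f l) (f l')) = s ^ (K0 - 1) := by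
        rw [Finset.prod_congr rfl (g := fun _ => s)]
        · rw [Finset.prod_const, Finset.card_erase_of_mem (Finset.mem_univ j0), Finset.card_univ,
            Fintype.card_fin]
        · intro x hx
          have hne : ¬ i.succAbove x = i.succAbove j0 := fun h =>
            (Finset.ne_of_mem_erase hx) (Fin.succAbove_right_injective h)
          simp only [if_neg hne]
          rw [hsdef]
          refine Finset.sum_congr rfl fun l _ => ?_
          simp_rw [hDD]
          rw [Finset.sum_ite_eq, if_pos (Finset.mem_univ _)]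
      rw [h5, h6]
    have h5 : s ^ (K0 - 1) * s = s ^ K0 := by
      rw [← pow_succ, Nat.sub_add_cancel hK01]
    calc _ ≤ (((B : ℝ) * B) * (((B : ℝ) * B) * s ^ (K0 - 1))) * s := by
          apply mul_le_mul_of_nonneg_right _ hspos.le
          rw [← h4, ← h3]
          exact h1
      _ = (B : ℝ) ^ 4 * (s ^ (K0 - 1) * s) := by ring
      _ = _ := by rw [h5]
  refine ⟨K', K0, B, f, c, A, s, B, hK0, hK01, hspos, hB0, fun l => hs_smooth _,
    fun l => hs_compact (hcpos l), ?_, ?_, ?_, ?_, hIIpos, hIIle, hJJ, hJJ2, ?_⟩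
  · intro l x hx
    apply hs_zero (hcpos l)
    exact hx.le.trans (le_abs_self x)
  · intro l
    exact ⟨(hcpos l).le, by have := hcle l; linarith⟩
  · intro a ha
    exact (Finset.mem_filter.1 ha).2
  · intro l x
    exact hs_abs_le _ _
  · rcases le_total M0 0 with hM | hM
    · have h1 : M0 * s ≤ 0 := mul_nonpos_of_nonpos_of_nonneg hM hspos.le
      have h2 : 0 ≤ (K' : ℝ) * (B : ℝ) ^ 2 := by positivity
      linarith
    · have hg := gam_pos
      have h1 : 4 * gam * T * M0 ≤ B * (η * ρ) := by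
        rwa [div_le_iff₀ hηρ] at hBM
      calc M0 * s ≤ M0 * (gam / u) := mul_le_mul_of_nonneg_left hsle hM
        _ = (4 * gam * T * M0) * (B * K') / (η * ρ) := by
            rw [hu]; field_simp
        _ ≤ (B * (η * ρ)) * (B * K') / (η * ρ) := by
            apply div_le_div_of_nonneg_right _ hηρ.le
            exact mul_le_mul_of_nonneg_right h1 (by positivity)
        _ = K' * (B : ℝ) ^ 2 := by field_simp

end Pool.Agent.H362R2.QT
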