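import Mathlib
import Pool.Agent.H387R2.MB15

/-!
Project QT (helper362): a quarter of the tuples at every scale.
Statements of the modules, as propositions.  Each task: prove `theorem X : St_X`.
-/

set_option autoImplicit false

open Finset Filter Topology
open scoped ContDiff

namespace Pool.Agent.H362R2.QT

open Pool.Agent.H378R2 Pool.Agent.H387R2 Pool.Agent.H387R2.MB

/-- the pair functional: the coordinates `i` and `i.succAbove j0` are evaluated at `0` -/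
noncomputable def JJ2 {K0 B : ℕ} (f : Fin B → ℝ → ℝ) (A : Finset (Fin (K0 + 1) → Fin B))
    (i : Fin (K0 + 1)) (j0 : Fin K0) : ℝ :=
  ∑ a ∈ A, ∑ b ∈ A, (f (a i) 0 * f (b i) 0) * (f (a (i.succAbove j0)) 0 * f (b (i.succAbove j0)) 0) *
    ∏ j ∈ (univ : Finset (Fin K0)).erase j0, DD (f (a (i.succAbove j))) (f (b (i.succAbove j)))

/-- FAM: the family of test functions, with all constants under control.  Take over `family` of M7g (and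
`family_comb` of M7f) with functions `hs (c l)`, `c l = 2 ^ (l + 1) * u`, `u` small. -/
def St_FAM : Prop := ∀ (T : ℕ) (η M0 ρ : ℝ), 1 ≤ T → 0 < η → η < 1 → 0 < ρ → ρ ≤ 1 →
  ∃ (K' K0 B : ℕ) (f : Fin B → ℝ → ℝ) (c : Fin B → ℝ) (A : Finset (Fin (K0 + 1) → Fin B)) (s b : ℝ),
    T * K' = K0 + 1 ∧ 1 ≤ K0 ∧ 0 < s ∧ 0 < b ∧
    (∀ l, ContDiff ℝ ∞ (f l)) ∧ (∀ l, HasCompactSupport (f l)) ∧ (∀ l x, c l < x → f l x = 0) ∧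
    (∀ l, 0 ≤ c l ∧ c l ≤ 1 / 2) ∧ (∀ a ∈ A, ∑ j, c (a j) ≤ ρ) ∧ (∀ l x, |f l x| ≤ 1) ∧
    0 < II f A ∧ II f A ≤ s ^ (K0 + 1) ∧ (∀ i, (1 - η) * b ^ 2 * s ^ K0 ≤ JJ f A i) ∧
    (∀ i j0, JJ2 f A i j0 * s ≤ b ^ 4 * s ^ K0) ∧ M0 * s ≤ K' * b ^ 2

/-- RAMP: smooth approximations of the linear ramp on `[0, V]` -/
def St_RAMP : Prop := ∀ V ε : ℝ, 0 < V → 0 < ε → ∃ G : ℝ → ℝ, ContDiff ℝ ∞ G ∧ HasCompactSupport G ∧ G 0 = 1 ∧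
  (∀ x, |G x| ≤ 1) ∧ (∀ x, V < x → G x = 0) ∧ DD G G ≤ 1 / V + ε

/-- the error term of Bombieri-Vinogradov up to `X ^ θ` -/
noncomputable def BVt (θ : ℝ) (K0 : ℕ) (X : ℝ) (W : ℕ) (Bc : ℕ → ℕ) : ℝ :=
  ∑ q ∈ (Icc 1 ⌊X ^ θ⌋₊).filter (fun q => Squarefree q ∧ q.Coprime W),
    (q.divisors.card : ℝ) ^ (2 * K0) * |EPhi X (W * q) (Bc q)|

/-- BV: as `BVe_le` of MB7, up to `X ^ θ`, `θ < 1 / 2` -/
def St_BV : Prop := ∀ θ : ℝ, 0 < θ → θ < 1 / 2 → ∀ (K0 A : ℕ), ∀ᶠ X : ℝ in atTop, ∀ W : ℕ, Squarefree W →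
    (W : ℝ) ≤ (Real.log X) ^ 3 → ∀ Bc : ℕ → ℕ, (∀ q, 1 ≤ q → (Bc q).Coprime (W * q)) →
    BVt θ K0 X W Bc ≤ X / (Real.log X) ^ A

/-- sieve limit for long test functions -/
noncomputable def RG (X : ℝ) : ℕ := ⌊Real.exp (50 * LL X)⌋₊

/-- product of the weights away from `i`, with the function `G` at the coordinate `j0` -/
noncomputable def PRG {K0 B : ℕ} (E : Finset ℕ) (X : ℝ) (f : Fin B → ℝ → ℝ) (G : ℝ → ℝ)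
    (a b : Fin (K0 + 1) → Fin B) (i : Fin (K0 + 1)) (j0 : Fin K0) (t : Fin (K0 + 1) → ℕ) (n : ℕ) : ℝ :=
  ∏ j : Fin K0, (VVm E (RG X) (LL X) (if j = j0 then G else f (a (i.succAbove j)))
      ((n : ℤ) + ((t (i.succAbove j) : ℤ) - t i)) *
    VVm E (RG X) (LL X) (if j = j0 then G else f (b (i.succAbove j))) ((n : ℤ) + ((t (i.succAbove j) : ℤ) - t i)))

/-- PRG: as `S2pair'` of MB6 for `PRG` (sieve_asymp of M5 allows any support; `sum2` of M7e) -/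
def St_PRG : Prop := ∀ {K0 B : ℕ} (f : Fin B → ℝ → ℝ) (c : Fin B → ℝ) (G : ℝ → ℝ) (V ρ : ℝ),
    (∀ l, ContDiff ℝ ∞ (f l)) → (∀ l, HasCompactSupport (f l)) → (∀ l x, c l < x → f l x = 0) →
    (∀ l, 0 ≤ c l ∧ c l ≤ 1 / 2) → (∀ l x, |f l x| ≤ 1) →
    ContDiff ℝ ∞ G → HasCompactSupport G → (∀ x, |G x| ≤ 1) → (∀ x, V < x → G x = 0) →
    0 < V → 0 ≤ ρ → V + ρ < 50 → ∀ ε1 : ℝ, 0 < ε1 → ∀ (a b : Fin (K0 + 1) → Fin B) (i : Fin (K0 + 1)) (j0 : Fin K0),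
    ∑ j, c (a j) ≤ ρ → ∑ j, c (b j) ≤ ρ →
    ∃ z : ℕ, ∀ᶠ X : ℝ in atTop, ∀ (W : ℕ) (E : Finset ℕ) (a0 : ℕ) (t : Fin (K0 + 1) → ℕ) (T0 : ℝ),
      CW X z W E → DT E t →
      (∀ j, (t j : ℝ) ≤ T0) → T0 ≤ X / 2 → ((a0 + t i).Coprime W) →
      ∀ Bc : ℕ → ℕ, (∀ q, 1 ≤ q → ∀ b' : ℕ, b'.Coprime (W * q) →
        |EPhi X (W * q) b'| ≤ |EPhi X (W * q) (Bc q)|) →
      |∑ n ∈ Icc 1 ⌊3 * X⌋₊, nu X W a0 n * th (n + t i) * PRG E X f G a b i j0 t (n + t i) -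
        (LPhi X * (1 / (W.totient : ℝ))) * (1 / (LL X * BE E) ^ K0) *
          (DD G G * ∏ j ∈ (univ : Finset (Fin K0)).erase j0, DD (f (a (i.succAbove j))) (f (b (i.succAbove j))))| ≤
      (LPhi X * (1 / (W.totient : ℝ))) * (1 / (LL X * BE E) ^ K0) * ε1 +
        (BVt ((V + ρ) / 100) K0 X W Bc + Real.exp (2 * (V + ρ) * LL X) *
          ((4 * T0) * Real.log (4 * X) + 4 * Real.sqrt X * Real.log (4 * X)))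

/-- standing conditions -/
structure Cnd (θ X : ℝ) (z W : ℕ) (E : Finset ℕ) (a0 : ℕ) {K : ℕ} (t : Fin K → ℕ) : Prop where
  cs : CS X z W E
  sq : Squarefree W
  dt : DT E t
  cp : ∀ j, (a0 + t j).Coprime W
  tl : ∀ j, (t j : ℝ) ≤ Real.sqrt X
  sm : ∑ p ∈ E.filter (fun p => ¬ p ∣ W), (1 : ℝ) / p ≤ θ
  b1 : (W : ℝ) * BE E ≤ W.totient
  b2 : (1 - θ) * (W.totient : ℝ) ≤ W * BE E

/-- TOT: the total mass (from `S1up` of MB2 and `exp_err` of MB5) -/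
def St_TOT : Prop := ∀ {K B : ℕ} (f : Fin B → ℝ → ℝ) (c : Fin B → ℝ) (A : Finset (Fin K → Fin B)),
    (∀ l, ContDiff ℝ ∞ (f l)) → (∀ l, HasCompactSupport (f l)) → (∀ l x, c l < x → f l x = 0) →
    (∀ l, 0 ≤ c l ∧ c l ≤ 1 / 2) → (∀ a ∈ A, ∑ j, c (a j) ≤ 1) → (∀ l x, |f l x| ≤ 1) →
    ∀ ε : ℝ, 0 < ε → ∃ z : ℕ, ∀ᶠ X : ℝ in atTop, ∀ (θ : ℝ) (W : ℕ) (E : Finset ℕ) (a0 : ℕ) (t : Fin K → ℕ),
      Cnd θ X z W E a0 t →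
      ∑ n ∈ Icc 1 ⌊3 * X⌋₊, nu X W a0 n * sqw E X f A (fun j => (n : ℤ) + t j) ^ 2 ≤ (II f A + ε) * QQ K X W E

open Classical in
/-- ONE: first moment with the sharp constant (from `S2low` of MB6, `BVe_le` of MB7, the prime number theorem
`Pool.Agent.H510R2.Maier...lphi_mphi` (`|LPhi X - MPhi X| ≤ ε X`), see also `positivity` of MB8) -/
def St_ONE : Prop := ∀ {K0 B : ℕ} (f : Fin B → ℝ → ℝ) (c : Fin B → ℝ) (A : Finset (Fin (K0 + 1) → Fin B)),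
    (∀ l, ContDiff ℝ ∞ (f l)) → (∀ l, HasCompactSupport (f l)) → (∀ l x, c l < x → f l x = 0) →
    (∀ l, 0 ≤ c l ∧ c l ≤ 1 / 2) → (∀ a ∈ A, ∑ j, c (a j) ≤ 1) → (∀ l x, |f l x| ≤ 1) →
    ∀ ε : ℝ, 0 < ε → ∃ θ : ℝ, 0 < θ ∧ ∃ z : ℕ, ∀ᶠ X : ℝ in atTop,
    ∀ (W : ℕ) (E : Finset ℕ) (a0 : ℕ) (t : Fin (K0 + 1) → ℕ), Cnd θ X z W E a0 t → ∀ i,
      (JJ f A i - ε) / 200 * QQ (K0 + 1) X W E ≤ ∑ n ∈ Icc 1 ⌊3 * X⌋₊, nu X W a0 n *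
        (if (n + t i).Prime then sqw E X f A (fun j => (n : ℤ) + t j) ^ 2 else 0)

open Classical in
/-- PAIR: pairs of primes with the sharp constant (from `St_PRG`, `St_RAMP`, `St_BV`) -/
def St_PAIR : Prop := ∀ {K0 B : ℕ} (f : Fin B → ℝ → ℝ) (c : Fin B → ℝ) (A : Finset (Fin (K0 + 1) → Fin B)) (V ρ : ℝ),
    (∀ l, ContDiff ℝ ∞ (f l)) → (∀ l, HasCompactSupport (f l)) → (∀ l x, c l < x → f l x = 0) →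
    (∀ l, 0 ≤ c l ∧ c l ≤ 1 / 2) → (∀ a ∈ A, ∑ j, c (a j) ≤ ρ) → (∀ l x, |f l x| ≤ 1) →
    0 < V → 0 ≤ ρ → ρ ≤ 1 → V + ρ < 50 →
    ∀ ε : ℝ, 0 < ε → ∃ θ : ℝ, 0 < θ ∧ ∃ z : ℕ, ∀ᶠ X : ℝ in atTop,
    ∀ (W : ℕ) (E : Finset ℕ) (a0 : ℕ) (t : Fin (K0 + 1) → ℕ), Cnd θ X z W E a0 t → ∀ (i : Fin (K0 + 1)) (j0 : Fin K0),
      ∑ n ∈ Icc 1 ⌊3 * X⌋₊, nu X W a0 n *
        (if (n + t i).Prime ∧ (n + t (i.succAbove j0)).Prime then sqw E X f A (fun j => (n : ℤ) + t j) ^ 2 else 0) ≤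
      (JJ2 f A i j0 / V + ε) / 200 * QQ (K0 + 1) X W E

open Classical in
/-- COL: the coloured lower bound (from `St_FAM`, `St_TOT`, `St_ONE`, `St_PAIR`, `nonrough` of MB5, and as `pos1` of MB9) -/
def St_COL : Prop := ∀ m : ℕ, 1 ≤ m → ∃ (K' K0 : ℕ) (e : Fin (4 * m) × Fin K' ≃ Fin (K0 + 1)) (δ : ℝ),
    1 ≤ K' ∧ 0 < δ ∧ δ ≤ 1 / 10 ∧ ∃ θ : ℝ, 0 < θ ∧ ∃ c0 : ℝ, 0 < c0 ∧ ∃ z : ℕ, ∀ᶠ X : ℝ in atTop,
    ∀ (W : ℕ) (E : Finset ℕ) (a0 : ℕ) (t : Fin (K0 + 1) → ℕ), Cnd θ X z W E a0 t →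
      c0 * QQ (K0 + 1) X W E ≤ ∑ n ∈ Icc 1 ⌊3 * X⌋₊, nu X W a0 n *
        (if (m ≤ ((univ : Finset (Fin (4 * m))).filter (fun g => ∃ j, (n + t (e (g, j))).Prime)).card) ∧
          (∀ j, Rg δ X (n + t j)) then 1 else 0)

open Classical in
/-- the coloured lower bound for sets of shifts -/
def LowC (m K' : ℕ) (δ c0 : ℝ) (N M y : ℕ) : Prop :=
  ∀ (b : ℕ) (R : Fin (4 * m) × Fin K' → ℕ), Function.Injective R → (∀ x, R x ≤ M) →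
    (∀ x, Nat.Coprime (Uni.WW y) (b + R x)) →
    c0 * UU (4 * m * K') ((N : ℝ) / 4) y ≤ ∑ n ∈ Icc 1 ⌊3 * ((N : ℝ) / 4)⌋₊, nu ((N : ℝ) / 4) (Uni.WW y) b n *
      (if (m ≤ ((univ : Finset (Fin (4 * m))).filter (fun g => ∃ j, (n + R (g, j)).Prime)).card) ∧
        (∀ x, Rg δ ((N : ℝ) / 4) (n + R x)) then 1 else 0)

/-- LOW: as `low_eventually` of MB11, from `St_COL` -/
def St_LOW : Prop := ∀ m : ℕ, 1 ≤ m → ∃ K' : ℕ, 1 ≤ K' ∧ ∃ δ : ℝ, 0 < δ ∧ δ ≤ 1 / 10 ∧ ∃ c0 : ℝ, 0 < c0 ∧ ∀ C : ℝ,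
    ∀ᶠ N : ℕ in atTop, LowC m K' δ c0 N ⌊Real.log N ^ C⌋₊ ⌊Real.log (Real.log N)⌋₊

open Classical in
/-- the shift sets with many prime translates in the class `b` -/
def GoodT (κ : ℝ) (k N y b : ℕ) (T : Finset ℕ) : Prop :=
  κ * UU (k + 1) ((N : ℝ) / 4) y ≤ ∑ n ∈ Icc 1 ⌊3 * ((N : ℝ) / 4)⌋₊, nu ((N : ℝ) / 4) (Uni.WW y) b n *
    (if ∀ t ∈ T, (n + t).Prime then 1 else 0)

open Classical in
/-- SM: second moment and combinatorics in one class (helper362) -/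
def St_SM : Prop := ∀ (k : ℕ) (ε lam : ℝ), 1 ≤ k → 0 < ε → 0 < lam → ∃ κ : ℝ, 0 < κ ∧ ∀ C : ℝ,
    ∀ᶠ N : ℕ in atTop, ∀ (b : ℕ) (S : Finset ℕ), (∀ a ∈ S, a ≤ ⌊Real.log N ^ C⌋₊) →
      (∀ a ∈ S, Nat.Coprime (Uni.WW ⌊Real.log (Real.log N)⌋₊) (b + a)) →
      lam * rho ⌊Real.log (Real.log N)⌋₊ * Real.log N ≤ S.card →
      ((1 / 4 : ℝ) ^ k - ε) * (S.card.choose (k + 1)) ≤
        ((S.powersetCard (k + 1)).filter (fun T => GoodT κ k N ⌊Real.log (Real.log N)⌋₊ b T)).card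

/-- CTS: the singular series is asymptotic to its truncation, uniformly (sharp forms of `CT_ge` of MB14 and
`CT_le` of U2) -/
def St_CTS : Prop := ∀ (k : ℕ) (ε C : ℝ), 0 < ε → ∀ᶠ N : ℕ in atTop, ∀ T : Finset ℕ, T.card = k + 1 →
    (∀ t ∈ T, t ≤ ⌊Real.log N ^ C⌋₊) →
    (1 - ε) * ((1 / rho ⌊Real.log (Real.log N)⌋₊) ^ (k + 1) *
      (Uni.gT (Uni.WW ⌊Real.log (Real.log N)⌋₊) T / Uni.WW ⌊Real.log (Real.log N)⌋₊)) ≤ Uni.CT T ∧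
    Uni.CT T ≤ (1 + ε) * ((1 / rho ⌊Real.log (Real.log N)⌋₊) ^ (k + 1) *
      (Uni.gT (Uni.WW ⌊Real.log (Real.log N)⌋₊) T / Uni.WW ⌊Real.log (Real.log N)⌋₊))

open Classical in
/-- FIN: the final theorem (from `St_SM` and `St_CTS`; see MB12, MB13, MB15, U6) -/
def St_FIN : Prop := ∀ (k : ℕ) (ε lam : ℝ), 1 ≤ k → 0 < ε → 0 < lam → ∃ κ : ℝ, 0 < κ ∧ ∀ (q : ℕ) (_ : 1 ≤ q) (C : ℝ),
    ∃ N₀ : ℕ, ∀ N : ℕ, N₀ ≤ N → ∀ (c : ℕ) (A : Finset ℕ), (∀ a ∈ A, a ≡ c [MOD q]) →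
      (∀ a ∈ A, (a : ℝ) ≤ Real.log N ^ C) → lam * ((Nat.totient q : ℝ) / q) * Real.log N ≤ A.card →
      ((1 / 4 : ℝ) ^ k - ε) * ∑ T ∈ A.powersetCard (k + 1), Uni.CT T ≤
        ∑ T ∈ (A.powersetCard (k + 1)).filter
          (fun T => κ * Uni.CT T * (N / Real.log N ^ (k + 1)) ≤ piN N T), Uni.CT T

end Pool.Agent.H362R2.QT
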