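import Mathlib
import Pool.Agent.H362R2.QT.Stubs

/-! St_FIN -/

set_option autoImplicit false

namespace Pool.Agent.H362R2.QT

open Finset Filter Topology
open Pool.Agent.H378R2 Pool.Agent.H387R2 Pool.Agent.H387R2.MB

/-- the small members contribute little -/
lemma smallpart {I : Finset ℕ} (x : ℕ → ℕ) (k : ℕ) {μ η : ℝ} (hμ : 2 * (k:ℝ) ≤ μ) (hμ0 : 0 ≤ μ)
    (hsum : μ * I.card ≤ ∑ b ∈ I, (x b : ℝ)) (hη : 0 < η) (hη1 : 2 * η ≤ 1)
    [DecidablePred fun b => η * μ ≤ (x b : ℝ)] :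
    (1 - 2 * η) * ∑ b ∈ I, (((x b).choose (k + 1) : ℕ) : ℝ) ≤
      ∑ b ∈ I.filter (fun b => η * μ ≤ (x b : ℝ)), (((x b).choose (k + 1) : ℕ) : ℝ) := by
  have hf : (0 : ℝ) < ((k + 1).factorial : ℝ) := by exact_mod_cast Nat.factorial_pos _
  have h1 : ∑ b ∈ I.filter (fun b => ¬ η * μ ≤ (x b : ℝ)), (((x b).choose (k + 1) : ℕ) : ℝ) ≤
      I.card * ((η * μ) ^ (k + 1) / (k + 1).factorial) := by
    calc _ ≤ ∑ b ∈ I.filter (fun b => ¬ η * μ ≤ (x b : ℝ)), (η * μ) ^ (k + 1) / (k + 1).factorial := by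
          apply sum_le_sum
          intro b hb
          rw [mem_filter, not_le] at hb
          refine (Nat.choose_le_pow_div (α := ℝ) (k + 1) (x b)).trans ?_
          apply div_le_div_of_nonneg_right _ hf.le
          exact pow_le_pow_left₀ (Nat.cast_nonneg _) hb.2.le _
      _ = (I.filter (fun b => ¬ η * μ ≤ (x b : ℝ))).card * ((η * μ) ^ (k + 1) / (k + 1).factorial) := by
          rw [sum_const, nsmul_eq_mul]
      _ ≤ _ := by
          apply mul_le_mul_of_nonneg_right _ (by positivity)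
          exact_mod_cast card_filter_le _ _
  have h2 : (I.card : ℝ) * ((μ - k) ^ (k + 1) / (k + 1).factorial) ≤ ∑ b ∈ I, (((x b).choose (k + 1) : ℕ) : ℝ) := by
    have hk0 : (0:ℝ) ≤ k := Nat.cast_nonneg k
    have h3 : ∀ b ∈ I, (max ((x b : ℝ) - k) 0) ^ (k + 1) / (k + 1).factorial ≤ (((x b).choose (k + 1) : ℕ) : ℝ) := by
      intro b _
      have h4 := Nat.pow_le_choose (α := ℝ) (k + 1) (x b)
      have h5 : ((x b + 1 - (k + 1) : ℕ) : ℝ) = max ((x b : ℝ) - k) 0 := by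
        rcases le_or_gt k (x b) with h | h
        · rw [show x b + 1 - (k + 1) = x b - k by omega, Nat.cast_sub h, max_eq_left]
          have : (k:ℝ) ≤ x b := by exact_mod_cast h
          linarith
        · rw [show x b + 1 - (k + 1) = 0 by omega, Nat.cast_zero, max_eq_right]
          have : (x b:ℝ) ≤ k := by exact_mod_cast h.le
          linarith
      rw [h5] at h4
      exact h4
    refine le_trans ?_ (sum_le_sum h3)
    rw [← sum_div, mul_div_assoc']
    apply div_le_div_of_nonneg_right _ hf.le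
    rcases Nat.eq_zero_or_pos I.card with h0 | h0
    · rw [h0, Nat.cast_zero, zero_mul]
      exact sum_nonneg fun b _ => by positivity
    · have hI : (0:ℝ) < I.card := by exact_mod_cast h0
      have h4 := pow_sum_div_card_le_sum_pow (s := I) (f := fun b => max ((x b : ℝ) - k) 0)
        (fun b _ => le_max_right _ _) k
      refine le_trans ?_ h4
      have h5 : (μ - k) * I.card ≤ ∑ b ∈ I, max ((x b : ℝ) - k) 0 := by
        calc (μ - k) * I.card = μ * I.card - ∑ _b ∈ I, (k:ℝ) := by rw [sum_const, nsmul_eq_mul]; ring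
          _ ≤ ∑ b ∈ I, (x b : ℝ) - ∑ _b ∈ I, (k:ℝ) := by linarith
          _ = ∑ b ∈ I, ((x b : ℝ) - k) := by rw [sum_sub_distrib]
          _ ≤ _ := sum_le_sum fun b _ => le_max_left _ _
      rw [le_div_iff₀ (by positivity)]
      calc (I.card : ℝ) * (μ - k) ^ (k + 1) * (I.card : ℝ) ^ k = ((μ - k) * I.card) ^ (k + 1) := by
            rw [mul_pow, pow_succ (I.card : ℝ)]; ring
        _ ≤ _ := pow_le_pow_left₀ (mul_nonneg (by linarith) hI.le) h5 _
  have h3 : (η * μ) ^ (k + 1) ≤ 2 * η * (μ - k) ^ (k + 1) := by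
    calc (η * μ) ^ (k + 1) = (2 * η) ^ (k + 1) * (μ / 2) ^ (k + 1) := by rw [← mul_pow]; congr 1; ring
      _ ≤ (2 * η) ^ 1 * (μ - k) ^ (k + 1) := by
        apply mul_le_mul
        · exact pow_le_pow_of_le_one (by positivity) hη1 (by omega)
        · exact pow_le_pow_left₀ (by positivity) (by linarith) _
        · positivity
        · positivity
      _ = _ := by rw [pow_one]
  have h4 := sum_filter_add_sum_filter_not I (fun b => η * μ ≤ (x b : ℝ)) (fun b => (((x b).choose (k + 1) : ℕ) : ℝ))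
  have h5 : (I.card : ℝ) * ((η * μ) ^ (k + 1) / (k + 1).factorial) ≤
      2 * η * ((I.card : ℝ) * ((μ - k) ^ (k + 1) / (k + 1).factorial)) := by
    calc (I.card : ℝ) * ((η * μ) ^ (k + 1) / (k + 1).factorial) ≤
        I.card * ((2 * η * (μ - k) ^ (k + 1)) / (k + 1).factorial) := by gcongr
      _ = _ := by ring
  have h6 := mul_le_mul_of_nonneg_left h2 (by positivity : 0 ≤ 2 * η)
  linarith

lemma conv2 {ι : Type*} (P : Finset ι) (g h c : ι → ℝ) (z a e : ℝ) (hz : 0 ≤ z) (he : 0 < e) (he1 : e ≤ 1)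
    (hae : e ≤ a) (ha1 : a ≤ 1) (hg : ∀ T ∈ P, 0 ≤ g T) (hhg : ∀ T ∈ P, h T ≤ g T)
    (hc1 : ∀ T ∈ P, (1 - e) * (z * g T) ≤ c T) (hc2 : ∀ T ∈ P, c T ≤ (1 + e) * (z * g T))
    (hs : a * ∑ T ∈ P, g T ≤ ∑ T ∈ P, h T) [DecidablePred fun T => e * g T ≤ h T] :
    (a - 3 * e) * ∑ T ∈ P, c T ≤ ∑ T ∈ P.filter (fun T => e * g T ≤ h T), c T := by
  have h1 := sum_filter_add_sum_filter_not P (fun T => e * g T ≤ h T) h
  have h2 : ∑ T ∈ P.filter (fun T => e * g T ≤ h T), h T ≤ ∑ T ∈ P.filter (fun T => e * g T ≤ h T), g T :=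
    sum_le_sum fun T hT => hhg T (mem_filter.1 hT).1
  have h3 : ∑ T ∈ P.filter (fun T => ¬ e * g T ≤ h T), h T ≤ e * ∑ T ∈ P, g T := by
    calc _ ≤ ∑ T ∈ P.filter (fun T => ¬ e * g T ≤ h T), e * g T :=
          sum_le_sum fun T hT => (not_le.1 (mem_filter.1 hT).2).le
      _ ≤ ∑ T ∈ P, e * g T :=
          sum_le_sum_of_subset_of_nonneg (filter_subset _ _) fun T hT _ => mul_nonneg he.le (hg T hT)
      _ = _ := by rw [mul_sum]
  have h4 : (a - e) * ∑ T ∈ P, g T ≤ ∑ T ∈ P.filter (fun T => e * g T ≤ h T), g T := by linarith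
  have h5 : (1 - e) * (z * ∑ T ∈ P.filter (fun T => e * g T ≤ h T), g T) ≤ ∑ T ∈ P.filter (fun T => e * g T ≤ h T), c T := by
    rw [mul_sum, mul_sum]
    exact sum_le_sum fun T hT => hc1 T (mem_filter.1 hT).1
  have h6 : ∑ T ∈ P, c T ≤ (1 + e) * (z * ∑ T ∈ P, g T) := by
    rw [mul_sum, mul_sum]
    exact sum_le_sum fun T hT => hc2 T hT
  have hG : 0 ≤ ∑ T ∈ P, g T := sum_nonneg hg
  have h7 : (1 - e) * (z * ((a - e) * ∑ T ∈ P, g T)) ≤ ∑ T ∈ P.filter (fun T => e * g T ≤ h T), c T :=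
    le_trans (mul_le_mul_of_nonneg_left (mul_le_mul_of_nonneg_left h4 hz) (by linarith)) h5
  refine le_trans ?_ h7
  rcases le_or_gt (a - 3 * e) 0 with hn | hp
  · have hC : 0 ≤ ∑ T ∈ P, c T := sum_nonneg fun T hT =>
      le_trans (mul_nonneg (by linarith) (mul_nonneg hz (hg T hT))) (hc1 T hT)
    have : (a - 3 * e) * ∑ T ∈ P, c T ≤ 0 := mul_nonpos_of_nonpos_of_nonneg hn hC
    refine this.trans ?_
    have : 0 ≤ a - e := by linarith
    have : 0 ≤ 1 - e := by linarith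
    positivity
  · refine (mul_le_mul_of_nonneg_left h6 hp.le).trans ?_
    have hzG : 0 ≤ z * ∑ T ∈ P, g T := mul_nonneg hz hG
    have : (a - 3 * e) * (1 + e) ≤ (1 - e) * (a - e) := by nlinarith
    calc (a - 3 * e) * ((1 + e) * (z * ∑ T ∈ P, g T)) = ((a - 3 * e) * (1 + e)) * (z * ∑ T ∈ P, g T) := by ring
      _ ≤ ((1 - e) * (a - e)) * (z * ∑ T ∈ P, g T) := mul_le_mul_of_nonneg_right this hzG
      _ = _ := by ring

open Classical in
/-- the classes in which the tuple `T` is good -/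
noncomputable def nG (κ : ℝ) (k N y : ℕ) (T : Finset ℕ) : ℕ :=
  ((range (Uni.WW y)).filter (fun b => (∀ t ∈ T, Nat.Coprime (Uni.WW y) (b + t)) ∧ GoodT κ k N y b T)).card

lemma nG_le (κ : ℝ) (k N y : ℕ) (T : Finset ℕ) : nG κ k N y T ≤ Uni.gT (Uni.WW y) T := by
  classical
  unfold nG Uni.gT
  apply card_le_card
  intro b hb
  rw [mem_filter] at hb ⊢
  exact ⟨hb.1, hb.2.1⟩

open Classical in
lemma sum_nG (κ : ℝ) (k N y : ℕ) (A : Finset ℕ) :
    ∑ b ∈ range (Uni.WW y), (((Uni.Ab (Uni.WW y) A b).powersetCard (k + 1)).filter (fun T => GoodT κ k N y b T)).card =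
      ∑ T ∈ A.powersetCard (k + 1), nG κ k N y T := by
  have h1 : ∀ b ∈ range (Uni.WW y), (((Uni.Ab (Uni.WW y) A b).powersetCard (k + 1)).filter (fun T => GoodT κ k N y b T)).card =
      ∑ T ∈ A.powersetCard (k + 1), if (∀ t ∈ T, Nat.Coprime (Uni.WW y) (b + t)) ∧ GoodT κ k N y b T then 1 else 0 := by
    intro b _
    rw [← card_filter]
    congr 1
    ext T
    unfold Uni.Ab
    simp only [mem_filter, mem_powersetCard, subset_iff]
    constructor
    · rintro ⟨⟨h1, h2⟩, h3⟩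
      exact ⟨⟨fun a ha => (h1 ha).1, h2⟩, fun a ha => (h1 ha).2, h3⟩
    · rintro ⟨⟨h1, h2⟩, h3, h4⟩
      exact ⟨⟨fun a ha => ⟨h1 ha, h3 a ha⟩, h2⟩, h4⟩
  rw [sum_congr rfl h1, sum_comm]
  apply sum_congr rfl
  intro T _
  unfold nG
  rw [card_filter]

lemma ST_ge (κ : ℝ) (k N y : ℕ) (T : Finset ℕ) :
    (nG κ k N y T : ℝ) * (κ * UU (k + 1) ((N : ℝ) / 4) y) ≤ ST N T := by
  classical
  have h1 : ∑ b ∈ range (Uni.WW y), ∑ n ∈ Icc 1 ⌊3 * ((N : ℝ) / 4)⌋₊, nu ((N : ℝ) / 4) (Uni.WW y) b n *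
    (if ∀ t ∈ T, (n + t).Prime then 1 else 0) = ST N T := by
    unfold MB.ST
    rw [sum_comm]
    apply sum_congr rfl
    intro n _
    rw [← sum_mul]
    congr 1
    have h2 : ∑ b ∈ range (Uni.WW y), nu ((N:ℝ) / 4) (Uni.WW y) b n =
      nu ((N:ℝ) / 4) (Uni.WW y) (n % Uni.WW y) n := by
      apply sum_eq_single
      · intro b hb hne
        unfold nu
        rw [if_neg]
        intro h
        apply hne
        rw [Nat.ModEq, Nat.mod_eq_of_lt (mem_range.1 hb)] at h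
        exact h.symm
      · intro h
        exact absurd (mem_range.2 (Nat.mod_lt _ (Uni.WW_pos y))) h
    rw [h2]
    unfold nu
    rw [if_pos (Nat.mod_modEq n _).symm]
  rw [← h1]
  unfold nG
  rw [← nsmul_eq_mul]
  refine le_trans ?_ (sum_le_sum_of_subset_of_nonneg (filter_subset (fun b => (∀ t ∈ T, Nat.Coprime (Uni.WW y) (b + t)) ∧ GoodT κ k N y b T) _)
    (fun b _ _ => sum_nonneg fun n _ => mul_nonneg (nu_nonneg _ _ _ _) (by split_ifs <;> norm_num)))
  apply card_nsmul_le_sum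
  intro b hb
  rw [mem_filter] at hb
  have := hb.2.2
  unfold GoodT at this
  refine this.trans (le_of_eq (sum_congr rfl fun n _ => ?_))
  congr

lemma r0_ev (c D : ℝ) (hc : 0 < c) : ∀ᶠ N : ℕ in atTop, D ≤ c * rho ⌊Real.log (Real.log N)⌋₊ * Real.log N := by
  have tN : Tendsto (fun N : ℕ => (N : ℝ)) atTop atTop := tendsto_natCast_atTop_atTop
  have tL : Tendsto (fun N : ℕ => Real.log (N : ℝ)) atTop atTop := Real.tendsto_log_atTop.comp tN
  have tu : Tendsto (fun N : ℕ => Real.log (Real.log (N : ℝ))) atTop atTop := Real.tendsto_log_atTop.comp tL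
  have ty : Tendsto (fun N : ℕ => ⌊Real.log (Real.log (N : ℝ))⌋₊) atTop atTop :=
    tendsto_nat_floor_atTop.comp tu
  have e1 := tu.eventually (ev_pow_exp 1 1 (D / c) (by norm_num))
  filter_upwards [ty.eventually_ge_atTop 1, e1, tu.eventually_ge_atTop 1, tL.eventually_gt_atTop 0] with N h6 h7 h8 hlogN
  set y := ⌊Real.log (Real.log (N:ℝ))⌋₊ with hy
  set u := Real.log (Real.log (N:ℝ)) with hu
  have hu0 : 0 < u := by linarith
  have hyu : (y:ℝ) ≤ u := Nat.floor_le hu0.le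
  have hy0 : (0:ℝ) < y := by exact_mod_cast h6
  have k1 : 1 / u ≤ rho y := le_trans (one_div_le_one_div_of_le hy0 hyu) (rho_ge h6)
  have k2 : Real.log N = Real.exp u := by rw [hu, Real.exp_log hlogN]
  rw [pow_one, one_mul] at h7
  have k3 : D ≤ c * (1 / u) * Real.exp u := by
    have : D / c * u * (c / u) ≤ Real.exp u * (c / u) :=
      mul_le_mul_of_nonneg_right h7 (by positivity)
    have e : D / c * u * (c / u) = D := by field_simp
    rw [e] at this
    calc _ ≤ _ := this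
      _ = _ := by ring
  rw [k2]
  refine k3.trans ?_
  gcongr

theorem FIN (hSM : St_SM) (hCTS : St_CTS) : St_FIN := by
  classical
  intro k ε lam hk hε hlam
  set e1 : ℝ := min ε ((1 / 4 : ℝ) ^ k) with he1
  have he10 : 0 < e1 := lt_min hε (by positivity)
  have he1ε : e1 ≤ ε := min_le_left _ _
  have he14 : e1 ≤ (1 / 4 : ℝ) ^ k := min_le_right _ _
  have h41 : (1 / 4 : ℝ) ^ k ≤ 1 := pow_le_one₀ (by norm_num) (by norm_num)
  set η : ℝ := e1 / 16 with hη
  have hη0 : 0 < η := by positivity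
  set lam2 : ℝ := η * (2 / 3 * lam) with hlam2
  have hlam20 : 0 < lam2 := by positivity
  obtain ⟨κ1, hκ1, hsm⟩ := hSM k (e1 / 4) lam2 hk (by positivity) hlam20
  refine ⟨e1 / 8 * κ1 / 2, by positivity, fun q hq C => ?_⟩
  have tN : Tendsto (fun N : ℕ => (N : ℝ)) atTop atTop := tendsto_natCast_atTop_atTop
  have tL : Tendsto (fun N : ℕ => Real.log (N : ℝ)) atTop atTop := Real.tendsto_log_atTop.comp tN
  have tX : Tendsto (fun N : ℕ => (N : ℝ) / 4) atTop atTop := tN.atTop_div_const (by norm_num)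
  rw [← eventually_atTop]
  filter_upwards [hsm C, hCTS k (e1 / 8) C (by positivity), Uni.par_eventually k C (by norm_num : (0:ℝ) < 1 / 2) (by norm_num) q,
    M_le_sqrt C, (LL_tendsto.comp tX).eventually_ge_atTop 1,
    tX.eventually_ge_atTop (40 + (k + 1)), r0_ev (2 / 3 * lam) (2 * k) (by positivity)]
    with N h1 h2 hP h5 h6 h7 h8
  intro r A hAr hAM' hcard
  have hAM : ∀ a ∈ A, a ≤ ⌊Real.log N ^ C⌋₊ := fun a ha => Nat.le_floor (hAM' a ha)
  set M := ⌊Real.log N ^ C⌋₊ with hM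
  set X := (N:ℝ) / 4 with hX
  set y := ⌊Real.log (Real.log (N:ℝ))⌋₊ with hy
  set W := Uni.WW y with hW
  set L := Real.log (N:ℝ) with hL
  have hL1 : 1 ≤ L := hP.hL
  have hL0 : 0 < L := by linarith
  have hLL1 : 1 ≤ LL X := h6
  have hLL0 : 0 < LL X := by linarith
  have hρ := rho_pos y
  have hρ1 := rho_le_one y
  have hWpos : 0 < W := Uni.WW_pos y
  have hW0 : (0:ℝ) < W := by exact_mod_cast hWpos
  have hk0 : (0:ℝ) ≤ k := Nat.cast_nonneg k
  have hX40 : 40 ≤ X := by linarith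
  have hX0 : 0 < X := by linarith
  have hNX : (N:ℝ) = 4 * X := by rw [hX]; ring
  have hLLL2 : 200 * LL X ≤ L := by
    unfold LL
    rw [show 200 * (Real.log X / 200) = Real.log X by ring, hL]
    apply Real.log_le_log hX0
    linarith
  set V : ℝ := N / L ^ (k + 1) with hV
  have hV0 : 0 ≤ V := by positivity
  have hMl : X / 20 ≤ MPhi X := MPhi_ge X hX40
  have hUe : ∀ g : ℝ, g * UU (k + 1) X y = ((1 / rho y) ^ (k + 1) * (g / W)) * (MPhi X / LL X ^ (k + 1)) := by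
    intro g
    unfold UU
    rw [← hW, mul_pow, one_div_pow]
    field_simp
  have hr1 : V ≤ MPhi X / LL X ^ (k + 1) := by
    have h9 : (200:ℝ) ^ (k + 1) / 80 * V ≤ MPhi X / LL X ^ (k + 1) := by
      rw [hV, hNX]
      have : (200:ℝ) ^ (k + 1) / 80 * (4 * X / L ^ (k + 1)) = (X / 20) / (L / 200) ^ (k + 1) := by
        rw [div_pow]; field_simp; ring
      rw [this]
      apply div_le_div₀ (MPhi_nonneg X) hMl (by positivity)
      apply pow_le_pow_left₀ hLL0.le
      linarith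
    refine le_trans ?_ h9
    have h10 : (1:ℝ) ≤ 200 ^ (k + 1) / 80 := by
      rw [le_div_iff₀ (by norm_num)]
      calc (1:ℝ) * 80 ≤ 200 ^ 1 := by norm_num
        _ ≤ 200 ^ (k + 1) := pow_le_pow_right₀ (by norm_num) (by omega)
    exact le_mul_of_one_le_left hV0 h10
  have hMX : (M:ℝ) ≤ X := by
    refine h5.trans ?_
    rw [Real.sqrt_le_left hX0.le, sq]
    calc X = X * 1 := (mul_one X).symm
      _ ≤ X * X := mul_le_mul_of_nonneg_left (by linarith) hX0.le
  have p3 : ∀ T ∈ A.powersetCard (k + 1), ST N T ≤ piN N T := by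
    intro T hT
    refine (ST_le_cnt (k := k) (M := M) T (by linarith) hMX).trans ?_
    exact_mod_cast cnt_le_piN k N M T
  -- the mean over the good classes
  set μ : ℝ := 2 / 3 * lam * rho y * L with hμ
  have hμ0 : 0 ≤ μ := by positivity
  have hz : ∀ b ∈ range W, b ∉ Uni.gd W q r → Uni.Ab W A b = ∅ := by
    intro b hb hb'
    apply Uni.Ab_empty hW hP.hqy hq hAr
    intro h
    exact hb' (mem_filter.2 ⟨hb, h⟩)
  have hgd : Uni.gd W q r ⊆ range W := filter_subset _ _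
  have hq0 : (0:ℝ) < q := by exact_mod_cast hq
  have hφq : (0:ℝ) < Nat.totient q := by exact_mod_cast Nat.totient_pos.2 hq
  have s2 : μ * ((Uni.gd W q r).card : ℝ) ≤ ∑ b ∈ Uni.gd W q r, ((Uni.Ab W A b).card : ℝ) := by
    have g1 : ∑ b ∈ Uni.gd W q r, ((Uni.Ab W A b).card : ℝ) = ∑ b ∈ range W, ((Uni.Ab W A b).card : ℝ) :=
      sum_subset hgd fun b hb hb' => by rw [hz b hb hb']; simp
    have g2 : ∑ b ∈ range W, ((Uni.Ab W A b).card : ℝ) = A.card * Nat.totient W := by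
      exact_mod_cast Uni.sum_card_Ab W A
    have g3 : (Nat.totient W : ℝ) = rho y * W := by
      unfold rho
      rw [← hW]
      field_simp
    have g4 : ((Uni.gd W q r).card : ℝ) ≤ (3 / 2) * (Nat.totient q / q * W) := by
      have h7 : ((Uni.gd W q r).card : ℝ) ≤ Nat.totient q * ((W / q : ℕ) + 1) := by exact_mod_cast Uni.card_gd W q r hq
      have h8 : ((W / q : ℕ) : ℝ) ≤ W / q := Nat.cast_div_le
      have h9 : (1:ℝ) ≤ (1 / 2) * (W / q) := by
        rw [mul_div_assoc', le_div_iff₀ hq0, one_mul]; exact hP.hW4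
      calc ((Uni.gd W q r).card : ℝ) ≤ Nat.totient q * ((W / q : ℕ) + 1) := h7
        _ ≤ Nat.totient q * (W / q + (1 / 2) * (W / q)) := by gcongr
        _ = _ := by field_simp; ring
    rw [g1, g2, g3]
    calc μ * ((Uni.gd W q r).card : ℝ) ≤ μ * ((3 / 2) * (Nat.totient q / q * W)) :=
          mul_le_mul_of_nonneg_left g4 hμ0
      _ = (lam * ((Nat.totient q : ℝ) / q) * L) * (rho y * W) := by rw [hμ]; ring
      _ ≤ A.card * (rho y * W) := mul_le_mul_of_nonneg_right hcard (by positivity)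
  have s3 := smallpart (I := Uni.gd W q r) (fun b => (Uni.Ab W A b).card) k (μ := μ) (η := η) h8 hμ0 s2 hη0 (by linarith)
  have s4 : ∑ T ∈ A.powersetCard (k + 1), (Uni.gT W T : ℝ) = ∑ b ∈ Uni.gd W q r, (((Uni.Ab W A b).card.choose (k + 1) : ℕ) : ℝ) := by
    have g1 : ∑ b ∈ Uni.gd W q r, (((Uni.Ab W A b).card.choose (k + 1) : ℕ) : ℝ) =
        ∑ b ∈ range W, (((Uni.Ab W A b).card.choose (k + 1) : ℕ) : ℝ) :=
      sum_subset hgd fun b hb hb' => by rw [hz b hb hb']; simp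
    rw [g1]
    have g2 := Uni.sum_choose (range W) A (k + 1) (fun b a => Nat.Coprime W (b + a))
    unfold Uni.gT Uni.Ab
    exact_mod_cast g2.symm
  -- sum over classes of the good tuples
  have s5 : ((1 / 4 : ℝ) ^ k - e1 / 4) * ∑ b ∈ (Uni.gd W q r).filter (fun b => η * μ ≤ ((Uni.Ab W A b).card : ℝ)),
      (((Uni.Ab W A b).card.choose (k + 1) : ℕ) : ℝ) ≤ ∑ T ∈ A.powersetCard (k + 1), (nG κ1 k N y T : ℝ) := by
    have g1 : ∑ T ∈ A.powersetCard (k + 1), (nG κ1 k N y T : ℝ) =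
        ∑ b ∈ range W, ((((Uni.Ab W A b).powersetCard (k + 1)).filter (fun T => GoodT κ1 k N y b T)).card : ℝ) := by
      have := sum_nG κ1 k N y A
      rw [← hW] at this
      exact_mod_cast this.symm
    rw [g1, mul_sum]
    calc _ ≤ ∑ b ∈ (Uni.gd W q r).filter (fun b => η * μ ≤ ((Uni.Ab W A b).card : ℝ)),
        ((((Uni.Ab W A b).powersetCard (k + 1)).filter (fun T => GoodT κ1 k N y b T)).card : ℝ) := by
          apply sum_le_sum
          intro b hb
          rw [mem_filter] at hb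
          have hAb : ∀ a ∈ Uni.Ab W A b, a ≤ M ∧ Nat.Coprime W (b + a) := by
            intro a ha
            unfold Uni.Ab at ha
            rw [mem_filter] at ha
            exact ⟨hAM a ha.1, ha.2⟩
          refine h1 b (Uni.Ab W A b) (fun a ha => (hAb a ha).1) (fun a ha => (hAb a ha).2) ?_
          refine le_trans (le_of_eq ?_) hb.2
          rw [hlam2, hμ]; ring
      _ ≤ _ := by
          apply sum_le_sum_of_subset_of_nonneg ((filter_subset _ _).trans hgd)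
          intro b _ _
          exact Nat.cast_nonneg _
  have s6 : ((1 / 4 : ℝ) ^ k - 3 * (e1 / 8)) * ∑ T ∈ A.powersetCard (k + 1), (Uni.gT W T : ℝ) ≤
      ∑ T ∈ A.powersetCard (k + 1), (nG κ1 k N y T : ℝ) := by
    refine le_trans ?_ s5
    have g1 := mul_le_mul_of_nonneg_left s3 (show 0 ≤ (1 / 4 : ℝ) ^ k - e1 / 4 by linarith)
    refine le_trans ?_ g1
    rw [s4, ← mul_assoc]
    apply mul_le_mul_of_nonneg_right _ (sum_nonneg fun b _ => Nat.cast_nonneg _)
    rw [hη]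
    nlinarith
  -- conversion
  have hcts : ∀ T ∈ A.powersetCard (k + 1), (1 - e1 / 8) * (((1 / rho y) ^ (k + 1) / W) * (Uni.gT W T : ℝ)) ≤ Uni.CT T ∧
      Uni.CT T ≤ (1 + e1 / 8) * (((1 / rho y) ^ (k + 1) / W) * (Uni.gT W T : ℝ)) := by
    intro T hT
    rw [mem_powersetCard] at hT
    have g1 := h2 T hT.2 (fun t ht => hAM t (hT.1 ht))
    have g2 : (1 / rho y) ^ (k + 1) * ((Uni.gT W T : ℝ) / W) = ((1 / rho y) ^ (k + 1) / W) * (Uni.gT W T : ℝ) := by ring
    rw [g2] at g1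
    exact g1
  have s7 := conv2 (A.powersetCard (k + 1)) (fun T => (Uni.gT W T : ℝ)) (fun T => (nG κ1 k N y T : ℝ)) (fun T => Uni.CT T)
    ((1 / rho y) ^ (k + 1) / W) ((1 / 4 : ℝ) ^ k - 3 * (e1 / 8)) (e1 / 8) (by positivity) (by positivity) (by linarith)
    (by linarith) (by linarith) (fun T _ => Nat.cast_nonneg _)
    (fun T _ => by exact_mod_cast nG_le κ1 k N y T) (fun T hT => (hcts T hT).1) (fun T hT => (hcts T hT).2) s6
  have hCT : ∀ T ∈ A.powersetCard (k + 1), 0 ≤ Uni.CT T := fun T _ => Uni.CT_nonneg T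
  have s8 : ((1 / 4 : ℝ) ^ k - ε) * ∑ T ∈ A.powersetCard (k + 1), Uni.CT T ≤
      ((1 / 4 : ℝ) ^ k - 3 * (e1 / 8) - 3 * (e1 / 8)) * ∑ T ∈ A.powersetCard (k + 1), Uni.CT T :=
    mul_le_mul_of_nonneg_right (by linarith) (sum_nonneg hCT)
  refine s8.trans (s7.trans ?_)
  apply sum_le_sum_of_subset_of_nonneg
  · intro T hT
    rw [mem_filter] at hT ⊢
    refine ⟨hT.1, ?_⟩
    refine le_trans ?_ (p3 T hT.1)
    refine le_trans ?_ (ST_ge κ1 k N y T)
    have g1 : e1 / 8 * (Uni.gT W T : ℝ) ≤ (nG κ1 k N y T : ℝ) := hT.2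
    have g2 : 0 ≤ κ1 * UU (k + 1) X y := mul_nonneg hκ1.le (UU_nonneg _ hLL0.le y)
    refine le_trans ?_ (mul_le_mul_of_nonneg_right g1 g2)
    have g3 : e1 / 8 * (Uni.gT W T : ℝ) * (κ1 * UU (k + 1) X y) = e1 / 8 * κ1 * ((Uni.gT W T : ℝ) * UU (k + 1) X y) := by ring
    rw [g3, hUe]
    set zz := (1 / rho y) ^ (k + 1) * ((Uni.gT W T : ℝ) / W) with hzz
    have hzz0 : 0 ≤ zz := by positivity
    have g4 : Uni.CT T ≤ 2 * zz := by
      refine (hcts T hT.1).2.trans ?_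
      have : ((1 / rho y) ^ (k + 1) / W) * (Uni.gT W T : ℝ) = zz := by rw [hzz]; ring
      rw [this]
      exact mul_le_mul_of_nonneg_right (by linarith) hzz0
    calc e1 / 8 * κ1 / 2 * Uni.CT T * (N / L ^ (k + 1)) ≤ e1 / 8 * κ1 / 2 * (2 * zz) * V := by
          rw [hV]
          gcongr
      _ = e1 / 8 * κ1 * (zz * V) := by ring
      _ ≤ e1 / 8 * κ1 * (zz * (MPhi X / LL X ^ (k + 1))) := by gcongr
  · intro T hT _
    exact Uni.CT_nonneg T

end Pool.Agent.H362R2.QT
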