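import Pool.Agent.H362R2.QT.Stubs

/-! LOW: the coloured lower bound for sets of shifts (port of `low_eventually` of MB11). -/

set_option autoImplicit false

open Finset Filter Topology
open scoped ContDiff

namespace Pool.Agent.H362R2.QT

open Pool.Agent.H378R2 Pool.Agent.H387R2 Pool.Agent.H387R2.MB

/-- the part of the excluded set not dividing `WW y` consists of the large primes -/
theorem low_filter (y : ℕ) (R : Finset ℕ) :
    (ER y R).filter (fun p => ¬ p ∣ Uni.WW y) = (ER y R).filter (fun p => y < p) := by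
  apply filter_congr
  intro p hp
  rw [dvd_WW (mem_ER_prime hp), not_le]

/-- sharp form of the lower bound in `BE_ER` -/
theorem low_BE {y : ℕ} (R : Finset ℕ) {θ : ℝ}
    (hs : ∑ p ∈ (ER y R).filter (fun p => ¬ p ∣ Uni.WW y), (1 : ℝ) / p ≤ θ) :
    (1 - θ) * rho y ≤ BE (ER y R) := by
  rw [low_filter] at hs
  have e : BE (ER y R) = rho y * BE ((ER y R).filter (fun p => y < p)) := by
    rw [rho_eq]
    unfold BE
    rw [← prod_union (ER_disj y R), ← ER_split]
  have hp : ∀ p ∈ (ER y R).filter (fun p => y < p), p.Prime :=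
    fun p hp => mem_ER_prime (mem_filter.1 hp).1
  have h2 : 1 - θ ≤ BE ((ER y R).filter (fun p => y < p)) := by
    unfold BE
    refine le_trans ?_ (one_sub_sum_le _ (fun p : ℕ => 1 / (p:ℝ)) (fun p _ => by positivity)
      (fun p hp' => by
        have : (1:ℝ) ≤ p := by exact_mod_cast (hp p hp').one_lt.le
        rw [div_le_one (by linarith)]; exact this))
    linarith
  rw [e, mul_comm]
  exact mul_le_mul_of_nonneg_left h2 (rho_pos y).le

theorem LOW (h : St_COL) : St_LOW := by
  classical
  intro m hm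
  obtain ⟨K', K0, e, δ, hK', hδ, hδ', θ, hθ, c0, hc0, z, h⟩ := h m hm
  refine ⟨K', hK', δ, hδ, hδ', c0, hc0, fun C => ?_⟩
  have hcard : 4 * m * K' = K0 + 1 := by
    have := Fintype.card_congr e
    simpa [Fintype.card_prod, Fintype.card_fin] using this
  have tN : Tendsto (fun N : ℕ => (N : ℝ)) atTop atTop := tendsto_natCast_atTop_atTop
  have tX : Tendsto (fun N : ℕ => (N : ℝ) / 4) atTop atTop := tN.atTop_div_const (by norm_num)
  filter_upwards [tX.eventually h, ec_eventually (K0 + 1) z C hθ, M_le_sqrt C,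
    (LL_tendsto.comp tX).eventually_ge_atTop 1] with N h1 h2 h3 h4
  set X := (N:ℝ) / 4 with hX
  set y := ⌊Real.log (Real.log (N:ℝ))⌋₊ with hy
  have hL0 : 0 < LL X := by
    have : 1 ≤ LL X := h4
    linarith
  intro b R hR hRM hRc
  have hSc : (univ.image R).card = K0 + 1 := by
    rw [card_image_of_injective _ hR, card_univ, Fintype.card_congr e, Fintype.card_fin]
  have hSM : ∀ a ∈ univ.image R, a ≤ ⌊Real.log (N:ℝ) ^ C⌋₊ := by
    intro a ha
    obtain ⟨x, -, rfl⟩ := mem_image.1 ha
    exact hRM x
  obtain ⟨hCS, hs, hB1, hB2⟩ := h2 (univ.image R) hSc.le hSM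
  set t : Fin (K0 + 1) → ℕ := fun j => R (e.symm j) with ht
  have htR : ∀ j, t j ∈ univ.image R := fun j => mem_image_of_mem _ (mem_univ _)
  have hBE : 0 < BE (ER y (univ.image R)) := BE_pos hCS.gs.pr
  have eφ : ((Uni.WW y).totient : ℝ) = Uni.WW y * rho y := by
    unfold rho
    have : (Uni.WW y : ℝ) ≠ 0 := by exact_mod_cast (Uni.WW_pos y).ne'
    field_simp
  have hW0 : (0:ℝ) < Uni.WW y := by exact_mod_cast Uni.WW_pos y
  have hcnd : Cnd θ X z (Uni.WW y) (ER y (univ.image R)) b t :=
    { cs := hCS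
      sq := WW_sqf y
      dt := DT_ER t htR (hR.comp e.symm.injective)
      cp := fun j => (hRc _).symm
      tl := fun j => by
        refine le_trans ?_ h3
        exact_mod_cast hRM _
      sm := hs
      b1 := by
        rw [eφ]
        exact mul_le_mul_of_nonneg_left hB1 hW0.le
      b2 := by
        rw [eφ]
        have := mul_le_mul_of_nonneg_left (low_BE (univ.image R) hs) hW0.le
        linarith }
  have k1 := h1 (Uni.WW y) (ER y (univ.image R)) b t hcnd
  have k2 := mul_le_mul_of_nonneg_left (UU_le_QQ (J := K0 + 1) hL0 hBE hB1) hc0.le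
  rw [hcard]
  refine (k2.trans k1).trans (le_of_eq ?_)
  apply sum_congr rfl
  intro n _
  congr 1
  have e3 : (∀ j, Rg δ X (n + t j)) ↔ ∀ x, Rg δ X (n + R x) := by
    constructor
    · intro h x
      have := h (e x)
      simpa [ht] using this
    · intro h j
      exact h _
  simp only [e3]
  simp only [ht, Equiv.symm_apply_apply]
  rfl

end Pool.Agent.H362R2.QT
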