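import Pool.Agent.H362R2.QT.Stubs
import Pool.Agent.H510R2.Maier.MA1

/-!
# Module ONE of project QT: first moment with the sharp constant
-/

set_option autoImplicit false

open Finset Filter Topology
open scoped ContDiff

namespace Pool.Agent.H362R2.QT

open Pool.Agent.H378R2 Pool.Agent.H387R2 Pool.Agent.H387R2.MB

namespace ONEaux

/-- the ratio of the two main terms (lower bound) -/
lemma ratio (K0 : ℕ) (θ : ℝ) (hθ : 0 < θ) (hθ1 : θ ≤ 1) : ∀ᶠ X : ℝ in atTop, ∀ (W : ℕ) (E : Finset ℕ), 0 < W →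
    (∀ p ∈ E, p.Prime) → (W : ℝ) * BE E ≤ W.totient → (1 - θ) * (W.totient : ℝ) ≤ W * BE E →
    0 ≤ LL X * QQ (K0 + 1) X W E ∧
    (1 - 2 * θ) * (LL X * QQ (K0 + 1) X W E) ≤
      (LPhi X * (1 / (W.totient : ℝ))) * (1 / (LL X * BE E) ^ K0) := by
  filter_upwards [Pool.Agent.H510R2.Maier.lphi_mphi (θ / 20) (by positivity), MPhi_big,
    LL_tendsto.eventually_ge_atTop 1, eventually_ge_atTop 4] with X h1 h2 h3 h4
  intro W E hW hE hb1 hb2
  have hW0 : (0:ℝ) < W := by exact_mod_cast hW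
  have hφ : 0 < (W.totient : ℝ) := by exact_mod_cast Nat.totient_pos.2 hW
  have hL0 : 0 < LL X := by linarith
  have hBE := BE_pos hE
  have hM : 0 < MPhi X := by linarith
  have hLM : |LPhi X - MPhi X| ≤ θ * MPhi X := by
    refine h1.trans ?_
    nlinarith
  set P := 1 / (LL X * BE E) ^ K0 with hP
  have hP0 : 0 < P := by positivity
  have e1 : LL X * QQ (K0 + 1) X W E = (MPhi X * (1 / (W * BE E))) * P := by
    unfold QQ
    rw [hP, pow_succ]
    field_simp
  rw [e1]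
  refine ⟨by positivity, ?_⟩
  rw [← mul_assoc]
  apply mul_le_mul_of_nonneg_right _ hP0.le
  -- compare
  have hWB : 0 < (W : ℝ) * BE E := by positivity
  have g2 : (1 - θ) * (1 / (W * BE E)) ≤ 1 / (W.totient : ℝ) := by
    rw [mul_one_div, div_le_div_iff₀ hWB hφ, one_mul]
    exact hb2
  have hab := abs_le.1 hLM
  have hq0 : 0 < 1 / (W.totient : ℝ) := by positivity
  have hw0 : 0 < 1 / ((W : ℝ) * BE E) := by positivity
  set q := 1 / (W.totient : ℝ) with hq
  set w := 1 / ((W : ℝ) * BE E) with hw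
  have k1 : (1 - θ) * MPhi X * q ≤ LPhi X * q := by
    apply mul_le_mul_of_nonneg_right _ hq0.le
    linarith [hab.1]
  have k2 : (1 - θ) * MPhi X * ((1 - θ) * w) ≤ (1 - θ) * MPhi X * q := by
    apply mul_le_mul_of_nonneg_left g2
    exact mul_nonneg (by linarith) hM.le
  have k3 : 0 ≤ θ ^ 2 * (MPhi X * w) := by positivity
  have k4 : (1 - θ) * MPhi X * ((1 - θ) * w) = MPhi X * w - 2 * θ * (MPhi X * w) + θ ^ 2 * (MPhi X * w) := by ring
  have k5 : (1 - 2 * θ) * (MPhi X * w) = MPhi X * w - 2 * θ * (MPhi X * w) := by ring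
  linarith

/-- final real inequality; `P = LL Q`, `l = log (4 X)` -/
lemma final_alg {M J Q Lx l S Jm ε θ δ Er : ℝ} (hε : 0 < ε) (hL : 0 < Lx) (hQ : 0 ≤ Q)
    (hθ : 0 ≤ θ) (hδ : 0 ≤ δ) (hJ : J ≤ Jm) (hM : (1 - 2 * θ) * (Lx * Q) ≤ M) (hθ1 : 2 * θ ≤ 1)
    (hθJ : 2 * θ * Jm ≤ ε / 4) (hδJ : δ * Jm ≤ ε / 4) (hEr : Er ≤ ε / 4 * (Lx * Q))
    (hl : l ≤ 200 * Lx * (1 + δ)) (hS0 : 0 ≤ S) (hS : M * (J - ε / 4) - Er ≤ l * S) :
    (J - ε) / 200 * Q ≤ S := by
  rcases le_or_gt J ε with h | h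
  · have : (J - ε) / 200 * Q ≤ 0 := mul_nonpos_of_nonpos_of_nonneg (by linarith) hQ
    linarith
  · have hJ0 : 0 < J := hε.trans h
    have h1 : (1 - 2 * θ) * (Lx * Q) * (J - ε / 4) ≤ M * (J - ε / 4) :=
      mul_le_mul_of_nonneg_right hM (by linarith)
    have hLQ : 0 ≤ Lx * Q := mul_nonneg hL.le hQ
    have h2 : (Lx * Q) * (J - 3 * ε / 4) ≤ (1 - 2 * θ) * (Lx * Q) * (J - ε / 4) - Er := by
      have h3 : 2 * θ * (J - ε / 4) ≤ ε / 4 := by
        calc 2 * θ * (J - ε / 4) ≤ 2 * θ * Jm := by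
              apply mul_le_mul_of_nonneg_left _ (by linarith)
              linarith
          _ ≤ ε / 4 := hθJ
      have h4 : (Lx * Q) * (2 * θ * (J - ε / 4)) ≤ (Lx * Q) * (ε / 4) := mul_le_mul_of_nonneg_left h3 hLQ
      have h5 : (1 - 2 * θ) * (Lx * Q) * (J - ε / 4) = (Lx * Q) * (J - ε / 4) -
        (Lx * Q) * (2 * θ * (J - ε / 4)) := by ring
      have h6 : (Lx * Q) * (J - 3 * ε / 4) = (Lx * Q) * (J - ε / 4) - (Lx * Q) * (ε / 4) -
        ε / 4 * (Lx * Q) := by ring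
      linarith
    have h7 : (Lx * Q) * (J - 3 * ε / 4) ≤ 200 * Lx * (1 + δ) * S := by
      have := mul_le_mul_of_nonneg_right hl hS0
      linarith
    have h8 : Q * (J - 3 * ε / 4) ≤ 200 * (1 + δ) * S := by
      have : Lx * (Q * (J - 3 * ε / 4)) ≤ Lx * (200 * (1 + δ) * S) := by linarith
      exact le_of_mul_le_mul_left this hL
    have h9 : (1 + δ) * ((J - ε) * Q) ≤ Q * (J - 3 * ε / 4) := by
      have h10 : δ * (J - ε) ≤ ε / 4 := by
        calc δ * (J - ε) ≤ δ * Jm := by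
              apply mul_le_mul_of_nonneg_left _ hδ
              linarith
          _ ≤ ε / 4 := hδJ
      have h11 : Q * (δ * (J - ε)) ≤ Q * (ε / 4) := mul_le_mul_of_nonneg_left h10 hQ
      have h12 : (1 + δ) * ((J - ε) * Q) = Q * (J - ε) + Q * (δ * (J - ε)) := by ring
      have h13 : Q * (J - 3 * ε / 4) = Q * (J - ε) + Q * (ε / 4) := by ring
      linarith
    have h14 : (1 + δ) * ((J - ε) * Q) ≤ (1 + δ) * (200 * S) := by linarith
    have h15 : (J - ε) * Q ≤ 200 * S := le_of_mul_le_mul_left h14 (by linarith)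
    linarith

end ONEaux

open Classical in
theorem ONE : St_ONE := by
  intro K0 B f c A hsm hcs hf0 hc hA hf1 ε hε
  set Jm : ℝ := ∑ i, |JJ f A i| + 1 with hJm
  have hJsum : 0 ≤ ∑ i, |JJ f A i| := sum_nonneg fun i _ => abs_nonneg _
  have hJm1 : 1 ≤ Jm := by linarith
  have hJm0 : 0 < Jm := by linarith
  have hJle : ∀ i, JJ f A i ≤ Jm := by
    intro i
    have h1 : |JJ f A i| ≤ ∑ i, |JJ f A i| :=
      single_le_sum (f := fun i => |JJ f A i|) (fun i _ => abs_nonneg _) (mem_univ i)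
    linarith [le_abs_self (JJ f A i)]
  set θ : ℝ := min (1 / 2) (ε / (8 * Jm)) with hθd
  have hθ0 : 0 < θ := lt_min (by norm_num) (by positivity)
  have hθh : θ ≤ 1 / 2 := min_le_left _ _
  have hθJ : 2 * θ * Jm ≤ ε / 4 := by
    have h1 : θ ≤ ε / (8 * Jm) := min_le_right _ _
    calc 2 * θ * Jm ≤ 2 * (ε / (8 * Jm)) * Jm := by gcongr
      _ = ε / 4 := by field_simp; ring
  set δ : ℝ := ε / (4 * Jm) with hδd
  have hδ0 : 0 < δ := by positivity
  have hδJ : δ * Jm ≤ ε / 4 := by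
    rw [hδd]
    apply le_of_eq
    field_simp
  obtain ⟨z, hS2⟩ := S2low f c A hsm hcs hf0 hc hA hf1 (ε / 4) (by positivity)
  refine ⟨θ, hθ0, z, ?_⟩
  filter_upwards [hS2, BVe_le K0 (K0 + 1 + 4), err_small (K0 + 1) ((A.card : ℝ) ^ 2) (ε / 4) (by positivity) (by positivity),
    ONEaux.ratio K0 θ hθ0 (by linarith), eventually_ge_atTop 16, LL_tendsto.eventually_ge_atTop 1,
    ev_pow_exp 3 (1 / 700) 1 (by norm_num) |> (fun h => Real.tendsto_log_atTop.eventually h),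
    LL_tendsto.eventually_ge_atTop (Real.log 4 / (200 * δ))] with X h2 h4 h5 h6 h7 h8 h9 h10
  intro W E a0 t hC i
  have hCS := hC.cs
  have hX0 : 0 < X := by linarith
  have hL0 : 0 < LL X := by linarith
  have hW0 : 0 < W := hCS.pos
  have hWr : (0:ℝ) < W := by exact_mod_cast hW0
  have hWle : (W : ℝ) ≤ Real.exp (Real.log X / 700) := by
    refine hCS.le.trans ?_
    rw [one_mul] at h9
    calc Real.log X ^ 3 ≤ Real.exp (1 / 700 * Real.log X) := h9
      _ = _ := by ring_nf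
  have hsqrt : Real.sqrt X ≤ X / 2 := sqrt_half h7
  have hCW : CW X z W E := ⟨hCS.gs.toGE h8, hW0, hWle, hCS.dv⟩
  have hMP : 0 ≤ MPhi X := MPhi_nonneg X
  have hBE : 0 < BE E := BE_pos hCS.gs.pr
  have hQ0 : 0 ≤ QQ (K0 + 1) X W E := by unfold QQ; positivity
  obtain ⟨Bc, hBc1, hBc2⟩ := Bc_exists X W hW0
  have s2 := h2 W E a0 t (Real.sqrt X) hCW hC.dt hC.tl hsqrt hC.cp Bc hBc2 i
  have s3 := h4 W hC.sq hCS.le Bc hBc1
  have s4 := h5 W E (BVe K0 X W Bc) hW0 hCS.le hCS.gs.pr s3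
  have s5 := h6 W E hW0 hCS.gs.pr hC.b1 hC.b2
  set w : ℕ → ℝ := fun n => sqw E X f A (fun j => (n : ℤ) + t j) ^ 2 with hw
  have hw0 : ∀ n, 0 ≤ w n := fun n => sq_nonneg _
  have hl40 : 0 ≤ Real.log (4 * X) := Real.log_nonneg (by linarith)
  set S := ∑ n ∈ Icc 1 ⌊3 * X⌋₊, nu X W a0 n * (if (n + t i).Prime then w n else 0) with hS
  have hS0 : 0 ≤ S := sum_nonneg fun n _ => mul_nonneg (nu_nonneg _ _ _ _)
    (by split_ifs; exacts [hw0 n, le_rfl])
  have e1 : ∑ n ∈ Icc 1 ⌊3 * X⌋₊, nu X W a0 n * (w n * th (n + t i)) ≤ Real.log (4 * X) * S := by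
    rw [hS, mul_sum]
    apply sum_le_sum
    intro n hn
    rw [mem_Icc] at hn
    have hn3 : (n : ℝ) ≤ 3 * X := (Nat.le_floor_iff (by positivity)).1 hn.2
    have hnu := nu_nonneg X W a0 n
    have e2 : w n * th (n + t i) ≤ Real.log (4 * X) * (if (n + t i).Prime then w n else 0) := by
      unfold th
      split_ifs with hp
      · rw [mul_comm]
        apply mul_le_mul_of_nonneg_right _ (hw0 n)
        apply Real.log_le_log (by exact_mod_cast hp.pos)
        push_cast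
        have := hC.tl i
        linarith
      · simp
    calc nu X W a0 n * (w n * th (n + t i)) ≤
        nu X W a0 n * (Real.log (4 * X) * (if (n + t i).Prime then w n else 0)) :=
          mul_le_mul_of_nonneg_left e2 hnu
      _ = _ := by ring
  have hl : Real.log (4 * X) ≤ 200 * LL X * (1 + δ) := by
    rw [Real.log_mul (by norm_num) (by linarith)]
    have h11 : Real.log X = 200 * LL X := by unfold LL; ring
    rw [h11]
    have h12 : Real.log 4 ≤ LL X * (200 * δ) := by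
      rwa [div_le_iff₀ (by positivity)] at h10
    linarith
  have hEr : (A.card : ℝ) ^ 2 * (BVe K0 X W Bc + Real.exp (2 * LL X) *
          ((4 * Real.sqrt X) * Real.log (4 * X) + 4 * Real.sqrt X * Real.log (4 * X))) ≤
      ε / 4 * (LL X * QQ (K0 + 1) X W E) := by
    refine le_trans ?_ s4
    apply mul_le_mul_of_nonneg_left _ (by positivity)
    have : 0 ≤ Real.log (4 * X) * Real.exp (2 * LL X) := by positivity
    linarith
  exact ONEaux.final_alg hε hL0 hQ0 hθ0.le hδ0.le (hJle i) s5.2 (by linarith) hθJ hδJ hEr hl hS0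
    (s2.trans e1)

end Pool.Agent.H362R2.QT
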