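import Mathlib
import Pool.Agent.H362R2.QT.Stubs
import Pool.Agent.H510R2.Maier.MA1

/-! Project QT, module PAIR (helper419): pairs of primes with the sharp constant. -/

set_option autoImplicit false

open Finset Filter Topology
open scoped ContDiff

namespace Pool.Agent.H362R2.QT

open Pool.Agent.H378R2 Pool.Agent.H387R2 Pool.Agent.H387R2.MB

namespace PAIR

/-- the longer range of divisors does not matter for functions supported on `x ≤ 1/2` -/
theorem VV_long (E : Finset ℕ) (X : ℝ) (hL : 2 ≤ LL X) (F : ℝ → ℝ) (hF : ∀ x, 1 / 2 < x → F x = 0) (x : ℤ) :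
    VVm E (RG X) (LL X) F x = VVm E (RR X) (LL X) F x := by
  have hRR : RR X ≤ RG X := by
    unfold RR RG
    apply Nat.floor_le_floor
    apply Real.exp_le_exp.2
    linarith
  have hR1 : 1 ≤ RR X := by
    unfold RR
    apply Nat.le_floor
    rw [Nat.cast_one]
    exact Real.one_le_exp (by linarith)
  unfold VVm
  symm
  apply Finset.sum_subset
  · intro d hd
    rw [mem_adm] at hd ⊢
    exact ⟨⟨hd.1.1, hd.1.2.trans hRR⟩, hd.2⟩
  · intro d hd hd'
    rw [mem_adm] at hd hd'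
    have h1 : RR X < d := by
      by_contra h
      exact hd' ⟨⟨hd.1.1, not_lt.1 h⟩, hd.2⟩
    have h2 : Real.log (RR X) / LL X < Real.log d / LL X := by
      apply div_lt_div_of_pos_right _ (by linarith)
      apply Real.log_lt_log (by exact_mod_cast hR1)
      exact_mod_cast h1
    rw [hF _ (supp_aux hL h2), mul_zero, ite_self]

/-- the comparison sum -/
noncomputable def Sq {K0 B : ℕ} (E : Finset ℕ) (X : ℝ) (f : Fin B → ℝ → ℝ) (G : ℝ → ℝ)
    (A : Finset (Fin (K0 + 1) → Fin B)) (i : Fin (K0 + 1)) (j0 : Fin K0) (t : Fin (K0 + 1) → ℕ) (n : ℕ) : ℝ :=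
  ∑ a ∈ A, ∑ b ∈ A, (f (a i) 0 * f (b i) 0) * (f (a (i.succAbove j0)) 0 * f (b (i.succAbove j0)) 0) *
    PRG E X f G a b i j0 t n

theorem Sq_nonneg {K0 B : ℕ} (E : Finset ℕ) (X : ℝ) (f : Fin B → ℝ → ℝ) (G : ℝ → ℝ)
    (A : Finset (Fin (K0 + 1) → Fin B)) (i : Fin (K0 + 1)) (j0 : Fin K0) (t : Fin (K0 + 1) → ℕ) (n : ℕ) :
    0 ≤ Sq E X f G A i j0 t n := by
  have h : Sq E X f G A i j0 t n = (∑ a ∈ A, f (a i) 0 * f (a (i.succAbove j0)) 0 *
      ∏ j : Fin K0, VVm E (RG X) (LL X) (if j = j0 then G else f (a (i.succAbove j)))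
        ((n : ℤ) + ((t (i.succAbove j) : ℤ) - t i))) ^ 2 := by
    rw [sq, Finset.sum_mul_sum]
    unfold Sq PRG
    refine Finset.sum_congr rfl fun a _ => Finset.sum_congr rfl fun b _ => ?_
    rw [Finset.prod_mul_distrib]
    ring
  rw [h]
  exact sq_nonneg _

theorem sqw_eq_Sq {K0 B : ℕ} (E : Finset ℕ) (X : ℝ) (f : Fin B → ℝ → ℝ) (G : ℝ → ℝ)
    (A : Finset (Fin (K0 + 1) → Fin B)) (i : Fin (K0 + 1)) (j0 : Fin K0) (t : Fin (K0 + 1) → ℕ) (n : ℕ)
    (hL : 2 ≤ LL X) (hf : ∀ l x, 1 / 2 < x → f l x = 0) (hG : G 0 = 1)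
    (hp : (n + t i).Prime) (hq : (n + t (i.succAbove j0)).Prime)
    (hRp : RG X < n + t i) (hRq : RG X < n + t (i.succAbove j0)) :
    sqw E X f A (fun j => (n : ℤ) + t j) ^ 2 = Sq E X f G A i j0 t (n + t i) := by
  classical
  have hRR : RR X ≤ RG X := by
    unfold RR RG
    apply Nat.floor_le_floor
    apply Real.exp_le_exp.2
    linarith
  have hR1 : 1 ≤ RR X := by
    unfold RR
    apply Nat.le_floor
    rw [Nat.cast_one]
    exact Real.one_le_exp (by linarith)
  rw [sqw_at_prime E X f A i t n hR1 hp (lt_of_le_of_lt hRR hRp)]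
  unfold Sq
  refine Finset.sum_congr rfl fun a _ => Finset.sum_congr rfl fun b _ => ?_
  rw [mul_assoc (f (a i) 0 * f (b i) 0)]
  congr 1
  unfold PR PRG
  rw [← Finset.mul_prod_erase univ _ (mem_univ j0), ← Finset.mul_prod_erase univ _ (mem_univ j0)]
  have harg : (((n + t i : ℕ) : ℤ)) + ((t (i.succAbove j0) : ℤ) - t i) = ((n + t (i.succAbove j0) : ℕ) : ℤ) := by
    push_cast; ring
  have h1 : ∀ l, VVm E (RR X) (LL X) (f l) (((n + t i : ℕ) : ℤ) + ((t (i.succAbove j0) : ℤ) - t i)) = f l 0 := by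
    intro l
    rw [harg]
    exact VV_prime E (RR X) hR1 (LL X) (f l) _ hq (lt_of_le_of_lt hRR hRq)
  have h2 : VVm E (RG X) (LL X) G (((n + t i : ℕ) : ℤ) + ((t (i.succAbove j0) : ℤ) - t i)) = 1 := by
    rw [harg, VV_prime E (RG X) (hR1.trans hRR) (LL X) G _ hq hRq, hG]
  rw [h1, h1, if_pos rfl, if_pos rfl, h2, one_mul, one_mul]
  congr 1
  refine Finset.prod_congr rfl fun j hj => ?_
  rw [if_neg (Finset.ne_of_mem_erase hj), if_neg (Finset.ne_of_mem_erase hj),
    VV_long E X hL _ (hf _), VV_long E X hL _ (hf _)]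

/-- the ramp is optimal -/
theorem DD_ge (V : ℝ) (hV : 0 < V) (G : ℝ → ℝ) (hsm : ContDiff ℝ ∞ G) (hcs : HasCompactSupport G) (h0 : G 0 = 1)
    (hz : ∀ x, V < x → G x = 0) : 1 / V ≤ DD G G := by
  have hc : Continuous (deriv G) := hsm.continuous_deriv (by simp)
  have hdcs : HasCompactSupport (deriv G) := hcs.deriv
  have hint : MeasureTheory.Integrable (fun t => deriv G t * deriv G t) :=
    (hc.mul hc).integrable_of_hasCompactSupport hdcs.mul_left
  have hGV : G V = 0 := by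
    have h1 : Tendsto G (𝓝[>] V) (𝓝 (G V)) := (hsm.continuous.tendsto V).mono_left nhdsWithin_le_nhds
    have h2 : Tendsto G (𝓝[>] V) (𝓝 0) := by
      apply tendsto_const_nhds.congr'
      filter_upwards [self_mem_nhdsWithin] with x hx
      exact (hz x hx).symm
    exact tendsto_nhds_unique h1 h2
  have h1 : ∫ t in (0:ℝ)..V, deriv G t * deriv G t ≤ DD G G := by
    rw [intervalIntegral.integral_of_le hV.le]
    unfold DD
    apply MeasureTheory.setIntegral_mono_set hint.integrableOn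
    · exact Filter.Eventually.of_forall fun x => mul_self_nonneg _
    · exact (Set.Ioc_subset_Ioi_self).eventuallyLE
  have h2 : 0 ≤ ∫ t in (0:ℝ)..V, (deriv G t + 1 / V) ^ 2 :=
    intervalIntegral.integral_nonneg hV.le fun x _ => sq_nonneg _
  have h3 : ∫ t in (0:ℝ)..V, (deriv G t + 1 / V) ^ 2 =
      (∫ t in (0:ℝ)..V, deriv G t * deriv G t) + (2 / V) * (∫ t in (0:ℝ)..V, deriv G t) + 1 / V := by
    have e1 : ∀ t, (deriv G t + 1 / V) ^ 2 = (deriv G t * deriv G t + (2 / V) * deriv G t) + (1 / V) ^ 2 := by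
      intro t; ring
    simp_rw [e1]
    have i1 : IntervalIntegrable (fun t => deriv G t * deriv G t) MeasureTheory.volume 0 V :=
      (hc.mul hc).intervalIntegrable _ _
    have i2 : IntervalIntegrable (fun t => (2 / V) * deriv G t) MeasureTheory.volume 0 V :=
      (continuous_const.mul hc).intervalIntegrable _ _
    rw [intervalIntegral.integral_add (i1.add i2) (by simp), intervalIntegral.integral_add i1 i2,
      intervalIntegral.integral_const_mul, intervalIntegral.integral_const, smul_eq_mul]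
    congr 1
    field_simp
    ring
  have h4 : ∫ t in (0:ℝ)..V, deriv G t = -1 := by
    rw [intervalIntegral.integral_deriv_eq_sub (fun x _ => (hsm.differentiable (by simp)).differentiableAt)
      (hc.intervalIntegrable _ _), hGV, h0]
    ring
  rw [h4] at h3
  have h5 : (2 / V) * (-1 : ℝ) + 1 / V = -(1 / V) := by ring
  linarith

/-- all errors together -/
lemma err_small' (v : ℝ) (hv : v < 50) (K : ℕ) (c η : ℝ) (hc : 0 ≤ c) (hη : 0 < η) :
    ∀ᶠ X : ℝ in atTop, ∀ (W : ℕ) (E : Finset ℕ) (Bv : ℝ), 0 < W →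
    (W : ℝ) ≤ Real.log X ^ 3 → (∀ p ∈ E, p.Prime) → Bv ≤ X / Real.log X ^ (K + 4) →
    c * (Bv + Real.exp (2 * v * LL X) * ((4 * Real.sqrt X) * Real.log (4 * X) + 4 * Real.sqrt X * Real.log (4 * X)))
      ≤ η * (LL X * QQ K X W E) := by
  have hκ : 0 < 1 / 2 - v / 100 := by linarith
  have h1 : ∀ᶠ t : ℝ in atTop, (c * 20 * 40 / η) * t ^ (K + 4) ≤ Real.exp ((1 / 2 - v / 100) * t) :=
    ev_pow_exp (K + 4) (1 / 2 - v / 100) (c * 20 * 40 / η) hκ
  filter_upwards [Real.tendsto_log_atTop.eventually h1, QQ_ge K, LL_tendsto.eventually_ge_atTop 1, eventually_ge_atTop 4,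
    Real.tendsto_log_atTop.eventually_ge_atTop (c * 40 / η)] with X h2 h3 h4 h5 h6
  intro W E Bv hW hWle hE hBv
  have hX0 : 0 < X := by linarith
  have hlog : 200 ≤ Real.log X := by
    unfold LL at h4
    linarith
  have hl4 : Real.log (4 * X) ≤ 2 * Real.log X := by
    have := log4X h5
    unfold LL at this
    linarith
  have hl40 : 0 ≤ Real.log (4 * X) := Real.log_nonneg (by linarith)
  set l := Real.log X with hl
  have hQ := h3 W E hW hWle hE
  have hQ0 : 0 ≤ QQ K X W E := le_trans (by positivity) hQ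
  have hLQ : X / (20 * l ^ (3 + K)) ≤ LL X * QQ K X W E := by
    calc X / (20 * l ^ (3 + K)) ≤ 1 * QQ K X W E := by rw [one_mul]; exact hQ
      _ ≤ _ := mul_le_mul_of_nonneg_right h4 hQ0
  -- first error
  have a1 : c * Bv ≤ η / 2 * (LL X * QQ K X W E) := by
    calc c * Bv ≤ c * (X / l ^ (K + 4)) := mul_le_mul_of_nonneg_left hBv hc
      _ ≤ η / 2 * (X / (20 * l ^ (3 + K))) := by
          rw [show K + 4 = (3 + K) + 1 by ring, pow_succ]
          have hp : 0 < l ^ (3 + K) := by positivity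
          rw [mul_div_assoc', mul_div_assoc', div_le_div_iff₀ (by positivity) (by positivity)]
          have h7 : c * 40 ≤ η * l := by
            rw [div_le_iff₀ hη] at h6
            linarith
          have h8 : (c * 40) * (X * l ^ (3 + K)) ≤ (η * l) * (X * l ^ (3 + K)) :=
            mul_le_mul_of_nonneg_right h7 (by positivity)
          nlinarith
      _ ≤ _ := by gcongr
  have hexp : Real.exp ((1 / 2 - v / 100) * l) * (Real.exp (2 * v * LL X) * Real.sqrt X) ≤ X := by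
    have e1 : Real.sqrt X = Real.exp (l / 2) := by
      rw [Real.sqrt_eq_iff_mul_self_eq hX0.le (Real.exp_pos _).le, ← Real.exp_add]
      rw [show l / 2 + l / 2 = l by ring, hl, Real.exp_log hX0]
    rw [e1, ← Real.exp_add, ← Real.exp_add]
    calc Real.exp ((1 / 2 - v / 100) * l + (2 * v * LL X + l / 2)) = Real.exp l := by
          congr 1
          unfold LL
          rw [← hl]
          ring
      _ = X := by rw [hl, Real.exp_log hX0]
      _ ≤ X := le_rfl
  have a2 : c * (Real.exp (2 * v * LL X) * ((4 * Real.sqrt X) * Real.log (4 * X) + 4 * Real.sqrt X * Real.log (4 * X)))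
      ≤ η / 2 * (LL X * QQ K X W E) := by
    have e2 : Real.exp (2 * v * LL X) * ((4 * Real.sqrt X) * Real.log (4 * X) + 4 * Real.sqrt X * Real.log (4 * X))
        ≤ 20 * l * (Real.exp (2 * v * LL X) * Real.sqrt X) := by
      have he : 0 < Real.exp (2 * v * LL X) := Real.exp_pos _
      have hs : 0 ≤ Real.sqrt X := Real.sqrt_nonneg X
      calc _ = (Real.exp (2 * v * LL X) * (8 * Real.sqrt X)) * Real.log (4 * X) := by ring
        _ ≤ (Real.exp (2 * v * LL X) * (8 * Real.sqrt X)) * (2 * l) := by gcongr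
        _ = 16 * l * (Real.exp (2 * v * LL X) * Real.sqrt X) := by ring
        _ ≤ _ := by
            apply mul_le_mul_of_nonneg_right _ (by positivity)
            linarith
    refine (mul_le_mul_of_nonneg_left e2 hc).trans ?_
    refine le_trans ?_ (mul_le_mul_of_nonneg_left hLQ (by positivity))
    set s := Real.exp (2 * v * LL X) * Real.sqrt X with hs
    have hs0 : 0 < s := by positivity
    rw [mul_div_assoc', le_div_iff₀ (by positivity)]
    have e3 : (c * 20 * 40 / η) * l ^ (K + 4) * s ≤ X := by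
      calc _ ≤ Real.exp ((1 / 2 - v / 100) * l) * s := by gcongr
        _ ≤ X := hexp
    have e4 : (c * 20 * 40 / η) * l ^ (K + 4) * s * (η / 2) ≤ X * (η / 2) := by gcongr
    have e5 : (c * 20 * 40 / η) * l ^ (K + 4) * s * (η / 2) = c * 400 * l ^ (K + 4) * s := by
      field_simp
      ring
    have e6 : c * (20 * l * s) * (20 * l ^ (3 + K)) = c * 400 * l ^ (K + 4) * s := by ring
    rw [e6]
    linarith
  calc _ = c * Bv + c * (Real.exp (2 * v * LL X) * ((4 * Real.sqrt X) * Real.log (4 * X) +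
      4 * Real.sqrt X * Real.log (4 * X))) := by ring
    _ ≤ _ := by linarith

/-- the ratio of the two main terms -/
lemma ratio (K0 : ℕ) (θ : ℝ) (hθ : 0 < θ) (hθ1 : θ ≤ 1) : ∀ᶠ X : ℝ in atTop, ∀ (W : ℕ) (E : Finset ℕ), 0 < W →
    (∀ p ∈ E, p.Prime) → (W : ℝ) * BE E ≤ W.totient → (1 - θ) * (W.totient : ℝ) ≤ W * BE E →
    0 ≤ LL X * QQ (K0 + 1) X W E ∧
    |(LPhi X * (1 / (W.totient : ℝ))) * (1 / (LL X * BE E) ^ K0) - LL X * QQ (K0 + 1) X W E| ≤
      2 * θ * (LL X * QQ (K0 + 1) X W E) := by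
  filter_upwards [Pool.Agent.H510R2.Maier.lphi_mphi (θ / 20) (by positivity), MPhi_big,
    LL_tendsto.eventually_ge_atTop 1, eventually_ge_atTop 4] with X h1 h2 h3 h4
  intro W E hW hE hb1 hb2
  have hW0 : (0:ℝ) < W := by exact_mod_cast hW
  have hφ : 0 < (W.totient : ℝ) := by exact_mod_cast Nat.totient_pos.2 hW
  have hL0 : 0 < LL X := by linarith
  have hBE := BE_pos hE
  have hM : 0 < MPhi X := by linarith
  have hLM : |LPhi X - MPhi X| ≤ θ * MPhi X := by
    refine h1.trans ?_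
    nlinarith
  set P := 1 / (LL X * BE E) ^ K0 with hP
  have hP0 : 0 < P := by positivity
  have e1 : LL X * QQ (K0 + 1) X W E = (MPhi X * (1 / (W * BE E))) * P := by
    unfold QQ
    rw [hP, pow_succ]
    field_simp
  rw [e1]
  refine ⟨by positivity, ?_⟩
  have e2 : LPhi X * (1 / (W.totient : ℝ)) * P - MPhi X * (1 / (W * BE E)) * P =
      (LPhi X * (1 / (W.totient : ℝ)) - MPhi X * (1 / (W * BE E))) * P := by ring
  rw [e2, abs_mul, abs_of_pos hP0, ← mul_assoc]
  apply mul_le_mul_of_nonneg_right _ hP0.le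
  -- compare
  have hWB : 0 < (W : ℝ) * BE E := by positivity
  have g1 : 1 / (W.totient : ℝ) ≤ 1 / (W * BE E) := one_div_le_one_div_of_le hWB hb1
  have g2 : (1 - θ) * (1 / (W * BE E)) ≤ 1 / (W.totient : ℝ) := by
    rw [mul_one_div, div_le_div_iff₀ hWB hφ, one_mul]
    exact hb2
  have hab := abs_le.1 hLM
  have hq0 : 0 < 1 / (W.totient : ℝ) := by positivity
  have hw0 : 0 < 1 / ((W : ℝ) * BE E) := by positivity
  set q := 1 / (W.totient : ℝ) with hq
  set w := 1 / ((W : ℝ) * BE E) with hw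
  rw [abs_le]
  constructor
  · have k1 : (1 - θ) * MPhi X * q ≤ LPhi X * q := by
      apply mul_le_mul_of_nonneg_right _ hq0.le
      linarith [hab.1]
    have k2 : (1 - θ) * MPhi X * ((1 - θ) * w) ≤ (1 - θ) * MPhi X * q := by
      apply mul_le_mul_of_nonneg_left g2
      exact mul_nonneg (by linarith) hM.le
    have k3 : 0 ≤ θ ^ 2 * (MPhi X * w) := by positivity
    have k4 : (1 - θ) * MPhi X * ((1 - θ) * w) = MPhi X * w - 2 * θ * (MPhi X * w) + θ ^ 2 * (MPhi X * w) := by ring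
    linarith
  · have k1 : LPhi X * q ≤ (1 + θ) * MPhi X * q := by
      apply mul_le_mul_of_nonneg_right _ hq0.le
      linarith [hab.2]
    have k2 : (1 + θ) * MPhi X * q ≤ (1 + θ) * MPhi X * w := by
      apply mul_le_mul_of_nonneg_left g1
      positivity
    have k3 : 0 ≤ θ * (MPhi X * w) := by positivity
    have k4 : (1 + θ) * MPhi X * w = MPhi X * w + θ * (MPhi X * w) := by ring
    linarith

/-- final real inequality -/
lemma final_alg {T P M J D V ε θ ε1 ε2 Jm n2 Er : ℝ} (hV : 0 < V) (hP : 0 ≤ P) (hM : |M - P| ≤ 2 * θ * P)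
    (hθ : 0 ≤ θ) (hθ1 : 2 * θ ≤ 1) (hJ : |J| ≤ Jm) (hD1 : 1 / V ≤ D) (hD2 : D ≤ 1 / V + ε2) (hn2 : 0 ≤ n2)
    (hε1 : 0 ≤ ε1) (hε2 : 0 ≤ ε2)
    (c1 : 2 * θ * Jm / V ≤ ε / 4) (c2 : 2 * (ε2 * Jm) ≤ ε / 4) (c3 : 2 * (n2 * ε1) ≤ ε / 4)
    (c4 : n2 * Er ≤ ε / 4 * P)
    (hT : T ≤ M * (D * J) + n2 * (M * ε1 + Er)) : T ≤ P * (J / V + ε) := by
  have hMab := abs_le.1 hM
  have hM0 : 0 ≤ M := by
    have : 2 * θ * P ≤ 1 * P := mul_le_mul_of_nonneg_right hθ1 hP
    linarith [hMab.1]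
  have hM2 : M ≤ 2 * P := by
    have : 2 * θ * P ≤ 1 * P := mul_le_mul_of_nonneg_right hθ1 hP
    linarith [hMab.2]
  have hJm : 0 ≤ Jm := (abs_nonneg _).trans hJ
  have hJab := abs_le.1 hJ
  -- D J ≤ J / V + ε2 Jm
  have a1 : D * J ≤ J / V + ε2 * Jm := by
    have h1 : (D - 1 / V) * J ≤ ε2 * Jm := by
      refine (mul_le_mul_of_nonneg_left hJab.2 (by linarith : 0 ≤ D - 1 / V)).trans ?_
      exact mul_le_mul_of_nonneg_right (by linarith) hJm
    have h2 : D * J = J / V + (D - 1 / V) * J := by ring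
    linarith
  have a2 : M * (D * J) ≤ M * (J / V) + 2 * P * (ε2 * Jm) := by
    have h1 := mul_le_mul_of_nonneg_left a1 hM0
    have h2 : M * (ε2 * Jm) ≤ 2 * P * (ε2 * Jm) := mul_le_mul_of_nonneg_right hM2 (by positivity)
    calc M * (D * J) ≤ M * (J / V + ε2 * Jm) := h1
      _ = M * (J / V) + M * (ε2 * Jm) := by ring
      _ ≤ _ := by linarith
  have a3 : M * (J / V) ≤ P * (J / V) + P * (2 * θ * Jm / V) := by
    have h1 : |(M - P) * (J / V)| ≤ (2 * θ * P) * (Jm / V) := by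
      rw [abs_mul, abs_div, abs_of_pos hV]
      apply mul_le_mul hM _ (by positivity) (by positivity)
      exact div_le_div_of_nonneg_right hJ hV.le
    have h2 := (abs_le.1 h1).2
    have h3 : (M - P) * (J / V) = M * (J / V) - P * (J / V) := by ring
    have h4 : (2 * θ * P) * (Jm / V) = P * (2 * θ * Jm / V) := by ring
    linarith
  have a4 : n2 * (M * ε1) ≤ P * (2 * (n2 * ε1)) := by
    have h1 : M * (n2 * ε1) ≤ 2 * P * (n2 * ε1) := mul_le_mul_of_nonneg_right hM2 (by positivity)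
    linarith
  have b1 := mul_le_mul_of_nonneg_left c1 hP
  have b2 := mul_le_mul_of_nonneg_left c2 hP
  have b3 := mul_le_mul_of_nonneg_left c3 hP
  have e : n2 * (M * ε1 + Er) = n2 * (M * ε1) + n2 * Er := by ring
  rw [e] at hT
  have e2 : P * (J / V + ε) = P * (J / V) + P * (ε / 4) + P * (ε / 4) + P * (ε / 4) + ε / 4 * P := by ring
  rw [e2]
  linarith

end PAIR

open PAIR

open Classical in
theorem PAIR (h1 : St_PRG) (h2 : St_RAMP) (h3 : St_BV) : St_PAIR := by
  intro K0 B f c A V ρ hsm hcs hf0 hc hA hf1 hV hρ hρ1 hVρ ε hε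
  have hv0 : 0 < (V + ρ) / 100 := by linarith
  have hv1 : (V + ρ) / 100 < 1 / 2 := by linarith
  -- constants
  set Jm : ℝ := ∑ i : Fin (K0 + 1), ∑ j0 : Fin K0, |JJ2 f A i j0| with hJm
  have hJm0 : 0 ≤ Jm := Finset.sum_nonneg fun i _ => Finset.sum_nonneg fun j _ => abs_nonneg _
  have hJle : ∀ i j0, |JJ2 f A i j0| ≤ Jm := by
    intro i j0
    refine le_trans (Finset.single_le_sum (f := fun j0 => |JJ2 f A i j0|) (fun j _ => abs_nonneg _) (mem_univ j0)) ?_
    exact Finset.single_le_sum (f := fun i => ∑ j0 : Fin K0, |JJ2 f A i j0|)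
      (fun i _ => Finset.sum_nonneg fun j _ => abs_nonneg _) (mem_univ i)
  set n2 : ℝ := (A.card : ℝ) ^ 2 with hn2
  have hn20 : 0 ≤ n2 := by positivity
  set θ : ℝ := min (1 / 2) (ε * V / (8 * (Jm + 1))) with hθ
  have hθ0 : 0 < θ := lt_min (by norm_num) (by positivity)
  have hθ1 : θ ≤ 1 / 2 := min_le_left _ _
  have c1 : 2 * θ * Jm / V ≤ ε / 4 := by
    have h4 : θ ≤ ε * V / (8 * (Jm + 1)) := min_le_right _ _
    rw [div_le_iff₀ hV]
    rw [le_div_iff₀ (by positivity)] at h4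
    nlinarith
  set ε2 : ℝ := ε / (8 * (Jm + 1)) with hε2
  have hε20 : 0 < ε2 := by positivity
  have c2 : 2 * (ε2 * Jm) ≤ ε / 4 := by
    have h4 : ε2 * (8 * (Jm + 1)) = ε := by rw [hε2]; field_simp
    nlinarith
  set ε1 : ℝ := ε / (8 * (n2 + 1)) with hε1
  have hε10 : 0 < ε1 := by positivity
  have c3 : 2 * (n2 * ε1) ≤ ε / 4 := by
    have h4 : ε1 * (8 * (n2 + 1)) = ε := by rw [hε1]; field_simp
    nlinarith
  obtain ⟨G, hGsm, hGcs, hG0, hG1, hGz, hGD⟩ := h2 V ε2 hV hε20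
  have hDge := DD_ge V hV G hGsm hGcs hG0 hGz
  -- thresholds
  have hz : ∀ (i : Fin (K0 + 1)) (j0 : Fin K0) (a b : Fin (K0 + 1) → Fin B), ∃ z : ℕ, a ∈ A → b ∈ A →
    ∀ᶠ X : ℝ in atTop, ∀ (W : ℕ) (E : Finset ℕ) (a0 : ℕ) (t : Fin (K0 + 1) → ℕ) (T0 : ℝ),
      CW X z W E → DT E t →
      (∀ j, (t j : ℝ) ≤ T0) → T0 ≤ X / 2 → ((a0 + t i).Coprime W) →
      ∀ Bc : ℕ → ℕ, (∀ q, 1 ≤ q → ∀ b' : ℕ, b'.Coprime (W * q) →
        |EPhi X (W * q) b'| ≤ |EPhi X (W * q) (Bc q)|) →
      |∑ n ∈ Icc 1 ⌊3 * X⌋₊, nu X W a0 n * th (n + t i) * PRG E X f G a b i j0 t (n + t i) -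
        (LPhi X * (1 / (W.totient : ℝ))) * (1 / (LL X * BE E) ^ K0) *
          (DD G G * ∏ j ∈ (univ : Finset (Fin K0)).erase j0, DD (f (a (i.succAbove j))) (f (b (i.succAbove j))))| ≤
      (LPhi X * (1 / (W.totient : ℝ))) * (1 / (LL X * BE E) ^ K0) * ε1 +
        (BVt ((V + ρ) / 100) K0 X W Bc + Real.exp (2 * (V + ρ) * LL X) *
          ((4 * T0) * Real.log (4 * X) + 4 * Real.sqrt X * Real.log (4 * X))) := by
    intro i j0 a b
    by_cases ha : a ∈ A ∧ b ∈ A
    · obtain ⟨z, hz⟩ := h1 f c G V ρ hsm hcs hf0 hc hf1 hGsm hGcs hG1 hGz hV hρ hVρ ε1 hε10 a b i j0 (hA a ha.1) (hA b ha.2)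
      exact ⟨z, fun _ _ => hz⟩
    · exact ⟨0, fun h5 h6 => absurd ⟨h5, h6⟩ ha⟩
  choose zf hzf using hz
  set z : ℕ := univ.sup fun i => univ.sup fun j0 => A.sup fun a => A.sup fun b => zf i j0 a b with hzdef
  have hzle : ∀ i j0 a b, a ∈ A → b ∈ A → zf i j0 a b ≤ z := by
    intro i j0 a b ha hb
    refine le_trans ?_ (Finset.le_sup (f := fun i => univ.sup fun j0 => A.sup fun a => A.sup fun b => zf i j0 a b) (mem_univ i))
    refine le_trans ?_ (Finset.le_sup (f := fun j0 => A.sup fun a => A.sup fun b => zf i j0 a b) (mem_univ j0))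
    refine le_trans ?_ (Finset.le_sup (f := fun a => A.sup fun b => zf i j0 a b) ha)
    exact Finset.le_sup (f := fun b => zf i j0 a b) hb
  have hev : ∀ᶠ X : ℝ in atTop, ∀ i j0, ∀ a ∈ A, ∀ b ∈ A,
    ∀ (W : ℕ) (E : Finset ℕ) (a0 : ℕ) (t : Fin (K0 + 1) → ℕ) (T0 : ℝ),
      CW X (zf i j0 a b) W E → DT E t →
      (∀ j, (t j : ℝ) ≤ T0) → T0 ≤ X / 2 → ((a0 + t i).Coprime W) →
      ∀ Bc : ℕ → ℕ, (∀ q, 1 ≤ q → ∀ b' : ℕ, b'.Coprime (W * q) →
        |EPhi X (W * q) b'| ≤ |EPhi X (W * q) (Bc q)|) →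
      |∑ n ∈ Icc 1 ⌊3 * X⌋₊, nu X W a0 n * th (n + t i) * PRG E X f G a b i j0 t (n + t i) -
        (LPhi X * (1 / (W.totient : ℝ))) * (1 / (LL X * BE E) ^ K0) *
          (DD G G * ∏ j ∈ (univ : Finset (Fin K0)).erase j0, DD (f (a (i.succAbove j))) (f (b (i.succAbove j))))| ≤
      (LPhi X * (1 / (W.totient : ℝ))) * (1 / (LL X * BE E) ^ K0) * ε1 +
        (BVt ((V + ρ) / 100) K0 X W Bc + Real.exp (2 * (V + ρ) * LL X) *
          ((4 * T0) * Real.log (4 * X) + 4 * Real.sqrt X * Real.log (4 * X))) := by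
    rw [Filter.eventually_all]; intro i
    rw [Filter.eventually_all]; intro j0
    rw [Filter.eventually_all_finset]; intro a ha
    rw [Filter.eventually_all_finset]; intro b hb
    exact hzf i j0 a b ha hb
  refine ⟨θ, hθ0, z, ?_⟩
  have hRGX : ∀ᶠ X : ℝ in atTop, (RG X : ℝ) < X := by
    filter_upwards [eventually_gt_atTop 1] with X h5
    have hlog : 0 < Real.log X := Real.log_pos h5
    calc (RG X : ℝ) ≤ Real.exp (50 * LL X) := Nat.floor_le (Real.exp_pos _).le
      _ < Real.exp (Real.log X) := by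
          apply Real.exp_lt_exp.2
          unfold LL
          linarith
      _ = X := Real.exp_log (by linarith)
  filter_upwards [hev, ratio K0 θ hθ0 (by linarith), h3 ((V + ρ) / 100) hv0 hv1 K0 (K0 + 1 + 4),
    err_small' (V + ρ) hVρ (K0 + 1) n2 (ε / 4) hn20 (by positivity), hRGX, eventually_ge_atTop 16,
    LL_tendsto.eventually_ge_atTop 2, ev_pow_exp 3 (1 / 700) 1 (by norm_num) |>
      (fun h => Real.tendsto_log_atTop.eventually h)] with X g1 g2 g3 g4 g5 g6 g7 g8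
  intro W E a0 t hC i j0
  have hX0 : 0 < X := by linarith
  have hL0 : 0 < LL X := by linarith
  have hW0 : 0 < W := hC.cs.pos
  have hWle : (W : ℝ) ≤ Real.exp (Real.log X / 700) := by
    refine hC.cs.le.trans ?_
    rw [one_mul] at g8
    calc Real.log X ^ 3 ≤ Real.exp (1 / 700 * Real.log X) := g8
      _ = _ := by ring_nf
  have hsqrt : Real.sqrt X ≤ X / 2 := sqrt_half g6
  have hCW : ∀ z', z' ≤ z → CW X z' W E := fun z' hz' =>
    ⟨(hC.cs.gs.toGE (by linarith)).mono hz', hW0, hWle, hC.cs.dv⟩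
  obtain ⟨hP0, hr⟩ := g2 W E hW0 hC.cs.gs.pr hC.b1 hC.b2
  obtain ⟨Bc, hBc1, hBc2⟩ := Bc_exists X W hW0
  have s3 := g3 W hC.sq hC.cs.le Bc hBc1
  have s4 := g4 W E (BVt ((V + ρ) / 100) K0 X W Bc) hW0 hC.cs.le hC.cs.gs.pr s3
  set P := LL X * QQ (K0 + 1) X W E with hPdef
  set M := (LPhi X * (1 / (W.totient : ℝ))) * (1 / (LL X * BE E) ^ K0) with hM
  set Er := BVt ((V + ρ) / 100) K0 X W Bc + Real.exp (2 * (V + ρ) * LL X) *
          ((4 * Real.sqrt X) * Real.log (4 * X) + 4 * Real.sqrt X * Real.log (4 * X)) with hEr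
  -- the theta sum
  set T := ∑ n ∈ Icc 1 ⌊3 * X⌋₊, nu X W a0 n * th (n + t i) * Sq E X f G A i j0 t (n + t i) with hT
  have hTle : T ≤ M * (DD G G * JJ2 f A i j0) + n2 * (M * ε1 + Er) := by
    have e1 : T = ∑ a ∈ A, ∑ b ∈ A, (f (a i) 0 * f (b i) 0) * (f (a (i.succAbove j0)) 0 * f (b (i.succAbove j0)) 0) *
        ∑ n ∈ Icc 1 ⌊3 * X⌋₊, nu X W a0 n * th (n + t i) * PRG E X f G a b i j0 t (n + t i) := by
      rw [hT]
      unfold Sq
      simp_rw [Finset.mul_sum]
      rw [Finset.sum_comm]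
      refine Finset.sum_congr rfl fun a _ => ?_
      rw [Finset.sum_comm]
      refine Finset.sum_congr rfl fun b _ => ?_
      refine Finset.sum_congr rfl fun n _ => ?_
      ring
    have e2 : ∀ a ∈ A, ∀ b ∈ A, (f (a i) 0 * f (b i) 0) * (f (a (i.succAbove j0)) 0 * f (b (i.succAbove j0)) 0) *
        ∑ n ∈ Icc 1 ⌊3 * X⌋₊, nu X W a0 n * th (n + t i) * PRG E X f G a b i j0 t (n + t i) ≤
        M * (DD G G * ((f (a i) 0 * f (b i) 0) * (f (a (i.succAbove j0)) 0 * f (b (i.succAbove j0)) 0) *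
          ∏ j ∈ (univ : Finset (Fin K0)).erase j0, DD (f (a (i.succAbove j))) (f (b (i.succAbove j))))) +
        (M * ε1 + Er) := by
      intro a ha b hb
      have k1 := g1 i j0 a ha b hb W E a0 t (Real.sqrt X) (hCW _ (hzle i j0 a b ha hb)) hC.dt hC.tl hsqrt (hC.cp i) Bc hBc2
      rw [← hM, ← hEr] at k1
      set S := ∑ n ∈ Icc 1 ⌊3 * X⌋₊, nu X W a0 n * th (n + t i) * PRG E X f G a b i j0 t (n + t i)
      set Pr := ∏ j ∈ (univ : Finset (Fin K0)).erase j0, DD (f (a (i.succAbove j))) (f (b (i.succAbove j)))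
      set co := (f (a i) 0 * f (b i) 0) * (f (a (i.succAbove j0)) 0 * f (b (i.succAbove j0)) 0) with hco
      have k2 : |co| ≤ 1 := by
        have hm : ∀ x y : ℝ, |x| ≤ 1 → |y| ≤ 1 → |x * y| ≤ 1 := fun x y hx hy => by
          rw [abs_mul]
          calc |x| * |y| ≤ 1 * 1 := mul_le_mul hx hy (abs_nonneg _) zero_le_one
            _ = 1 := one_mul 1
        exact hm _ _ (hm _ _ (hf1 _ _) (hf1 _ _)) (hm _ _ (hf1 _ _) (hf1 _ _))
      have k3 : |co * (S - M * (DD G G * Pr))| ≤ M * ε1 + Er := by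
        rw [abs_mul]
        calc |co| * |S - M * (DD G G * Pr)| ≤ 1 * (M * ε1 + Er) := mul_le_mul k2 k1 (abs_nonneg _) zero_le_one
          _ = _ := one_mul _
      have k4 := (abs_le.1 k3).2
      have k5 : co * (S - M * (DD G G * Pr)) = co * S - M * (DD G G * (co * Pr)) := by ring
      linarith
    rw [e1]
    refine (Finset.sum_le_sum fun a ha => Finset.sum_le_sum fun b hb => e2 a ha b hb).trans (le_of_eq ?_)
    simp_rw [Finset.sum_add_distrib, ← Finset.mul_sum, Finset.sum_const, nsmul_eq_mul]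
    unfold JJ2
    rw [hn2]
    ring
  have hfin := final_alg hV hP0 hr hθ0.le (by linarith) (hJle i j0) hDge hGD hn20 hε10.le hε20.le c1 c2 c3 s4 hTle
  -- pointwise comparison
  have hpt : ∀ n ∈ Icc 1 ⌊3 * X⌋₊, nu X W a0 n *
      (if (n + t i).Prime ∧ (n + t (i.succAbove j0)).Prime then sqw E X f A (fun j => (n : ℤ) + t j) ^ 2 else 0) ≤
      (1 / (200 * LL X)) * (nu X W a0 n * th (n + t i) * Sq E X f G A i j0 t (n + t i)) := by
    intro n _
    have hnu := nu_nonneg X W a0 n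
    have hSq := Sq_nonneg E X f G A i j0 t (n + t i)
    have hrhs : 0 ≤ (1 / (200 * LL X)) * (nu X W a0 n * th (n + t i) * Sq E X f G A i j0 t (n + t i)) := by
      have := th_nonneg (n + t i)
      positivity
    by_cases hz : nu X W a0 n = 0
    · rw [hz, zero_mul]
      rw [hz] at hrhs
      exact hrhs
    split_ifs with hp
    · have hXn : X < n := by
        by_contra hle
        push Not at hle
        apply hz
        unfold nu
        rw [Phi_eq_zero_of_le (by positivity) (by rw [div_le_one (by linarith)]; exact hle), ite_self]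
      have hRn : RG X < n := by
        have : (RG X : ℝ) < n := g5.trans hXn
        exact_mod_cast this
      rw [sqw_eq_Sq E X f G A i j0 t n g7 (fun l x hx => hf0 l x ((hc l).2.trans_lt hx)) hG0 hp.1 hp.2
        (by omega) (by omega)]
      have hth : 200 * LL X ≤ th (n + t i) := by
        unfold th
        rw [if_pos hp.1]
        have e1 : 200 * LL X = Real.log X := by unfold LL; ring
        rw [e1]
        apply Real.log_le_log hX0
        push_cast
        have : (0:ℝ) ≤ t i := Nat.cast_nonneg _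
        linarith
      have e2 : 1 ≤ (1 / (200 * LL X)) * th (n + t i) := by
        rw [one_div, ← div_eq_inv_mul, le_div_iff₀ (by positivity), one_mul]
        exact hth
      calc nu X W a0 n * Sq E X f G A i j0 t (n + t i) = 1 * (nu X W a0 n * Sq E X f G A i j0 t (n + t i)) := by ring
        _ ≤ ((1 / (200 * LL X)) * th (n + t i)) * (nu X W a0 n * Sq E X f G A i j0 t (n + t i)) :=
            mul_le_mul_of_nonneg_right e2 (by positivity)
        _ = _ := by ring
    · rw [mul_zero]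
      exact hrhs
  refine (Finset.sum_le_sum hpt).trans ?_
  rw [← Finset.mul_sum, ← hT]
  calc 1 / (200 * LL X) * T ≤ 1 / (200 * LL X) * (P * (JJ2 f A i j0 / V + ε)) :=
        mul_le_mul_of_nonneg_left hfin (by positivity)
    _ = (JJ2 f A i j0 / V + ε) / 200 * QQ (K0 + 1) X W E := by
        rw [hPdef]
        field_simp

end Pool.Agent.H362R2.QT
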