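import Pool.Agent.H362R2.QT.Stubs

/-!
Task PRG: the sieve sum with one long test function.
-/

set_option autoImplicit false

open Finset Filter Topology
open scoped ContDiff

namespace Pool.Agent.H362R2.QT

open Pool.Agent.H378R2 Pool.Agent.H387R2 Pool.Agent.H387R2.MB

namespace PRGaux

/-- the sieve limit is as long as it should be -/
lemma log_RG_ge {X : ℝ} (h : 1 ≤ LL X) : 50 * LL X - Real.log 2 ≤ Real.log (RG X) := by
  have hl2 : 0 < Real.log 2 := Real.log_pos (by norm_num)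
  have hl2' : Real.log 2 ≤ 1 := by
    have := Real.log_two_lt_d9
    linarith
  set y := Real.exp (50 * LL X) with hy
  have hy2 : 2 ≤ y := by
    have := Real.add_one_le_exp (50 * LL X)
    linarith
  have h1 : y - 1 < (⌊y⌋₊ : ℝ) := by
    have := Nat.lt_floor_add_one y
    linarith
  have h2 : y / 2 ≤ (RG X : ℝ) := by
    unfold RG
    rw [← hy]
    linarith
  have h3 : Real.log (y / 2) = 50 * LL X - Real.log 2 := by
    rw [Real.log_div (by positivity) (by norm_num), hy, Real.log_exp]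
  rw [← h3]
  exact Real.log_le_log (by positivity) h2

/-- asymptotics of the sieve sum with the limit `RG` -/
theorem asympRG (J : ℕ) (F G : Fin J → ℝ → ℝ) (v : ℝ) (hv : v < 50)
    (hF : ∀ j, ContDiff ℝ ∞ (F j)) (hG : ∀ j, ContDiff ℝ ∞ (G j))
    (hFc : ∀ j, HasCompactSupport (F j)) (hGc : ∀ j, HasCompactSupport (G j))
    (hF0 : ∀ j x, v < x → F j x = 0) (hG0 : ∀ j x, v < x → G j x = 0)
    (ε : ℝ) (hε : 0 < ε) :
    ∃ z : ℕ, ∀ᶠ X : ℝ in atTop, ∀ (E : Fin J → Finset ℕ) (w : ℕ → Fin J → ℝ),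
      (∀ j, GE X z (E j)) →
      (∀ j, ∀ p : ℕ, p.Prime → |w p j - 1 / p| ≤ 2 / (p : ℝ) ^ 2) →
      |(∏ j, (LL X * BE (E j))) * sieveSum J F G (LL X) E w (RG X) - ∏ j, DD (F j) (G j)| ≤ ε := by
  obtain ⟨δ, hδ, h⟩ := sieve_asymp J F G hF hG hFc hGc ε hε
  refine ⟨⌈1 / δ⌉₊, ?_⟩
  have e1 := LL_tendsto.eventually_ge_atTop (1 / δ)
  have e2 := LL_tendsto.eventually_ge_atTop 1
  have e3 := LL_tendsto.eventually_ge_atTop (1 / (50 - v))
  filter_upwards [e1, e2, e3] with X h1 h2 h3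
  intro E w hE hw
  apply h (LL X) E w (RG X) h1
  · intro j x hx
    have h6 : v < x := by
      refine lt_of_le_of_lt ?_ hx
      have h7 : 0 < 50 - v := by linarith
      rw [le_div_iff₀ (by linarith)]
      rw [div_le_iff₀ h7] at h3
      have h8 := log_RG_ge h2
      have h9 : Real.log 2 ≤ 1 := by
        have := Real.log_two_lt_d9
        linarith
      nlinarith
    exact ⟨hF0 j x h6, hG0 j x h6⟩
  · intro j p hp
    exact (hE j).pr p hp
  · intro j p hp hpl
    apply (hE j).sm p hp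
    exact_mod_cast hpl.trans (Nat.le_ceil (1 / δ))
  · intro j; exact (hE j).s1
  · intro j; exact (hE j).s2
  · intro j p hp _
    exact hw j p hp

/-- size of a product of truncated divisor sums -/
theorem prod_le {K : ℕ} (E : Finset ℕ) (R : ℕ) (L : ℝ) (hL : 0 < L) (F G : Fin K → ℝ → ℝ)
    (cF cG : Fin K → ℝ) (hF0 : ∀ j x, cF j < x → F j x = 0) (hG0 : ∀ j x, cG j < x → G j x = 0)
    (hF1 : ∀ j x, |F j x| ≤ 1) (hG1 : ∀ j x, |G j x| ≤ 1) (S : ℝ)
    (hsum : ∑ j, cF j + ∑ j, cG j ≤ S) (x : Fin K → ℤ) :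
    |∏ j, (VVm E R L (F j) (x j) * VVm E R L (G j) (x j))| ≤ Real.exp (S * L) := by
  rw [Finset.abs_prod]
  have h1 : ∀ j, |VVm E R L (F j) (x j) * VVm E R L (G j) (x j)| ≤
      Real.exp (L * cF j) * Real.exp (L * cG j) := by
    intro j
    rw [abs_mul]
    apply mul_le_mul (VV_abs_le E R L hL _ _ (hF1 _) (hF0 _) _) (VV_abs_le E R L hL _ _ (hG1 _) (hG0 _) _)
      (abs_nonneg _) (Real.exp_pos _).le
  refine (Finset.prod_le_prod (fun j _ => abs_nonneg _) (fun j _ => h1 j)).trans ?_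
  rw [Finset.prod_mul_distrib, ← Real.exp_sum, ← Real.exp_sum, ← Real.exp_add, ← Finset.mul_sum, ← Finset.mul_sum]
  apply Real.exp_le_exp.2
  nlinarith

lemma exp_LL (X v : ℝ) (hX : 0 < X) : Real.exp (2 * v * LL X) = X ^ (v / 100) := by
  rw [Real.rpow_def_of_pos hX]
  congr 1
  unfold LL
  ring

lemma sum_ite_le {K0 B : ℕ} (c : Fin B → ℝ) (hc : ∀ l, 0 ≤ c l) (V ρ : ℝ) (a : Fin (K0 + 1) → Fin B)
    (i : Fin (K0 + 1)) (j0 : Fin K0) (ha : ∑ j, c (a j) ≤ ρ) :
    ∑ j : Fin K0, (if j = j0 then V else c (a (i.succAbove j))) ≤ V + ρ := by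
  have h1 : ∑ j : Fin K0, (if j = j0 then V else c (a (i.succAbove j))) ≤
      ∑ j : Fin K0, ((if j = j0 then V else 0) + c (a (i.succAbove j))) := by
    refine Finset.sum_le_sum fun j _ => ?_
    have := hc (a (i.succAbove j))
    split_ifs <;> linarith
  rw [Finset.sum_add_distrib, Finset.sum_ite_eq' univ j0, if_pos (Finset.mem_univ _)] at h1
  have h2 := sum_succAbove_le c hc a i
  linarith

end PRGaux

open PRGaux

theorem prg_holds : St_PRG := by
  intro K0 B f c G V ρ hsm hcs hf0 hc hf1 hGs hGc hG1 hG0 hV hρ hVρ ε1 hε1 a b i j0 ha hb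
  classical
  set FF : Fin K0 → ℝ → ℝ := fun j => if j = j0 then G else f (a (i.succAbove j)) with hFF
  set GG : Fin K0 → ℝ → ℝ := fun j => if j = j0 then G else f (b (i.succAbove j)) with hGG
  set cF : Fin K0 → ℝ := fun j => if j = j0 then V else c (a (i.succAbove j)) with hcF
  set cG : Fin K0 → ℝ := fun j => if j = j0 then V else c (b (i.succAbove j)) with hcG
  have hFs : ∀ j, ContDiff ℝ ∞ (FF j) := by
    intro j; simp only [hFF]; split_ifs
    · exact hGs
    · exact hsm _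
  have hGGs : ∀ j, ContDiff ℝ ∞ (GG j) := by
    intro j; simp only [hGG]; split_ifs
    · exact hGs
    · exact hsm _
  have hFc : ∀ j, HasCompactSupport (FF j) := by
    intro j; simp only [hFF]; split_ifs
    · exact hGc
    · exact hcs _
  have hGGc : ∀ j, HasCompactSupport (GG j) := by
    intro j; simp only [hGG]; split_ifs
    · exact hGc
    · exact hcs _
  have hF1 : ∀ j x, |FF j x| ≤ 1 := by
    intro j x; simp only [hFF]; split_ifs
    · exact hG1 x
    · exact hf1 _ x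
  have hGG1 : ∀ j x, |GG j x| ≤ 1 := by
    intro j x; simp only [hGG]; split_ifs
    · exact hG1 x
    · exact hf1 _ x
  have hF0 : ∀ j x, cF j < x → FF j x = 0 := by
    intro j x hx; simp only [hFF, hcF] at hx ⊢
    split_ifs at hx ⊢
    · exact hG0 x hx
    · exact hf0 _ x hx
  have hGG0 : ∀ j x, cG j < x → GG j x = 0 := by
    intro j x hx; simp only [hGG, hcG] at hx ⊢
    split_ifs at hx ⊢
    · exact hG0 x hx
    · exact hf0 _ x hx
  have hcFle : ∀ j, cF j ≤ max V (1 / 2) := by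
    intro j; simp only [hcF]; split_ifs
    · exact le_max_left _ _
    · exact (hc _).2.trans (le_max_right _ _)
  have hcGle : ∀ j, cG j ≤ max V (1 / 2) := by
    intro j; simp only [hcG]; split_ifs
    · exact le_max_left _ _
    · exact (hc _).2.trans (le_max_right _ _)
  have hmax : max V (1 / 2) < 50 := max_lt (by linarith) (by norm_num)
  obtain ⟨z, hev⟩ := asympRG K0 FF GG (max V (1 / 2)) hmax hFs hGGs hFc hGGc
    (fun j x hx => hF0 j x ((hcFle j).trans_lt hx)) (fun j x hx => hGG0 j x ((hcGle j).trans_lt hx)) ε1 hε1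
  refine ⟨z, ?_⟩
  filter_upwards [hev, eventually_ge_atTop 4, LL_tendsto.eventually_ge_atTop 1] with X h1 h4 h6
  intro W E a0 t T0 hC ht htT hT0 hcop Bc hBc
  have hWpos : 0 < W := hC.pos
  have hBE : 0 < BE E := BE_pos hC.ge.pr
  have hLB : 0 < LL X * BE E := by positivity
  have hsum : ∑ j, cF j + ∑ j, cG j ≤ 2 * (V + ρ) := by
    have := sum_ite_le c (fun l => (hc l).1) V ρ a i j0 ha
    have := sum_ite_le c (fun l => (hc l).1) V ρ b i j0 hb
    linarith
  -- step 1 : shift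
  have hPR : ∀ n : ℕ, PRG E X f G a b i j0 t n = ∏ j : Fin K0,
      (VVm E (RG X) (LL X) (FF j) ((n : ℤ) + ((t (i.succAbove j) : ℤ) - t i)) *
        VVm E (RG X) (LL X) (GG j) ((n : ℤ) + ((t (i.succAbove j) : ℤ) - t i))) := fun n => rfl
  have s1 := shift_bound X h4 W a0 (t i) ((htT i).trans hT0) (PRG E X f G a b i j0 t)
    (Real.exp (2 * (V + ρ) * LL X)) (fun n => by
        rw [hPR]
        exact prod_le E (RG X) (LL X) (by linarith) FF GG cF cG hF0 hGG0 hF1 hGG1 (2 * (V + ρ)) hsum _)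
  -- step 2 : sieve
  have s2 := sum2 X W W (a0 + t i) hWpos hcop FF GG
    (LL X) 1 (by linarith) zero_le_one cF cG hF1 hGG1 hF0 hGG0 (fun _ => E) (RG X)
    (fun j => (t (i.succAbove j) : ℤ) - t i)
    (fun _ p hp h => hC.dv p hp h)
    (fun _ p hp h => hC.dv p hp h)
    (fun j p hp h => ht _ _ (Fin.succAbove_ne i j) p hp h)
    (by
      intro j k hjk p hp hpE _ n hh
      have hne : i.succAbove j ≠ i.succAbove k := fun h => hjk (Fin.succAbove_right_injective h)
      apply ht _ _ hne p hp hpE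
      have := dvd_sub hh.1 hh.2
      have h8 : (n : ℤ) + ((t (i.succAbove j) : ℤ) - t i) - (n + ((t (i.succAbove k) : ℤ) - t i)) =
        t (i.succAbove j) - t (i.succAbove k) := by ring
      rwa [h8] at this)
    Bc hBc
  have s3 : ∑ n ∈ Icc 1 ⌊3 * X⌋₊, (if n ≡ a0 + t i [MOD W] then Phi (n / X) * ArithmeticFunction.vonMangoldt n else 0) *
      PRG E X f G a b i j0 t n =
      ∑ n ∈ Icc 1 ⌊3 * X⌋₊, (if n ≡ a0 + t i [MOD W] then Phi (n / X) * ArithmeticFunction.vonMangoldt n else 0) *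
        ∏ j : Fin K0, (VVm E (RG X) (LL X) (FF j) (n + ((t (i.succAbove j) : ℤ) - t i)) *
          VVm E (RG X) (LL X) (GG j) (n + ((t (i.succAbove j) : ℤ) - t i))) := rfl
  rw [← s3] at s2
  have s4 : (1 : ℝ) ^ (2 * K0) * ∑ q ∈ (Icc 1 ⌊Real.exp (LL X * (∑ j, cF j + ∑ j, cG j))⌋₊).filter
      (fun q => Squarefree q ∧ q.Coprime W), (q.divisors.card : ℝ) ^ (2 * K0) * |EPhi X (W * q) (Bc q)| ≤
      BVt ((V + ρ) / 100) K0 X W Bc := by
    rw [one_pow, one_mul]
    unfold BVt
    apply Finset.sum_le_sum_of_subset_of_nonneg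
    · apply Finset.filter_subset_filter
      apply Finset.Icc_subset_Icc le_rfl
      apply Nat.floor_le_floor
      rw [← exp_LL X (V + ρ) (by linarith)]
      apply Real.exp_le_exp.2
      nlinarith
    · intro q _ _
      positivity
  -- step 3 : asymptotics
  have s5 := h1 (fun _ => E) (fun p _ => 1 / ((p : ℝ) - 1)) (fun _ => hC.ge) (fun _ p hp => w_two hp)
  have k3 : ∏ j : Fin K0, (LL X * BE E) = (LL X * BE E) ^ K0 := by
    rw [Finset.prod_const, Finset.card_univ, Fintype.card_fin]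
  rw [k3] at s5
  have hD0 : ∏ j, DD (FF j) (GG j) = DD G G * ∏ j ∈ (univ : Finset (Fin K0)).erase j0,
      DD (f (a (i.succAbove j))) (f (b (i.succAbove j))) := by
    rw [← Finset.mul_prod_erase univ _ (Finset.mem_univ j0)]
    congr 1
    · simp only [hFF, hGG, if_true]
    · refine Finset.prod_congr rfl fun j hj => ?_
      have hne := Finset.ne_of_mem_erase hj
      simp only [hFF, hGG, if_neg hne]
  rw [hD0] at s5
  set SS := sieveSum K0 FF GG (LL X) (fun _ => E) (fun p _ => 1 / ((p : ℝ) - 1)) (RG X)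
  set D := DD G G * ∏ j ∈ (univ : Finset (Fin K0)).erase j0,
      DD (f (a (i.succAbove j))) (f (b (i.succAbove j))) with hD
  have hLP : 0 ≤ LPhi X * (1 / (W.totient : ℝ)) := by
    apply mul_nonneg
    · unfold LPhi
      exact Finset.sum_nonneg fun n _ => mul_nonneg (Phi_nonneg _) ArithmeticFunction.vonMangoldt_nonneg
    · positivity
  have s6 : |(LPhi X * (1 / (W.totient : ℝ))) * SS -
      (LPhi X * (1 / (W.totient : ℝ))) * (1 / (LL X * BE E) ^ K0) * D| ≤
      (LPhi X * (1 / (W.totient : ℝ))) * (1 / (LL X * BE E) ^ K0) * ε1 := by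
    have : (LPhi X * (1 / (W.totient : ℝ))) * SS -
      (LPhi X * (1 / (W.totient : ℝ))) * (1 / (LL X * BE E) ^ K0) * D =
      (LPhi X * (1 / (W.totient : ℝ))) * (1 / (LL X * BE E) ^ K0) * ((LL X * BE E) ^ K0 * SS - D) := by
      field_simp
    rw [this, abs_mul, abs_of_nonneg (by positivity)]
    exact mul_le_mul_of_nonneg_left s5 (by positivity)
  have s7 : Real.exp (2 * (V + ρ) * LL X) * ((4 * (t i : ℝ)) * Real.log (4 * X) + 4 * Real.sqrt X * Real.log (4 * X)) ≤
      Real.exp (2 * (V + ρ) * LL X) * ((4 * T0) * Real.log (4 * X) + 4 * Real.sqrt X * Real.log (4 * X)) := by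
    have hti : (t i : ℝ) ≤ T0 := htT i
    have hl : 0 ≤ Real.log (4 * X) := Real.log_nonneg (by linarith)
    gcongr
  have s8 := abs_le.1 s1
  have s9 := abs_le.1 s2
  have s10 := abs_le.1 s6
  rw [abs_le]
  constructor <;> linarith [s8.1, s8.2, s9.1, s9.2, s10.1, s10.2, s4, s7]

end Pool.Agent.H362R2.QT
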