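import Pool.Agent.H362R2.QT.Stubs

/-!
Project QT (helper362), task RAMP (helper479): smooth approximations of the linear ramp.
-/

set_option autoImplicit false

open Finset Filter Topology
open scoped ContDiff

namespace Pool.Agent.H362R2.QT

open Pool.Agent.H378R2 Pool.Agent.H387R2 Pool.Agent.H387R2.MB

theorem RAMP : St_RAMP := by
  intro V ε hV hε
  have h1V : 1 < 1 + ε * V := by nlinarith [mul_pos hε hV]
  have hr0 : 0 < V / (2 * (1 + ε * V)) := by positivity
  have hr1 : V / (2 * (1 + ε * V)) < V / 2 := by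
    apply div_lt_div_of_pos_left hV (by norm_num)
    linarith
  let b : ContDiffBump (V / 2 : ℝ) := ⟨V / (2 * (1 + ε * V)), V / 2, hr0, hr1⟩
  have hbout : b.rOut = V / 2 := rfl
  have hbin : b.rIn = V / (2 * (1 + ε * V)) := rfl
  have hbc : Continuous (fun x => b x) := b.continuous
  have hb0 : ∀ x, 0 ≤ b x := fun x => b.nonneg
  have hb1 : ∀ x, b x ≤ 1 := fun x => b.le_one
  have hbl : ∀ x, x ≤ 0 → b x = 0 := by
    intro x hx
    apply b.zero_of_le_dist
    rw [hbout, Real.dist_eq, abs_sub_comm, abs_of_nonneg (by linarith)]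
    linarith
  have hbr : ∀ x, V ≤ x → b x = 0 := by
    intro x hx
    apply b.zero_of_le_dist
    rw [hbout, Real.dist_eq, abs_of_nonneg (by linarith)]
    linarith
  let F : ℝ → ℝ := fun x => ∫ t in (0:ℝ)..x, b t
  have hFd : ∀ x, HasDerivAt F (b x) x := fun x =>
    intervalIntegral.integral_hasDerivAt_right (hbc.intervalIntegrable _ _)
      (hbc.stronglyMeasurableAtFilter _ _) hbc.continuousAt
  have hFdiff : Differentiable ℝ F := fun x => (hFd x).differentiableAt
  have hFder : deriv F = fun x => b x := funext fun x => (hFd x).deriv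
  have hFs : ContDiff ℝ ∞ F := by
    rw [contDiff_infty_iff_deriv]
    refine ⟨hFdiff, ?_⟩
    rw [hFder]
    exact b.contDiff
  have hFm : Monotone F := by
    apply monotone_of_deriv_nonneg hFdiff
    intro x
    rw [hFder]
    exact hb0 x
  have hF0 : ∀ x, x ≤ 0 → F x = 0 := by
    intro x hx
    show ∫ t in (0:ℝ)..x, b t = 0
    have : ∫ t in (0:ℝ)..x, b t = ∫ t in (0:ℝ)..x, (0:ℝ) := by
      apply intervalIntegral.integral_congr
      intro t ht
      rw [Set.uIcc_of_ge hx] at ht
      exact hbl t ht.2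
    rw [this]
    simp
  set I : ℝ := F V with hI
  have hFV : ∀ x, V ≤ x → F x = I := by
    intro x hx
    have h1 : F V + ∫ t in V..x, b t = F x :=
      intervalIntegral.integral_add_adjacent_intervals (hbc.intervalIntegrable _ _)
        (hbc.intervalIntegrable _ _)
    have h2 : ∫ t in V..x, b t = ∫ t in V..x, (0:ℝ) := by
      apply intervalIntegral.integral_congr
      intro t ht
      rw [Set.uIcc_of_le hx] at ht
      exact hbr t ht.1
    rw [h2] at h1
    simp at h1
    exact h1.symm
  have hFnn : ∀ x, 0 ≤ F x := by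
    intro x
    rcases le_total x 0 with hx | hx
    · rw [hF0 x hx]
    · rw [← hF0 0 le_rfl]; exact hFm hx
  have hFle : ∀ x, F x ≤ I := by
    intro x
    rcases le_total V x with hx | hx
    · rw [hFV x hx]
    · exact hFm hx
  have hIge : V / (1 + ε * V) ≤ I := by
    have h1 : ∫ t in (V / 2 - V / (2 * (1 + ε * V)))..(V / 2 + V / (2 * (1 + ε * V))), b t =
        V / (1 + ε * V) := by
      have h2 : ∫ t in (V / 2 - V / (2 * (1 + ε * V)))..(V / 2 + V / (2 * (1 + ε * V))), b t =
          ∫ t in (V / 2 - V / (2 * (1 + ε * V)))..(V / 2 + V / (2 * (1 + ε * V))), (1:ℝ) := by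
        apply intervalIntegral.integral_congr
        intro t ht
        rw [Set.uIcc_of_le (by linarith)] at ht
        apply b.one_of_mem_closedBall
        rw [Metric.mem_closedBall, hbin, Real.dist_eq, abs_le]
        constructor <;> linarith [ht.1, ht.2]
      rw [h2]
      simp only [intervalIntegral.integral_const, smul_eq_mul, mul_one]
      field_simp
      ring
    have h3 : F (V / 2 - V / (2 * (1 + ε * V))) +
        ∫ t in (V / 2 - V / (2 * (1 + ε * V)))..(V / 2 + V / (2 * (1 + ε * V))), b t =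
        F (V / 2 + V / (2 * (1 + ε * V))) :=
      intervalIntegral.integral_add_adjacent_intervals (hbc.intervalIntegrable _ _)
        (hbc.intervalIntegrable _ _)
    have h4 := hFnn (V / 2 - V / (2 * (1 + ε * V)))
    have h5 := hFle (V / 2 + V / (2 * (1 + ε * V)))
    linarith
  have hI0 : 0 < I := lt_of_lt_of_le (by positivity) hIge
  let χ : ContDiffBump (0 : ℝ) := ⟨V + 1, V + 2, by linarith, by linarith⟩
  have hχin : χ.rIn = V + 1 := rfl
  have hχ1 : ∀ x, |x| ≤ V + 1 → χ x = 1 := by
    intro x hx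
    apply χ.one_of_mem_closedBall
    rw [Metric.mem_closedBall, hχin, Real.dist_eq, sub_zero]
    exact hx
  let G : ℝ → ℝ := fun x => (1 - F x / I) * χ x
  have hG0 : ∀ x, V ≤ x → G x = 0 := by
    intro x hx
    show (1 - F x / I) * χ x = 0
    rw [hFV x hx, div_self hI0.ne']
    simp
  have hGd : ∀ t, 0 < t → HasDerivAt G (-(b t / I)) t := by
    intro t ht
    rcases lt_or_ge t (V + 1) with h | h
    · have h1 : HasDerivAt (fun x => 1 - F x / I) (-(b t / I)) t := by
        have h2 := ((hFd t).div_const I).const_sub 1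
        exact h2
      refine h1.congr_of_eventuallyEq ?_
      filter_upwards [Ioo_mem_nhds ht h] with x hx
      show (1 - F x / I) * χ x = 1 - F x / I
      rw [hχ1 x (by rw [abs_of_pos hx.1]; exact hx.2.le), mul_one]
    · rw [hbr t (by linarith), zero_div, neg_zero]
      refine (hasDerivAt_const t (0:ℝ)).congr_of_eventuallyEq ?_
      filter_upwards [Ioi_mem_nhds (show V < t by linarith)] with x hx
      exact hG0 x (le_of_lt hx)
  refine ⟨G, ?_, ?_, ?_, ?_, fun x hx => hG0 x hx.le, ?_⟩
  · exact (contDiff_const.sub (hFs.div_const I)).mul χ.contDiff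
  · exact χ.hasCompactSupport.mul_left
  · show (1 - F 0 / I) * χ 0 = 1
    rw [hF0 0 le_rfl, hχ1 0 (by rw [abs_zero]; linarith)]
    simp
  · intro x
    show |(1 - F x / I) * χ x| ≤ 1
    have h1 : 0 ≤ F x / I := div_nonneg (hFnn x) hI0.le
    have h2 : F x / I ≤ 1 := (div_le_one hI0).mpr (hFle x)
    rw [abs_mul, abs_of_nonneg (by linarith : 0 ≤ 1 - F x / I), abs_of_nonneg χ.nonneg]
    have h3 : χ x ≤ 1 := χ.le_one
    have h4 : 0 ≤ χ x := χ.nonneg
    nlinarith
  · have hder : ∀ t ∈ Set.Ioi (0:ℝ), deriv G t * deriv G t = b t ^ 2 / I ^ 2 := by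
      intro t ht
      rw [(hGd t ht).deriv]
      ring
    have h1 : DD G G = ∫ t in Set.Ioi (0:ℝ), b t ^ 2 / I ^ 2 :=
      MeasureTheory.setIntegral_congr_fun measurableSet_Ioi hder
    have h2 : ∫ t in Set.Ioi (0:ℝ), b t ^ 2 / I ^ 2 = ∫ t in Set.Ioc (0:ℝ) V, b t ^ 2 / I ^ 2 := by
      apply MeasureTheory.setIntegral_eq_of_subset_of_forall_sdiff_eq_zero measurableSet_Ioi
        Set.Ioc_subset_Ioi_self
      intro t ht
      have h3 : V ≤ t := by
        by_contra hcon
        exact ht.2 ⟨ht.1, (not_le.mp hcon).le⟩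
      rw [hbr t h3]
      simp
    have h4 : ∫ t in Set.Ioc (0:ℝ) V, b t ^ 2 / I ^ 2 = ∫ t in (0:ℝ)..V, b t ^ 2 / I ^ 2 :=
      (intervalIntegral.integral_of_le hV.le).symm
    have h5 : ∫ t in (0:ℝ)..V, b t ^ 2 / I ^ 2 ≤ ∫ t in (0:ℝ)..V, b t / I ^ 2 := by
      apply intervalIntegral.integral_mono_on hV.le
      · exact ((hbc.pow 2).div_const _).intervalIntegrable _ _
      · exact (hbc.div_const _).intervalIntegrable _ _
      · intro t _
        apply div_le_div_of_nonneg_right _ (by positivity)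
        nlinarith [hb0 t, hb1 t]
    have h6 : ∫ t in (0:ℝ)..V, b t / I ^ 2 = I / I ^ 2 := by
      rw [intervalIntegral.integral_div]
    rw [h1, h2, h4]
    refine h5.trans ?_
    rw [h6]
    have h7 : I / I ^ 2 = 1 / I := by
      field_simp
    rw [h7, div_le_iff₀ hI0]
    have h8 : 1 / V + ε = (1 + ε * V) / V := by
      field_simp
    rw [h8]
    have h9 : (1 + ε * V) / V * (V / (1 + ε * V)) = 1 := by
      field_simp
    calc (1:ℝ) = (1 + ε * V) / V * (V / (1 + ε * V)) := h9.symm
      _ ≤ (1 + ε * V) / V * I := mul_le_mul_of_nonneg_left hIge (by positivity)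

end Pool.Agent.H362R2.QT
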