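import Mathlib
import Pool.Agent.H362R2.QT.Stubs
import Pool.Agent.H362R2.QT.SMa
import Pool.Agent.H362R2.CM.QLim

/-! St_SM -/

set_option autoImplicit false

namespace Pool.Agent.H362R2.QT

open Finset Filter Topology
open Pool.Agent.H378R2 Pool.Agent.H387R2 Pool.Agent.H387R2.MB

open Classical in
theorem dens4' (k : ℕ) (hk : 1 ≤ k) (ε : ℝ) (hε : 0 < ε) :
    ∃ m : ℕ, 1 ≤ m ∧ k + 1 ≤ 4 * m ∧ ∀ L : ℕ, 1 ≤ L → ∃ δ : ℝ, 0 < δ ∧ ∃ n0 : ℕ, ∀ (α : Type) (V : Finset α) (good : Finset α → Prop)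
      (Bad : Finset (Fin (4 * m) × Fin L → α)), n0 ≤ V.card → (Bad.card : ℝ) ≤ δ * (V.card : ℝ) ^ (4 * m * L) →
      (∀ A : Fin (4 * m) × Fin L → α, Function.Injective A → (∀ x, A x ∈ V) → A ∉ Bad →
        ∃ (S : Finset (Fin (4 * m))) (c : Fin (4 * m) → Fin L), m ≤ S.card ∧
          ∀ U ⊆ S.image (fun i => A (i, c i)), U.card = k + 1 → good U) →
      ((1 / 4 : ℝ) ^ k - ε) * (V.card.choose (k + 1)) ≤ ((V.powersetCard (k + 1)).filter good).card := by
  obtain ⟨m, hm1, hkm, q, hq1, hqe, hq⟩ := CM.qlim k hk (ε / 2) (by positivity)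
  refine ⟨m, hm1, hkm, fun L hL => ?_⟩
  obtain ⟨δ, hδ, n0, h⟩ := CM.dens k (4 * m) m L hk hm1 hkm hL q (ε / 2) hq1 (by positivity) hq
  refine ⟨δ, hδ, n0, fun α V good Bad hV hBad hP => ?_⟩
  refine le_trans ?_ (h α V good Bad hV hBad hP)
  apply mul_le_mul_of_nonneg_right _ (Nat.cast_nonneg _)
  linarith

lemma UU_add (r j : ℕ) (X : ℝ) (y : ℕ) : UU (r + j) X y = UU r X y / (LL X * rho y) ^ j := by
  unfold UU
  rw [pow_add]
  simp only [one_div, mul_inv]
  rw [div_eq_mul_inv]
  ring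

lemma r0_big (c D : ℝ) (hc : 0 < c) : ∀ᶠ N : ℕ in atTop, D ≤ c * rho ⌊Real.log (Real.log N)⌋₊ * Real.log N := by
  have tN : Tendsto (fun N : ℕ => (N : ℝ)) atTop atTop := tendsto_natCast_atTop_atTop
  have tL : Tendsto (fun N : ℕ => Real.log (N : ℝ)) atTop atTop := Real.tendsto_log_atTop.comp tN
  have tu : Tendsto (fun N : ℕ => Real.log (Real.log (N : ℝ))) atTop atTop := Real.tendsto_log_atTop.comp tL
  have ty : Tendsto (fun N : ℕ => ⌊Real.log (Real.log (N : ℝ))⌋₊) atTop atTop :=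
    tendsto_nat_floor_atTop.comp tu
  have e1 := tu.eventually (ev_pow_exp 1 1 (D / c) (by norm_num))
  filter_upwards [ty.eventually_ge_atTop 1, e1, tu.eventually_ge_atTop 1, tL.eventually_gt_atTop 0] with N h6 h7 h8 hlogN
  set y := ⌊Real.log (Real.log (N:ℝ))⌋₊ with hy
  set u := Real.log (Real.log (N:ℝ)) with hu
  have hu0 : 0 < u := by linarith
  have hyu : (y:ℝ) ≤ u := Nat.floor_le hu0.le
  have hy0 : (0:ℝ) < y := by exact_mod_cast h6
  have k1 : 1 / u ≤ rho y := le_trans (one_div_le_one_div_of_le hy0 hyu) (rho_ge h6)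
  have k2 : Real.log N = Real.exp u := by rw [hu, Real.exp_log hlogN]
  rw [pow_one, one_mul] at h7
  have k3 : D ≤ c * (1 / u) * Real.exp u := by
    have : D / c * u * (c / u) ≤ Real.exp u * (c / u) :=
      mul_le_mul_of_nonneg_right h7 (by positivity)
    have e : D / c * u * (c / u) = D := by field_simp
    rw [e] at this
    calc _ ≤ _ := this
      _ = _ := by ring
  rw [k2]
  refine k3.trans ?_
  gcongr

open Classical in
theorem SM (hLOW : St_LOW) : St_SM := by
  intro k ε lam hk hε hlam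
  obtain ⟨m, hm1, hkm, hdens⟩ := dens4' k hk ε hε
  obtain ⟨K', hK', δ, hδ, hδ2, c0, hc0, hlow⟩ := hLOW m hm1
  obtain ⟨δ', hδ', n0, hd⟩ := hdens K' hK'
  have hKr : k + 1 ≤ 4 * m * K' := hkm.trans (Nat.le_mul_of_pos_right _ hK')
  set J := 4 * m * K' - (k + 1) with hJ
  obtain ⟨C1, hC1, hupp1⟩ := upp_eventually (k + 1) hδ
  obtain ⟨C2, hC2, hupp2⟩ := upp_eventually (k + 1 + 2 * J) hδ
  set D := Dc (k + 1) J * (C1 / lam ^ (2 * J) + C2) with hD
  have hD0 : 0 ≤ D := by
    have : 0 ≤ Dc (k + 1) J := by unfold Dc; positivity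
    positivity
  have hKpos : (0:ℝ) < ((4 * m * K' : ℕ) : ℝ) := by exact_mod_cast (by omega : 0 < 4 * m * K')
  set κ0 : ℝ := 2 * c0 * δ' / ((1 + D) * ((4 * m * K' : ℕ) : ℝ) ^ (k + 1)) with hκ0
  have hκ : 0 < κ0 := by positivity
  refine ⟨κ0 ^ 2, by positivity, fun C => ?_⟩
  have tN : Tendsto (fun N : ℕ => (N : ℝ)) atTop atTop := tendsto_natCast_atTop_atTop
  have tL : Tendsto (fun N : ℕ => Real.log (N : ℝ)) atTop atTop := Real.tendsto_log_atTop.comp tN
  have tX : Tendsto (fun N : ℕ => (N : ℝ) / 4) atTop atTop := tN.atTop_div_const (by norm_num)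
  filter_upwards [hlow C, hupp1 C, hupp2 C, (LL_tendsto.comp tX).eventually_ge_atTop 1, tX.eventually MPhi_big,
    tX.eventually_ge_atTop 4, r0_big lam n0 hlam, tL.eventually_gt_atTop 0] with N h1 h2 h3 h4 h5 h6 h7 h8
  set X := (N:ℝ) / 4 with hX
  set y := ⌊Real.log (Real.log (N:ℝ))⌋₊ with hy
  have hL0 : 0 < LL X := by
    have : 1 ≤ LL X := h4
    linarith
  have hρ := rho_pos y
  have hMP : 0 < MPhi X := lt_of_lt_of_le (by positivity) h5
  intro b S hSM hSc hScard
  have hn0 : n0 ≤ S.card := by exact_mod_cast h7.trans hScard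
  set g := LL X * rho y with hg
  have hg0 : 0 < g := by positivity
  have hW0 : (0:ℝ) < (Uni.WW y : ℝ) := by exact_mod_cast Uni.WW_pos y
  have hU : 0 < UU (k + 1) X y := by unfold UU; positivity
  have hsg : lam * g ≤ S.card := by
    refine le_trans ?_ hScard
    have : LL X ≤ Real.log N := by
      unfold LL
      have e1 : Real.log X ≤ Real.log N := Real.log_le_log (by linarith) (by
        have : (0:ℝ) ≤ N := Nat.cast_nonneg N
        rw [hX]; linarith)
      linarith
    calc lam * g = lam * rho y * LL X := by rw [hg]; ring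
      _ ≤ _ := mul_le_mul_of_nonneg_left this (by positivity)
  set Fail : Finset (Fin (4 * m) × Fin K' → ℕ) := (Fintype.piFinset (fun _ => S)).filter (fun A => Function.Injective A ∧
    ¬ ∃ (S' : Finset (Fin (4 * m))) (c : Fin (4 * m) → Fin K'), m ≤ S'.card ∧
          ∀ U ⊆ S'.image (fun i => A (i, c i)), U.card = k + 1 → GoodT (κ0 ^ 2) k N y b U) with hFail
  have hcardI : Fintype.card (Fin (4 * m) × Fin K') = k + 1 + J := by
    rw [Fintype.card_prod, Fintype.card_fin, Fintype.card_fin]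
    omega
  have hbound := absSM (ι := Fin (4 * m) × Fin K') (Icc 1 ⌊3 * X⌋₊) (fun n => nu X (Uni.WW y) b n)
    (fun n => nu_nonneg X _ b n) (fun n a => Rg δ X (n + a)) (fun n a => (n + a).Prime) S (k + 1) J hcardI
    (UU (k + 1) X y) g c0 C1 C2 lam κ0 hU hg0 hC1.le hC2.le hlam hsg hκ
    (fun T hT hTr => h2 b T hTr (fun a ha => hSM a (hT ha)))
    (fun R hR hRr => by
      have := h3 b R hRr (fun a ha => hSM a (hR ha))
      rw [UU_add] at this
      exact this)
    Fail (by
      intro A hA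
      rw [hFail, mem_filter, Fintype.mem_piFinset] at hA
      obtain ⟨hAS, hAinj, hAn⟩ := hA
      refine ⟨hAS, ?_⟩
      have hl := h1 b A hAinj (fun x => hSM _ (hAS x)) (fun x => hSc _ (hAS x))
      have e1 : UU (4 * m * K') X y = UU (k + 1) X y / g ^ J := by
        rw [← UU_add]
        congr 1
        omega
      rw [e1] at hl
      refine hl.trans (sum_le_sum fun n _ => ?_)
      apply mul_le_mul_of_nonneg_left _ (nu_nonneg X _ b n)
      by_cases hc : (m ≤ ((univ : Finset (Fin (4 * m))).filter (fun g => ∃ j, (n + A (g, j)).Prime)).card) ∧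
        (∀ x, Rg δ X (n + A x))
      · rw [if_pos hc, if_pos]
        refine ⟨?_, hc.2⟩
        set S' := (univ : Finset (Fin (4 * m))).filter (fun g => ∃ j, (n + A (g, j)).Prime) with hS'
        have hne : Nonempty (Fin K') := ⟨⟨0, hK'⟩⟩
        have hch : ∀ g : Fin (4 * m), ∃ j : Fin K', g ∈ S' → (n + A (g, j)).Prime := by
          intro g
          by_cases hgS : g ∈ S'
          · have := hgS
            rw [hS', mem_filter] at this
            obtain ⟨j, hj⟩ := this.2
            exact ⟨j, fun _ => hj⟩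
          · exact ⟨Classical.arbitrary _, fun h => absurd h hgS⟩
        choose c hc' using hch
        have hn : ¬ ∀ U ⊆ S'.image (fun i => A (i, c i)), U.card = k + 1 → GoodT (κ0 ^ 2) k N y b U :=
          fun h => hAn ⟨S', c, hc.1, h⟩
        push Not at hn
        obtain ⟨U, hU1, hU2, hU3⟩ := hn
        refine ⟨U, fun a ha => ?_, hU2, ?_, ?_⟩
        · have := hU1 ha
          rw [mem_image] at this
          obtain ⟨i, _, hi⟩ := this
          rw [← hi]
          exact mem_image_of_mem _ (mem_univ _)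
        · unfold GoodT at hU3
          rw [not_le] at hU3
          refine lt_of_le_of_lt (le_of_eq (sum_congr rfl fun n' _ => congrArg _ ?_)) hU3
          by_cases h9 : ∀ t ∈ U, (n' + t).Prime
          · rw [if_pos h9, if_pos h9]
          · rw [if_neg h9, if_neg h9]
        · intro t ht
          have := hU1 ht
          rw [mem_image] at this
          obtain ⟨i, hi1, hi⟩ := this
          rw [← hi]
          exact hc' i hi1
      · rw [if_neg hc]
        split_ifs <;> norm_num)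
  refine hd ℕ S (GoodT (κ0 ^ 2) k N y b) Fail hn0 ?_ ?_
  · rw [← hD] at hbound
    have e2 : κ0 * ((1 + D) / 2) * ((Fintype.card (Fin (4 * m) × Fin K') : ℝ) ^ (k + 1) * (S.card : ℝ) ^ (k + 1 + J)) =
        c0 * (δ' * (S.card : ℝ) ^ (4 * m * K')) := by
      have e3 : k + 1 + J = 4 * m * K' := by omega
      rw [hcardI, e3, hκ0]
      field_simp
    rw [e2] at hbound
    exact le_of_mul_le_mul_left hbound hc0
  · intro A hAinj hAS hAF
    by_contra hcon
    apply hAF
    rw [hFail, mem_filter, Fintype.mem_piFinset]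
    refine ⟨hAS, hAinj, ?_⟩
    rintro ⟨S', c, h8, h9⟩
    apply hcon
    refine ⟨S', c, h8, fun U hU hUc => h9 U (fun a ha => ?_) hUc⟩
    obtain ⟨i, hi, hia⟩ := (@Finset.mem_image _ _ (fun a b => Classical.propDecidable (a = b)) _ _ _).1 (hU ha)
    rw [← hia]
    exact Finset.mem_image_of_mem (fun i => A (i, c i)) hi

end Pool.Agent.H362R2.QT
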