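import Pool.Agent.H362R2.QT.Stubs

/-! TOT: the total mass -/

set_option autoImplicit false

open Finset Filter Topology
open scoped ContDiff

namespace Pool.Agent.H362R2.QT

open Pool.Agent.H378R2 Pool.Agent.H387R2 Pool.Agent.H387R2.MB

theorem TOT : St_TOT := by
  intro K B f c A hsm hcs hf0 hc hA hf1 ε hε
  obtain ⟨z, hz⟩ := S1up f c A hsm hcs hf0 hc hA hf1 (ε / 2) (by positivity)
  refine ⟨z, ?_⟩
  filter_upwards [hz, exp_err K ((A.card : ℝ) ^ 2 * 5) (ε / 2) (by positivity),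
    LL_tendsto.eventually_ge_atTop 1, ev_pow_exp 3 (1 / 700) 1 (by norm_num) |>
      (fun h => Real.tendsto_log_atTop.eventually h)] with X h1 h2 h3 h4
  intro θ W E a0 t hC
  have hWle : (W : ℝ) ≤ Real.exp (Real.log X / 700) := by
    refine hC.cs.le.trans ?_
    rw [one_mul] at h4
    calc Real.log X ^ 3 ≤ Real.exp (1 / 700 * Real.log X) := h4
      _ = _ := by ring_nf
  have hCW : CW X z W E := ⟨hC.cs.gs.toGE h3, hC.cs.pos, hWle, hC.cs.dv⟩
  have s1 := h1 W E a0 t hCW hC.dt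
  have s2 := h2 W E hC.cs.pos hC.cs.le hC.cs.gs.pr
  have e1 : Real.exp (2 * LL X) ≤ Real.exp (3 * LL X) := Real.exp_le_exp.2 (by linarith)
  have e2 : (A.card : ℝ) ^ 2 * (5 * Real.exp (2 * LL X)) ≤
      (A.card : ℝ) ^ 2 * 5 * Real.exp (3 * LL X) := by
    rw [mul_assoc]
    exact mul_le_mul_of_nonneg_left (mul_le_mul_of_nonneg_left e1 (by norm_num)) (by positivity)
  refine s1.trans ?_
  unfold QQ
  nlinarith [s2, e2]

end Pool.Agent.H362R2.QT
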