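import Mathlib
import Pool.Agent.H362R2.QT.BV
import Pool.Agent.H362R2.QT.COL
import Pool.Agent.H362R2.QT.CTS
import Pool.Agent.H362R2.QT.FAM
import Pool.Agent.H362R2.QT.FIN
import Pool.Agent.H362R2.QT.LOW
import Pool.Agent.H362R2.QT.ONE
import Pool.Agent.H362R2.QT.PAIR
import Pool.Agent.H362R2.QT.PRG
import Pool.Agent.H362R2.QT.RAMP
import Pool.Agent.H362R2.QT.SM
import Pool.Agent.H362R2.QT.TOT

/-! The assembled theorem. -/

set_option autoImplicit false

namespace Pool.Agent.H362R2.QT

theorem pair_holds : St_PAIR := PAIR prg_holds RAMP BV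

theorem col_holds : St_COL := COL FAM TOT ONE pair_holds

theorem low_holds : St_LOW := LOW col_holds

theorem sm_holds : St_SM := SM low_holds

theorem fin_holds : St_FIN := FIN sm_holds CTS

end Pool.Agent.H362R2.QT
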